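import Pool.Agent.N512.CC.Stm

/-!
# The circle criterion from its parts
-/

set_option autoImplicit false
set_option linter.unusedSectionVars false

open MeasureTheory Set Metric Filter Topology
open scoped ENNReal NNReal

namespace Pool.Agent.N512.CC.Circ

open Pool.Agent.Y485.HS Pool.Agent.N512.CC Pool.Agent.Y532.SP.LOCS

/-- extension of a map of the ball close to the identity -/
theorem ext {n : ℕ} {f : E n → E n} (hf : ContinuousOn f (BB n))
    (hd : ∀ x ∈ BB n, dist (f x) x ≤ 1 / 4) :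
    ∃ f' : E n → E n, Cls f' ∧ (∀ x, dist (f' x) x ≤ 1 / 4) ∧
      ∀ x ∈ closedBall (0 : E n) 3, f' x = f x := by
  let χ : E n → ℝ := fun x => max 0 (min 1 (4 - ‖x‖))
  have hχc : Continuous χ := by fun_prop
  have hχ0 : ∀ x, 0 ≤ χ x := fun x => le_max_left _ _
  have hχ1 : ∀ x, χ x ≤ 1 := fun x => max_le zero_le_one (min_le_left _ _)
  have hχz : ∀ x : E n, 4 ≤ ‖x‖ → χ x = 0 := by
    intro x hx
    exact max_eq_left ((min_le_right _ _).trans (by linarith))
  have hχo : ∀ x : E n, ‖x‖ ≤ 3 → χ x = 1 := by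
    intro x hx
    have h1 : min 1 (4 - ‖x‖) = 1 := min_eq_left (by linarith)
    show max 0 (min 1 (4 - ‖x‖)) = 1
    rw [h1]
    exact max_eq_right zero_le_one
  refine ⟨fun x => x + χ x • (f x - x), ⟨?_, 4, ?_⟩, ?_, ?_⟩
  · have h1 : ContinuousOn (fun x => x + χ x • (f x - x)) (BB n) :=
      continuousOn_id.add (hχc.continuousOn.smul (hf.sub continuousOn_id))
    have h2 : ContinuousOn (fun x => x + χ x • (f x - x)) {x : E n | 4 ≤ ‖x‖} := by
      refine continuousOn_id.congr fun x hx => ?_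
      have h3 : χ x = 0 := hχz x hx
      show x + χ x • (f x - x) = x
      rw [h3, zero_smul, add_zero]
    have h3 := h1.union_of_isClosed h2 isClosed_closedBall
      (isClosed_le continuous_const continuous_norm)
    rw [← continuousOn_univ]
    refine h3.mono fun x _ => ?_
    rcases le_total ‖x‖ 4 with h | h
    · exact Or.inl (by simpa [BB] using h)
    · exact Or.inr h
  · intro x hx
    show x + χ x • (f x - x) = x
    rw [hχz x hx, zero_smul, add_zero]
  · intro x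
    rw [dist_eq_norm, add_sub_cancel_left, norm_smul, Real.norm_of_nonneg (hχ0 x)]
    rcases le_total ‖x‖ 4 with h | h
    · have h1 := hd x (by simpa [BB] using h)
      rw [dist_eq_norm] at h1
      calc χ x * ‖f x - x‖ ≤ 1 * (1 / 4) := mul_le_mul (hχ1 x) h1 (norm_nonneg _) zero_le_one
        _ = 1 / 4 := one_mul _
    · rw [hχz x h, zero_mul]
      norm_num
  · intro x hx
    show x + χ x • (f x - x) = f x
    rw [hχo x (by simpa using hx), one_smul]
    abel

/-- the rotation -/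
noncomputable def zt (p : ℕ) : ℂ := Complex.exp (2 * Real.pi * Complex.I / p)

/-- the data -/
structure Hyp {n p : ℕ} (C R : ZMod (2 * p) → Set ℂ) (ω : ZMod (2 * p) → ℂ → ℝ)
    (F f : E n → E n) (τ : ℕ → E n → E n) (Ψ : E n → ℂ) (y : E n) (η : ℝ) : Prop where
  sec : IsSec p C R ω
  hp : 2 ≤ p
  hF : Cls F
  hf : Cls f
  hτ : ∀ l, Cls (τ l)
  hη : 0 < η
  bd : ∀ x, dist (F x) y ≤ η → ‖x‖ < 3 / 2
  hΨ : ContinuousOn Ψ (closedBall 0 2)
  hΨ0 : ∀ x, dist (F x) y ≤ η → Ψ x ≠ 0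
  near : ∀ x, dist (f x) (F x) < η / 4
  τF : ∀ l x, ‖x‖ ≤ 2 → F (τ l x) = F x
  τd : ∀ l x, dist (τ l x) x ≤ 1 / 4
  τmul : ∀ l x, ‖x‖ ≤ 2 → τ l (τ 1 x) = τ (l + 1) x
  τΨ : ∀ l x, dist (F x) y ≤ η → Ψ (τ l x) = zt p ^ l * Ψ x
  miss : ∀ x, dist (F x) y ≤ η → (∃ i, Ψ x ∈ R i) → f x ≠ y

section
variable {n p : ℕ} {C R : ZMod (2 * p) → Set ℂ} {ω : ZMod (2 * p) → ℂ → ℝ}
  {F f : E n → E n} {τ : ℕ → E n → E n} {Ψ : E n → ℂ} {y : E n} {η : ℝ}

/-- the cut-off -/
noncomputable def ρ (F : E n → E n) (y : E n) (η : ℝ) (x : E n) : ℝ :=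
  max 0 (min 1 (2 - 2 * dist (F x) y / η))

/-- the mixed maps -/
noncomputable def mix [Fintype (ZMod (2 * p))] (ω : ZMod (2 * p) → ℂ → ℝ) (F f : E n → E n)
    (τ : ℕ → E n → E n) (Ψ : E n → ℂ) (y : E n) (η : ℝ) (σ : ZMod (2 * p) → ℕ) (x : E n) : E n :=
  f x + ρ F y η x • ∑ j, ω j (Ψ x) • (f (τ (σ j) x) - f x)

/-- the regions -/
def W (C : ZMod (2 * p) → Set ℂ) (F : E n → E n) (Ψ : E n → ℂ) (y : E n) (η : ℝ)
    (i : ZMod (2 * p)) : Set (E n) := {x | dist (F x) y < η / 2 ∧ Ψ x ∈ C i}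

variable (h : Hyp C R ω F f τ Ψ y η)
include h

theorem Hyp.norm2 {x : E n} (hx : dist (F x) y ≤ η) : ‖x‖ ≤ 2 := by
  have := h.bd x hx
  linarith

theorem ρ_one {x : E n} (hx : dist (F x) y ≤ η / 2) : ρ F y η x = 1 := by
  have hη := h.hη
  have h1 : 2 * dist (F x) y / η ≤ 1 := by
    rw [div_le_one hη]
    linarith
  have h2 : min 1 (2 - 2 * dist (F x) y / η) = 1 := min_eq_left (by linarith)
  rw [ρ, h2]
  exact max_eq_right zero_le_one

theorem ρ_zero {x : E n} (hx : η ≤ dist (F x) y) : ρ F y η x = 0 := by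
  have hη := h.hη
  have h1 : 2 ≤ 2 * dist (F x) y / η := by
    rw [le_div_iff₀ hη]
    linarith
  exact max_eq_left ((min_le_right _ _).trans (by linarith))

theorem f_tau (l : ℕ) {x : E n} (hx : dist (F x) y ≤ η) : dist (f (τ l x)) (F x) < η / 4 := by
  have h1 := h.near (τ l x)
  rwa [h.τF l x (h.norm2 hx)] at h1

theorem F_tau (l : ℕ) {x : E n} (hx : dist (F x) y ≤ η) : dist (F (τ l x)) y ≤ η := by
  rw [h.τF l x (h.norm2 hx)]
  exact hx

theorem zt_pow : zt p ^ p = 1 := by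
  have hp : (p : ℂ) ≠ 0 := by
    have := h.hp
    exact_mod_cast (by omega : p ≠ 0)
  rw [zt, ← Complex.exp_nat_mul]
  have h1 : (p : ℂ) * (2 * Real.pi * Complex.I / p) = 2 * Real.pi * Complex.I := by
    field_simp
  rw [h1, Complex.exp_two_pi_mul_I]

theorem ray_rot (l : ℕ) {z : ℂ} : (∃ i, zt p ^ l * z ∈ R i) ↔ ∃ i, z ∈ R i := by
  rw [h.sec.rays, h.sec.rays]
  have h1 : (zt p ^ l * z) ^ (2 * p) = z ^ (2 * p) := by
    rw [mul_pow, ← pow_mul, mul_comm l, mul_comm 2 p, mul_assoc, pow_mul, zt_pow h, one_pow,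
      one_mul]
  have h2 : zt p ^ l ≠ 0 := pow_ne_zero _ (Complex.exp_ne_zero _)
  rw [h1]
  simp [h2]

theorem miss_tau (l : ℕ) {x : E n} (hx : dist (F x) y ≤ η) {i : ZMod (2 * p)} (hi : Ψ x ∈ R i) :
    f (τ l x) ≠ y := by
  refine h.miss _ (F_tau h l hx) ?_
  rw [h.τΨ l x hx, ray_rot h]
  exact ⟨i, hi⟩

variable [Fintype (ZMod (2 * p))]

theorem mix_near (σ : ZMod (2 * p) → ℕ) (x : E n) :
    dist (mix ω F f τ Ψ y η σ x) (F x) ≤ η / 4 := by
  rcases le_total η (dist (F x) y) with hx | hx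
  · rw [mix, ρ_zero h hx, zero_smul, add_zero]
    exact (h.near x).le
  · have hsum : ∑ j, ω j (Ψ x) = 1 := h.sec.sum _ (h.hΨ0 x hx)
    have h0 : 0 ≤ ρ F y η x := le_max_left _ _
    have h1 : ρ F y η x ≤ 1 := max_le zero_le_one (min_le_left _ _)
    have he : mix ω F f τ Ψ y η σ x - F x = (1 - ρ F y η x) • (f x - F x) +
        ρ F y η x • ∑ j, ω j (Ψ x) • (f (τ (σ j) x) - F x) := by
      have e1 : ∑ j, ω j (Ψ x) • (f (τ (σ j) x) - f x) =
          ∑ j, ω j (Ψ x) • (f (τ (σ j) x) - F x) - (f x - F x) := by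
        have e2 : f x - F x = ∑ j, ω j (Ψ x) • (f x - F x) := by
          rw [← Finset.sum_smul, hsum, one_smul]
        rw [e2, ← Finset.sum_sub_distrib]
        refine Finset.sum_congr rfl fun j _ => ?_
        rw [← smul_sub]
        congr 1
        abel
      rw [mix, e1, smul_sub, sub_smul, one_smul]
      abel
    rw [dist_eq_norm, he]
    have hf1 : ‖f x - F x‖ ≤ η / 4 := by
      rw [← dist_eq_norm]
      exact (h.near x).le
    have hs1 : ‖∑ j, ω j (Ψ x) • (f (τ (σ j) x) - F x)‖ ≤ η / 4 := by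
      calc ‖∑ j, ω j (Ψ x) • (f (τ (σ j) x) - F x)‖
          ≤ ∑ j, ω j (Ψ x) * (η / 4) := by
            refine norm_sum_le_of_le _ fun j _ => ?_
            rw [norm_smul, Real.norm_of_nonneg (h.sec.nonneg _ _)]
            refine mul_le_mul_of_nonneg_left ?_ (h.sec.nonneg _ _)
            rw [← dist_eq_norm]
            exact (f_tau h _ hx).le
        _ = η / 4 := by rw [← Finset.sum_mul, hsum, one_mul]
    calc ‖(1 - ρ F y η x) • (f x - F x) + ρ F y η x • ∑ j, ω j (Ψ x) • (f (τ (σ j) x) - F x)‖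
        ≤ (1 - ρ F y η x) * (η / 4) + ρ F y η x * (η / 4) := by
          refine (norm_add_le _ _).trans (add_le_add ?_ ?_)
          · rw [norm_smul, Real.norm_of_nonneg (by linarith)]
            exact mul_le_mul_of_nonneg_left hf1 (by linarith)
          · rw [norm_smul, Real.norm_of_nonneg h0]
            exact mul_le_mul_of_nonneg_left hs1 h0
      _ = η / 4 := by ring

theorem mix_mem (σ : ZMod (2 * p) → ℕ) {x : E n} (hx : mix ω F f τ Ψ y η σ x = y) :
    dist (F x) y < η / 2 := by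
  have h1 := mix_near h σ x
  rw [hx, dist_comm] at h1
  have := h.hη
  linarith

theorem mix_eq (σ : ZMod (2 * p) → ℕ) {x : E n} (hx : dist (F x) y ≤ η / 2) :
    mix ω F f τ Ψ y η σ x = ∑ j, ω j (Ψ x) • f (τ (σ j) x) := by
  have hη := h.hη
  have hsum : ∑ j, ω j (Ψ x) = 1 := h.sec.sum _ (h.hΨ0 x (by linarith))
  rw [mix, ρ_one h hx, one_smul]
  simp only [smul_sub]
  rw [Finset.sum_sub_distrib, ← Finset.sum_smul, hsum, one_smul]
  abel

theorem ω_ray {i : ZMod (2 * p)} {z : ℂ} (hz : z ∈ R i) {j : ZMod (2 * p)} (hj : j ≠ i) :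
    ω j z = 0 := by
  classical
  have hz0 : z ≠ 0 := fun h0 => h.sec.zeroR i (h0 ▸ hz)
  have hsum : ∑ j, ω j z = 1 := h.sec.sum _ hz0
  have h1 := h.sec.ray i z hz
  have h2 : ω i z + ω j z ≤ ∑ j, ω j z := by
    have h3 : ∑ k ∈ ({i, j} : Finset (ZMod (2 * p))), ω k z ≤ ∑ k, ω k z :=
      Finset.sum_le_sum_of_subset_of_nonneg (Finset.subset_univ _)
        fun k _ _ => h.sec.nonneg k z
    rwa [Finset.sum_pair (Ne.symm hj)] at h3
  have h3 := h.sec.nonneg j z
  linarith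

theorem mix_ray (σ : ZMod (2 * p) → ℕ) {x : E n} (hx : dist (F x) y ≤ η / 2)
    {i : ZMod (2 * p)} (hi : Ψ x ∈ R i) : mix ω F f τ Ψ y η σ x = f (τ (σ i) x) := by
  rw [mix_eq h σ hx, Finset.sum_eq_single i]
  · rw [h.sec.ray i _ hi, one_smul]
  · intro j _ hj
    rw [ω_ray h hi hj, zero_smul]
  · intro hi
    exact absurd (Finset.mem_univ i) hi

omit [Fintype (ZMod (2 * p))] in
theorem closed_le (c : ℝ) : IsClosed {x : E n | dist (F x) y ≤ c} :=
  isClosed_le (h.hF.1.dist continuous_const) continuous_const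

theorem cls_mix (σ : ZMod (2 * p) → ℕ) : Cls (mix ω F f τ Ψ y η σ) := by
  have hη := h.hη
  have hFc := h.hF.1
  have hρc : Continuous (ρ F y η) := by
    unfold ρ
    fun_prop
  constructor
  · have h1 : ContinuousOn (mix ω F f τ Ψ y η σ) {x : E n | dist (F x) y ≤ η} := by
      have hΨc : ContinuousOn Ψ {x : E n | dist (F x) y ≤ η} :=
        h.hΨ.mono fun x hx => by
          have := h.norm2 hx
          simpa using this
      refine h.hf.1.continuousOn.add (hρc.continuousOn.smul ?_)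
      refine continuousOn_finsetSum _ fun j _ => ?_
      have k1 : ContinuousOn (fun x => ω j (Ψ x)) {x : E n | dist (F x) y ≤ η} :=
        (h.sec.cont j).comp hΨc fun x hx => h.hΨ0 x hx
      have k2 : ContinuousOn (fun x => f (τ (σ j) x) - f x) {x : E n | dist (F x) y ≤ η} :=
        ((h.hf.1.comp (h.hτ _).1).sub h.hf.1).continuousOn
      exact k1.smul k2
    have h2 : ContinuousOn (mix ω F f τ Ψ y η σ) {x : E n | η ≤ dist (F x) y} := by
      refine h.hf.1.continuousOn.congr fun x hx => ?_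
      rw [mix, ρ_zero h hx, zero_smul, add_zero]
    have h3 := h1.union_of_isClosed h2 (closed_le h η)
      (isClosed_le continuous_const (h.hF.1.dist continuous_const))
    rw [← continuousOn_univ]
    refine h3.mono fun x _ => ?_
    rcases le_total (dist (F x) y) η with h4 | h4
    · exact Or.inl h4
    · exact Or.inr h4
  · obtain ⟨R1, hR1⟩ := h.hf.2
    refine ⟨max R1 2, fun x hx => ?_⟩
    have h1 : η ≤ dist (F x) y := by
      by_contra hcon
      push Not at hcon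
      have h2 := h.bd x hcon.le
      have h3 := (le_max_right R1 2).trans hx
      linarith
    rw [mix, ρ_zero h h1, zero_smul, add_zero]
    exact hR1 x ((le_max_left _ _).trans hx)

omit [Fintype (ZMod (2 * p))] in
theorem isOpen_O : IsOpen {x : E n | dist (F x) y < η / 2} :=
  isOpen_lt (h.hF.1.dist continuous_const) continuous_const

omit [Fintype (ZMod (2 * p))] in
theorem sub_O {x : E n} (hx : dist (F x) y < η / 2) : dist (F x) y ≤ η := by
  have := h.hη
  linarith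

omit [Fintype (ZMod (2 * p))] in
theorem isOpen_W (i : ZMod (2 * p)) : IsOpen (W C F Ψ y η i) := by
  have h1 : ContinuousOn Ψ {x : E n | dist (F x) y < η / 2} :=
    h.hΨ.mono fun x hx => by
      have := h.norm2 (sub_O h hx)
      simpa using this
  exact h1.isOpen_inter_preimage (isOpen_O h) (h.sec.open_C i)

omit [Fintype (ZMod (2 * p))] in
theorem bounded_O : Bornology.IsBounded {x : E n | dist (F x) y < η / 2} := by
  refine (isBounded_ball (x := (0 : E n)) (r := 2)).subset fun x hx => ?_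
  have := h.bd x (sub_O h hx)
  simp only [mem_ball, dist_zero_right]
  linarith

omit [Fintype (ZMod (2 * p))] in
theorem bounded_W (i : ZMod (2 * p)) : Bornology.IsBounded (W C F Ψ y η i) :=
  (bounded_O h).subset fun _ hx => hx.1

omit [Fintype (ZMod (2 * p))] in
theorem frontier_W {i : ZMod (2 * p)} {x : E n} (hx : x ∈ frontier (W C F Ψ y η i)) :
    dist (F x) y ≤ η / 2 ∧ (dist (F x) y = η / 2 ∨ Ψ x ∈ R i ∨ Ψ x ∈ R (i + 1)) := by
  have hη := h.hη
  rw [(isOpen_W h i).frontier_eq] at hx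
  obtain ⟨hx1, hx2⟩ := hx
  have h1 : dist (F x) y ≤ η / 2 :=
    closure_minimal (fun z hz => (hz.1 : dist (F z) y < η / 2).le) (closed_le h (η / 2)) hx1
  refine ⟨h1, ?_⟩
  rcases h1.eq_or_lt with h2 | h2
  · exact Or.inl h2
  right
  have hx3 := h.norm2 (sub_O h h2)
  have h3 : Ψ x ∈ closure (C i) := by
    have hc : ContinuousWithinAt Ψ (W C F Ψ y η i) x := by
      refine (h.hΨ x (by simpa using hx3)).mono fun z hz => ?_
      have := h.norm2 (sub_O h hz.1)
      simpa using this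
    refine hc.mem_closure hx1 fun z hz => hz.2
  rcases h.sec.closure_C i h3 with ((h4 | h4) | h4) | h4
  · exact absurd ⟨h2, h4⟩ hx2
  · exact Or.inl h4
  · exact Or.inr h4
  · exact absurd h4 (h.hΨ0 x (sub_O h h2))

theorem mix_ne (σ : ZMod (2 * p) → ℕ) {i : ZMod (2 * p)} {x : E n}
    (hx : x ∈ frontier (W C F Ψ y η i)) : mix ω F f τ Ψ y η σ x ≠ y := by
  have hη := h.hη
  obtain ⟨h1, h2⟩ := frontier_W h hx
  intro he
  have h3 := mix_mem h σ he
  rcases h2 with h2 | h2 | h2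
  · linarith
  · rw [mix_ray h σ h1 h2] at he
    exact miss_tau h _ (by linarith) h2 he
  · rw [mix_ray h σ h1 h2] at he
    exact miss_tau h _ (by linarith) h2 he

/-- the degree on a region depends only on the values on the two rays -/
theorem deg_hom {deg : (E n → E n) → Set (E n) → E n → ℤ} (hdeg : IsDeg n deg)
    (σ σ' : ZMod (2 * p) → ℕ) (i : ZMod (2 * p))
    (h1 : ∀ x, dist (F x) y ≤ η → Ψ x ∈ R i → ∀ t ∈ Icc (0 : ℝ) 1,
      f (τ (σ i) x) + t • (f (τ (σ' i) x) - f (τ (σ i) x)) ≠ y)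
    (h2 : ∀ x, dist (F x) y ≤ η → Ψ x ∈ R (i + 1) → ∀ t ∈ Icc (0 : ℝ) 1,
      f (τ (σ (i + 1)) x) + t • (f (τ (σ' (i + 1)) x) - f (τ (σ (i + 1)) x)) ≠ y) :
    deg (mix ω F f τ Ψ y η σ) (W C F Ψ y η i) y = deg (mix ω F f τ Ψ y η σ') (W C F Ψ y η i) y := by
  have hη := h.hη
  refine hdeg.hom _ _ (cls_mix h σ) (cls_mix h σ') _ (isOpen_W h i) (bounded_W h i) y ?_
  intro x hx t ht
  obtain ⟨h3, h4⟩ := frontier_W h hx
  rcases h4 with h4 | h4 | h4
  · intro he
    have e1 := mix_near h σ x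
    have e2 := mix_near h σ' x
    have e3 : dist (mix ω F f τ Ψ y η σ x +
        t • (mix ω F f τ Ψ y η σ' x - mix ω F f τ Ψ y η σ x)) (F x) ≤ η / 4 := by
      have hconv : Convex ℝ (closedBall (F x) (η / 4)) := convex_closedBall _ _
      exact hconv.add_smul_sub_mem (mem_closedBall.2 e1) (mem_closedBall.2 e2) ht
    rw [he, dist_comm] at e3
    linarith
  · rw [mix_ray h σ h3 h4, mix_ray h σ' h3 h4]
    exact h1 x (by linarith) h4 t ht
  · rw [mix_ray h σ h3 h4, mix_ray h σ' h3 h4]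
    exact h2 x (by linarith) h4 t ht

/-- the same when the states agree -/
theorem deg_congr {deg : (E n → E n) → Set (E n) → E n → ℤ} (hdeg : IsDeg n deg)
    (σ σ' : ZMod (2 * p) → ℕ) (i : ZMod (2 * p)) (h1 : σ i = σ' i)
    (h2 : σ (i + 1) = σ' (i + 1)) :
    deg (mix ω F f τ Ψ y η σ) (W C F Ψ y η i) y = deg (mix ω F f τ Ψ y η σ') (W C F Ψ y η i) y := by
  refine deg_hom h hdeg σ σ' i ?_ ?_
  · intro x hx hi t _
    rw [h1, sub_self, smul_zero, add_zero]
    exact miss_tau h _ hx hi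
  · intro x hx hi t _
    rw [h2, sub_self, smul_zero, add_zero]
    exact miss_tau h _ hx hi

theorem deg_tot {deg : (E n → E n) → Set (E n) → E n → ℤ} (hdeg : IsDeg n deg)
    (σ : ZMod (2 * p) → ℕ) :
    ∑ i, deg (mix ω F f τ Ψ y η σ) (W C F Ψ y η i) y = 1 := by
  classical
  have h1 := hdeg.tot _ (cls_mix h σ) _ (isOpen_O h) (bounded_O h) y
    (fun x hx => mix_mem h σ hx)
  let e := Fintype.equivFin (ZMod (2 * p))
  have h2 := hdeg.add _ (cls_mix h σ) _ (isOpen_O h) (bounded_O h) (Fintype.card (ZMod (2 * p)))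
    (fun k => W C F Ψ y η (e.symm k)) (fun k => isOpen_W h _) (by
      intro i j hij
      rw [Set.disjoint_left]
      intro x hx hx'
      exact Set.disjoint_left.1 (h.sec.disj _ _ fun h3 => hij (e.symm.injective h3)) hx.2 hx'.2)
    (fun i x hx => hx.1) y (by
      intro x _ hx
      have h3 := mix_mem h σ hx
      rcases h.sec.cover (Ψ x) (h.hΨ0 x (sub_O h h3)) with ⟨i, hi⟩ | ⟨i, hi⟩
      · refine ⟨e i, h3, ?_⟩
        rw [Equiv.symm_apply_apply]
        exact hi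
      · rw [mix_ray h σ h3.le hi] at hx
        exact absurd hx (miss_tau h _ (sub_O h h3) hi))
  rw [h1] at h2
  rw [h2]
  exact (Equiv.sum_comp e.symm (fun i => deg (mix ω F f τ Ψ y η σ) (W C F Ψ y η i) y)).symm

theorem mix_tau (σ : ZMod (2 * p) → ℕ) {x : E n} (hx : dist (F x) y ≤ η / 2) :
    mix ω F f τ Ψ y η σ (τ 1 x) = mix ω F f τ Ψ y η (fun j => σ (j + 2) + 1) x := by
  have hη := h.hη
  have hx' : dist (F x) y ≤ η := by linarith
  have h2 := h.norm2 hx'
  rw [mix_eq h σ (by rw [h.τF 1 x h2]; exact hx), mix_eq h _ hx, h.τΨ 1 x hx', pow_one]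
  rw [← Equiv.sum_comp (Equiv.addRight (2 : ZMod (2 * p)))]
  refine Finset.sum_congr rfl fun j _ => ?_
  simp only [Equiv.coe_addRight]
  rw [h.τmul _ x h2]
  congr 1
  exact h.sec.rotω j (Ψ x)

theorem deg_rot {deg : (E n → E n) → Set (E n) → E n → ℤ} (hdeg : IsDeg n deg)
    (σ : ZMod (2 * p) → ℕ) (i : ZMod (2 * p)) :
    deg (mix ω F f τ Ψ y η σ) (W C F Ψ y η (i + 2)) y =
      deg (mix ω F f τ Ψ y η (fun j => σ (j + 2) + 1)) (W C F Ψ y η i) y := by
  have hη := h.hη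
  have hcls : Cls (fun x => mix ω F f τ Ψ y η σ (τ 1 x)) := by
    refine ⟨(cls_mix h σ).1.comp (h.hτ 1).1, ?_⟩
    obtain ⟨R1, hR1⟩ := (cls_mix h σ).2
    obtain ⟨R2, hR2⟩ := (h.hτ 1).2
    refine ⟨max R1 R2, fun x hx => ?_⟩
    show mix ω F f τ Ψ y η σ (τ 1 x) = x
    rw [hR2 x ((le_max_right _ _).trans hx), hR1 x ((le_max_left _ _).trans hx)]
  have hfr : ∀ x ∈ frontier (W C F Ψ y η i),
      mix ω F f τ Ψ y η σ (τ 1 x) = mix ω F f τ Ψ y η (fun j => σ (j + 2) + 1) x :=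
    fun x hx => mix_tau h σ (frontier_W h hx).1
  have h1 := hdeg.comp _ _ (cls_mix h σ) (h.hτ 1) (W C F Ψ y η i) (W C F Ψ y η (i + 2))
    (isOpen_W h _) (bounded_W h _) (isOpen_W h _) (bounded_W h _) y (by
      intro x hx
      rw [hfr x hx]
      exact mix_ne h _ hx) (fun x hx => mix_ne h _ hx) (by
      intro x hx
      have h2 := mix_mem h σ hx
      have h3 := h.bd _ (sub_O h h2)
      have h4 : ‖x‖ ≤ 2 := by
        have h5 := h.τd 1 x
        rw [dist_comm, dist_eq_norm] at h5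
        calc ‖x‖ = ‖(x - τ 1 x) + τ 1 x‖ := by congr 1; abel
          _ ≤ _ := norm_add_le _ _
          _ ≤ 2 := by linarith
      have h5 := h.τF 1 x h4
      rw [h5] at h2
      have h6 := h.τΨ 1 x (sub_O h h2)
      rw [pow_one] at h6
      simp only [W, mem_ofPred_eq]
      rw [h5, h6]
      have h7 := h.sec.rotC i (Ψ x)
      exact ⟨fun h8 => ⟨h8.1, h7.2 h8.2⟩, fun h8 => ⟨h8.1, h7.1 h8.2⟩⟩)
  rw [← h1]
  refine hdeg.hom _ _ hcls (cls_mix h _) _ (isOpen_W h i) (bounded_W h i) y ?_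
  intro x hx t _
  rw [hfr x hx, sub_self, smul_zero, add_zero]
  exact mix_ne h _ hx

end

end Pool.Agent.N512.CC.Circ
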