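import Pool.Agent.N512.CC.Circ

/-!
# The circle criterion from its parts, end of the proof
-/

set_option autoImplicit false
set_option linter.unusedSectionVars false

open MeasureTheory Set Metric Filter Topology
open scoped ENNReal NNReal

namespace Pool.Agent.N512.CC.Circ

open Pool.Agent.Y485.HS Pool.Agent.N512.CC Pool.Agent.Y532.SP.LOCS

theorem t_CIRC (hD : S_DEG) (hM : S_MISS) (hC : S_CONE) (hG : S_GEN) (hB : S_COMB) :
    S_CIRC := by
  classical
  intro p hp n hn H _ _ T hT g hg F hFc hFd hFi y hy Ψ hΨ hΨg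
  by_contra hcon
  push Not at hcon
  have hp2 : 2 ≤ p := hp.two_le
  have hy1 : ‖y‖ < 1 := by simpa using hy
  obtain ⟨F', hF'1, hF'2, hF'3⟩ := ext hFc hFd
  have hτex : ∀ l : ℕ, ∃ f' : E n → E n, Cls f' ∧ (∀ x, dist (f' x) x ≤ 1 / 4) ∧
      ∀ x ∈ closedBall (0 : E n) 3, f' x = T (g ^ l) x := fun l =>
    ext (hT.cont_right (g ^ l)) (hT.disp (g ^ l))
  choose τ hτ1 hτ2 hτ3 using hτex
  have hBB : ∀ x : E n, ‖x‖ ≤ 3 → x ∈ BB n := fun x hx => mem_BB.2 (by linarith)
  have hn3 : ∀ x : E n, ‖x‖ ≤ 3 → x ∈ closedBall (0 : E n) 3 := fun x hx => by simpa using hx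
  have hTn : ∀ (l : ℕ) (x : E n), ‖x‖ ≤ 3 → ‖T (g ^ l) x‖ ≤ ‖x‖ + 1 / 4 := fun l x hx =>
    norm_T_le hT _ (hBB x hx)
  -- invariance
  have hFl : ∀ (l : ℕ) (x : E n), ‖x‖ ≤ 2 → F (T (g ^ l) x) = F x := by
    intro l x hx
    induction l with
    | zero => rw [pow_zero, hT.one x (hBB x (by linarith))]
    | succ l ih =>
      have h1 := hTn l x (by linarith)
      rw [pow_succ', hT.mul g (g ^ l) x (hBB x (by linarith)) (hBB _ (by linarith)),
        hFi _ (hn3 _ (by linarith)), ih]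
  have hF'l : ∀ (l : ℕ) (x : E n), ‖x‖ ≤ 2 → F' (τ l x) = F' x := by
    intro l x hx
    have h1 := hTn l x (by linarith)
    rw [hτ3 l x (hn3 x (by linarith)), hF'3 _ (hn3 _ (by linarith)),
      hF'3 _ (hn3 x (by linarith)), hFl l x hx]
  -- the level
  have hnorm : ∀ x : E n, ∀ e : ℝ, dist (F' x) y ≤ e → ‖x‖ < 5 / 4 + e := by
    intro x e hx
    have h1 := hF'2 x
    rw [dist_comm] at h1
    rw [dist_eq_norm] at h1 hx
    calc ‖x‖ = ‖(x - F' x) + ((F' x - y) + y)‖ := by congr 1; abel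
      _ ≤ ‖x - F' x‖ + (‖F' x - y‖ + ‖y‖) := (norm_add_le _ _).trans
          (add_le_add le_rfl (norm_add_le _ _))
      _ < 5 / 4 + e := by linarith
  obtain ⟨η1, hη1, hη1'⟩ : ∃ η1 : ℝ, 0 < η1 ∧ ∀ x : E n, ‖x‖ ≤ 3 / 2 → dist (F' x) y ≤ η1 →
      Ψ x ≠ 0 := by
    have hcomp : IsCompact (closedBall (0 : E n) (3 / 2) ∩ Ψ ⁻¹' {0}) := by
      refine (isCompact_closedBall _ _).of_isClosed_subset ?_ inter_subset_left
      exact (hΨ.mono (closedBall_subset_closedBall (by norm_num))).preimage_isClosed_of_isClosed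
        isClosed_closedBall isClosed_singleton
    rcases (closedBall (0 : E n) (3 / 2) ∩ Ψ ⁻¹' {0}).eq_empty_or_nonempty with he | hne
    · refine ⟨1, one_pos, fun x hx _ h0 => ?_⟩
      have : x ∈ closedBall (0 : E n) (3 / 2) ∩ Ψ ⁻¹' {0} := ⟨by simpa using hx, h0⟩
      rw [he] at this
      exact this
    · obtain ⟨x0, hx0, hmin⟩ := hcomp.exists_isMinOn hne
        (hF'1.1.dist (continuous_const (y := y))).continuousOn
      have hpos : 0 < dist (F' x0) y := by
        rw [dist_pos]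
        intro he
        have h1 : dist (F' x0) y ≤ 0 := by rw [he, dist_self]
        have h2 := hnorm x0 0 h1
        rw [hF'3 x0 (hn3 x0 (by linarith))] at he
        exact hcon x0 (by simp only [mem_closedBall, dist_zero_right]; linarith) he hx0.2
      refine ⟨dist (F' x0) y / 2, by positivity, fun x hx hd h0 => ?_⟩
      have h1 : dist (F' x0) y ≤ dist (F' x) y := hmin ⟨by simpa using hx, h0⟩
      linarith
  set η : ℝ := min (1 / 4) η1 with hη
  have hηp : 0 < η := lt_min (by norm_num) hη1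
  have hη4 : η ≤ 1 / 4 := min_le_left _ _
  have hbd : ∀ x, dist (F' x) y ≤ η → ‖x‖ < 3 / 2 := fun x hx => by
    have := hnorm x η hx
    linarith
  have hΨ0 : ∀ x, dist (F' x) y ≤ η → Ψ x ≠ 0 := fun x hx =>
    hη1' x (hbd x hx).le (hx.trans (min_le_right _ _))
  -- equivariance
  have hΨl : ∀ (l : ℕ) (x : E n), dist (F' x) y ≤ η → Ψ (τ l x) = zt p ^ l * Ψ x := by
    intro l x hx
    have hx2 := hbd x hx
    rw [hτ3 l x (hn3 x (by linarith))]
    induction l with
    | zero => rw [pow_zero, pow_zero, one_mul, hT.one x (hBB x (by linarith))]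
    | succ l ih =>
      have h1 := hTn l x (by linarith)
      rw [pow_succ', hT.mul g (g ^ l) x (hBB x (by linarith)) (hBB _ (by linarith)),
        hΨg _ (by simp only [mem_closedBall, dist_zero_right]; linarith), ih]
      show zt p * (zt p ^ l * Ψ x) = zt p ^ (l + 1) * Ψ x
      rw [pow_succ' (zt p) l]
      ring
  -- the rotation and the sectors
  obtain ⟨c, hc1, hc2⟩ := hG n p hp2 Ψ
  have hc0 : c ≠ 0 := by
    intro h0
    rw [h0, norm_zero] at hc1
    exact zero_ne_one hc1
  obtain ⟨C, R, ω, hsec⟩ := hC p hp2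
  set Ψ' : E n → ℂ := fun x => c * Ψ x with hΨ'
  have hΨ'c : ContinuousOn Ψ' (closedBall 0 2) := continuousOn_const.mul hΨ
  set S : Set (E n) := {x | dist (F' x) y ≤ η ∧ ∃ i, Ψ' x ∈ R i} with hS
  have hSeq : S = {x | dist (F' x) y ≤ η} ∩ Ψ' ⁻¹' {z : ℂ | (z ^ (2 * p)).im = 0 ∧
      0 ≤ (z ^ (2 * p)).re} := by
    ext x
    simp only [hS, mem_ofPred_eq, mem_inter_iff, mem_preimage, hsec.rays]
    constructor
    · rintro ⟨h1, -, h2, h3⟩
      exact ⟨h1, h2, h3.le⟩
    · rintro ⟨h1, h2, h3⟩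
      have h4 : Ψ' x ≠ 0 := mul_ne_zero hc0 (hΨ0 x h1)
      refine ⟨h1, h4, h2, lt_of_le_of_ne h3 fun h5 => ?_⟩
      exact pow_ne_zero (2 * p) h4 (Complex.ext h5.symm h2)
  have hScl : IsCompact S := by
    rw [hSeq]
    have hcl : IsClosed {x : E n | dist (F' x) y ≤ η} :=
      isClosed_le (hF'1.1.dist continuous_const) continuous_const
    have hsub : {x : E n | dist (F' x) y ≤ η} ⊆ closedBall 0 2 := fun x hx => by
      have := hbd x hx
      simp only [mem_closedBall, dist_zero_right]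
      linarith
    refine (isCompact_closedBall (0 : E n) 2).of_isClosed_subset ?_
      (inter_subset_left.trans hsub)
    refine (hΨ'c.mono hsub).preimage_isClosed_of_isClosed hcl ?_
    exact (isClosed_eq (Complex.continuous_im.comp (continuous_pow _)) continuous_const).inter
      (isClosed_le continuous_const (Complex.continuous_re.comp (continuous_pow _)))
  have hSint : interior S = ∅ := by
    rw [← subset_empty_iff, ← hc2]
    refine interior_mono ?_
    rintro x ⟨h1, h2⟩
    rw [hsec.rays] at h2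
    exact ⟨hΨ0 x h1, h2.2⟩
  obtain ⟨f, hf1, hf2, hf3⟩ := hM n hn F' hF'1 y S hScl hSint (η / 4) (by positivity)
  have hyp : Hyp C R ω F' f τ Ψ' y η :=
    { sec := hsec
      hp := hp2
      hF := hF'1
      hf := hf1
      hτ := hτ1
      hη := hηp
      bd := hbd
      hΨ := hΨ'c
      hΨ0 := fun x hx => mul_ne_zero hc0 (hΨ0 x hx)
      near := hf2
      τF := hF'l
      τd := hτ2
      τmul := by
        intro l x hx
        have h1 : τ 1 x = T g x := by
          rw [hτ3 1 x (hn3 x (by linarith)), pow_one]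
        have h2 : ‖T g x‖ ≤ ‖x‖ + 1 / 4 := norm_T_le hT g (hBB x (by linarith))
        rw [h1, hτ3 l _ (hn3 _ (by linarith)), hτ3 (l + 1) x (hn3 x (by linarith)), pow_succ,
          hT.mul (g ^ l) g x (hBB x (by linarith)) (hBB _ (by linarith))]
      τΨ := by
        intro l x hx
        show c * Ψ (τ l x) = zt p ^ l * (c * Ψ x)
        rw [hΨl l x hx]
        ring
      miss := fun x hx hi => hf3 x ⟨hx, hi⟩ }
  obtain ⟨deg, hdeg⟩ := hD n hn
  have : NeZero (2 * p) := ⟨by omega⟩
  have hne1 : ∀ i : ZMod (2 * p), i + 1 ≠ i := by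
    intro i hi
    have h1 : (1 : ZMod (2 * p)) = 0 := by
      have h2 := congrArg (fun z => z - i) hi
      simpa using h2
    have h3 : ((1 : ℕ) : ZMod (2 * p)) = 0 := by simpa using h1
    rw [ZMod.natCast_eq_zero_iff] at h3
    have := Nat.le_of_dvd one_pos h3
    omega
  let st : ZMod (2 * p) → ℕ → ℕ → ZMod (2 * p) → ℕ := fun i a b j => if j = i then a else b
  let D : ZMod (2 * p) → ℕ → ℕ → ℤ := fun i a b =>
    deg (mix ω F' f τ Ψ' y η (st i a b)) (W C F' Ψ' y η i) y
  -- closeness of high powers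
  obtain ⟨L, hL1, hL⟩ : ∃ L : ℕ, 1 ≤ L ∧ ∀ x ∈ S, dist (f (τ (p ^ L) x)) (f (τ 0 x)) <
      dist (f x) y := by
    have hτ0 : ∀ x ∈ S, τ 0 x = x := by
      intro x hx
      have h1 := hbd x hx.1
      rw [hτ3 0 x (hn3 x (by linarith)), pow_zero, hT.one x (hBB x (by linarith))]
    rcases S.eq_empty_or_nonempty with he | hne
    · refine ⟨1, le_rfl, fun x hx => ?_⟩
      rw [he] at hx
      exact absurd hx (notMem_empty x)
    obtain ⟨x0, hx0, hmin⟩ := hScl.exists_isMinOn hne
      (hf1.1.dist (continuous_const (y := y))).continuousOn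
    have hpos : 0 < dist (f x0) y := dist_pos.2 (hf3 x0 hx0)
    have huc : UniformContinuousOn f (closedBall (0 : E n) 2) :=
      (isCompact_closedBall _ _).uniformContinuousOn_of_continuous hf1.1.continuousOn
    obtain ⟨δ, hδ, hδ'⟩ := Metric.uniformContinuousOn_iff.1 huc _ hpos
    have hg1 : Tendsto (fun j : ℕ => g ^ p ^ (j + 1)) atTop (𝓝 1) :=
      (tendsto_add_atTop_iff_nat 1).2 hg
    obtain ⟨J, hJ⟩ := unif hT (fun j => g ^ p ^ (j + 1)) hg1 δ hδ
    refine ⟨J + 1, by omega, fun x hx => ?_⟩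
    have h1 := hbd x hx.1
    have h2 := hJ x (hBB x (by linarith))
    have h3 := hTn (p ^ (J + 1)) x (by linarith)
    rw [hτ0 x hx, hτ3 _ x (hn3 x (by linarith))]
    refine lt_of_lt_of_le (hδ' _ ?_ _ ?_ h2) (hmin hx)
    · simp only [mem_closedBall, dist_zero_right]
      linarith
    · simp only [mem_closedBall, dist_zero_right]
      linarith
  refine hB p hp2 D ?_ ?_ L hL1 ?_
  · intro inst σ
    have hinst : inst = ZMod.fintype (2 * p) := Subsingleton.elim _ _
    subst hinst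
    rw [← deg_tot hyp hdeg σ]
    refine Finset.sum_congr rfl fun i _ => ?_
    show deg (mix ω F' f τ Ψ' y η (st i (σ i) (σ (i + 1)))) (W C F' Ψ' y η i) y = _
    refine deg_congr hyp hdeg _ _ i ?_ ?_
    · show (if i = i then σ i else σ (i + 1)) = σ i
      rw [if_pos rfl]
    · show (if i + 1 = i then σ i else σ (i + 1)) = σ (i + 1)
      rw [if_neg (hne1 i)]
  · intro i a b
    show deg (mix ω F' f τ Ψ' y η (st (i + 2) a b)) (W C F' Ψ' y η (i + 2)) y =
      deg (mix ω F' f τ Ψ' y η (st i (a + 1) (b + 1))) (W C F' Ψ' y η i) y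
    rw [deg_rot hyp hdeg]
    congr 2
    funext j
    show (if j + 2 = i + 2 then a else b) + 1 = if j = i then a + 1 else b + 1
    by_cases hj : j = i
    · rw [if_pos (by rw [hj]), if_pos hj]
    · rw [if_neg (fun h => hj (add_right_cancel h)), if_neg hj]
  · intro b
    show deg (mix ω F' f τ Ψ' y η (st 0 (p ^ L) b)) (W C F' Ψ' y η 0) y =
      deg (mix ω F' f τ Ψ' y η (st 0 0 b)) (W C F' Ψ' y η 0) y
    symm
    refine deg_hom hyp hdeg _ _ 0 ?_ ?_
    · intro x hx hi t ht he
      have h1 : st 0 0 b 0 = 0 := if_pos rfl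
      have h2 : st 0 (p ^ L) b 0 = p ^ L := if_pos rfl
      rw [h1, h2] at he
      have hxS : x ∈ S := ⟨hx, _, hi⟩
      have h3 := hL x hxS
      have hx2 := hbd x hx
      have hτ0 : τ 0 x = x := by
        rw [hτ3 0 x (hn3 x (by linarith)), pow_zero, hT.one x (hBB x (by linarith))]
      rw [hτ0] at he h3
      have h4 : dist (f x) y ≤ dist (f (τ (p ^ L) x)) (f x) := by
        rw [← he, dist_eq_norm, dist_eq_norm]
        have h5 : f x - (f x + t • (f (τ (p ^ L) x) - f x)) =
            -(t • (f (τ (p ^ L) x) - f x)) := by abel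
        rw [h5, norm_neg, norm_smul, Real.norm_of_nonneg ht.1]
        exact mul_le_of_le_one_left (norm_nonneg _) ht.2
      linarith
    · intro x hx hi t _
      have h1 : st 0 0 b (0 + 1) = b := if_neg (hne1 0)
      have h2 : st 0 (p ^ L) b (0 + 1) = b := if_neg (hne1 0)
      rw [h1, h2, sub_self, smul_zero, add_zero]
      exact miss_tau hyp b hx hi

end Pool.Agent.N512.CC.Circ
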