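import Pool.Agent.N512.CC.Stm

/-!
# Project CC: the combinatorial part
-/

set_option autoImplicit false

namespace Pool.Agent.N512.CC

namespace Comb

variable {p : ℕ}

/-- changing one entry -/
theorem key (hp : 2 ≤ p) (D : ZMod (2 * p) → ℕ → ℕ → ℤ) [Fintype (ZMod (2 * p))]
    (h1 : ∀ σ : ZMod (2 * p) → ℕ, ∑ i, D i (σ i) (σ (i + 1)) = 1)
    (j : ZMod (2 * p)) (a a' v w : ℕ) :
    D (j + 1) a' v - D (j + 1) a v = D j w a - D j w a' := by
  classical
  have hne : NeZero (2 * p) := ⟨by omega⟩
  have h01 : (1 : ZMod (2 * p)) ≠ 0 := by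
    intro h
    have h2 : ((1 : ℕ) : ZMod (2 * p)) = 0 := by simpa using h
    rw [ZMod.natCast_eq_zero_iff] at h2
    have := Nat.le_of_dvd one_pos h2
    omega
  have h02 : (2 : ZMod (2 * p)) ≠ 0 := by
    intro h
    have h2 : ((2 : ℕ) : ZMod (2 * p)) = 0 := by simpa using h
    rw [ZMod.natCast_eq_zero_iff] at h2
    have := Nat.le_of_dvd two_pos h2
    omega
  have e1 : j + 1 ≠ j := by simpa using h01
  have e2 : j + 2 ≠ j := by simpa using h02
  have e3 : j + 2 ≠ j + 1 := by
    intro h
    apply h01
    have : j + 2 - (j + 1) = 0 := by rw [h, sub_self]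
    rw [← this]
    ring
  let σ : ℕ → ZMod (2 * p) → ℕ := fun x i => if i = j then w else if i = j + 1 then x else v
  have hs : ∀ x, D j w x + D (j + 1) x v +
      ∑ i ∈ (Finset.univ.erase j).erase (j + 1), D i (σ 0 i) (σ 0 (i + 1)) = 1 := by
    intro x
    rw [← h1 (σ x)]
    rw [← Finset.add_sum_erase _ _ (Finset.mem_univ j),
      ← Finset.add_sum_erase (Finset.univ.erase j) _
        (Finset.mem_erase.2 ⟨e1, Finset.mem_univ (j + 1)⟩)]
    have f1 : σ x j = w := by simp [σ]
    have f2 : σ x (j + 1) = x := by simp [σ, h01]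
    have f3 : σ x (j + 1 + 1) = v := by
      have : j + 1 + 1 = j + 2 := by ring
      rw [this]
      simp only [σ]
      rw [if_neg e2, if_neg e3]
    rw [f1, f2, f3, ← add_assoc]
    congr 1
    refine Finset.sum_congr rfl fun i hi => ?_
    have hi1 : i ≠ j + 1 := (Finset.mem_erase.1 hi).1
    have hi2 : i ≠ j := (Finset.mem_erase.1 (Finset.mem_erase.1 hi).2).1
    have g1 : ∀ y, σ y i = v := by
      intro y
      simp only [σ]
      rw [if_neg hi2, if_neg hi1]
    have g2 : ∀ y, σ y (i + 1) = σ 0 (i + 1) := by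
      intro y
      simp only [σ]
      have : i + 1 ≠ j + 1 := fun h => hi2 (add_right_cancel h)
      by_cases h5 : i + 1 = j
      · rw [if_pos h5, if_pos h5]
      · rw [if_neg h5, if_neg h5, if_neg this, if_neg this]
    rw [g1 0, g1 x, g2 x]
  have ha := hs a
  have ha' := hs a'
  linarith

theorem main : S_COMB := by
  classical
  intro p hp D h1' h2 L hL h3
  have hne : NeZero (2 * p) := ⟨by omega⟩
  have h1 := fun σ : ZMod (2 * p) → ℕ => h1' σ
  have hk := key hp D h1
  -- the function alpha
  set α : ZMod (2 * p) → ℕ → ℕ → ℤ := fun j a a' => D j a' 0 - D j a 0 with hα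
  have hA : ∀ j a a' v, D j a' v - D j a v = α j a a' := by
    intro j a a' v
    have e : j - 1 + 1 = j := by ring
    have f1 := hk (j - 1) a a' v 0
    have f2 := hk (j - 1) a a' 0 0
    rw [e] at f1 f2
    simp only [hα]
    linarith
  have hB : ∀ j u v v', D j u v' - D j u v = - α (j + 1) v v' := by
    intro j u v v'
    have f1 := hk j v v' 0 u
    simp only [hα]
    linarith
  have hα2 : ∀ j a a', α (j + 2) a a' = α j (a + 1) (a' + 1) := by
    intro j a a'
    rw [← hA (j + 2) a a' 0, ← hA j (a + 1) (a' + 1) 1, h2, h2]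
  have hαadd : ∀ j a b c, α j a b + α j b c = α j a c := by
    intro j a b c
    simp only [hα]
    ring
  -- the numbers c
  set c : ℕ → ℤ := fun i => D 0 i i + D 1 i i with hc
  have hcstep : ∀ i, c (i + 1) + α 0 (i + 1) (i + 2) = c i + α 0 i (i + 1) := by
    intro i
    have f1 := hA 0 i (i + 1) (i + 1)
    have f2 := hB 0 i i (i + 1)
    have f3 := hA 1 i (i + 1) (i + 1)
    have f4 := hB 1 i i (i + 1)
    have f5 := hα2 0 i (i + 1)
    have e1 : (0 : ZMod (2 * p)) + 1 = 1 := by ring
    have e2 : (1 : ZMod (2 * p)) + 1 = 0 + 2 := by ring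
    rw [e1] at f2
    rw [e2] at f4
    simp only [hc]
    linarith
  have hcc : ∀ i, c i + α 0 i (i + 1) = c 0 + α 0 0 1 := by
    intro i
    induction i with
    | zero => rfl
    | succ i ih => rw [← ih]; exact hcstep i
  have htel : ∀ n : ℕ, ∑ i ∈ Finset.range n, c i = n * (c 0 + α 0 0 1) - α 0 0 n := by
    intro n
    induction n with
    | zero => simp [hα]
    | succ n ih =>
      rw [Finset.sum_range_succ, ih]
      have f1 := hcc n
      have f2 := hαadd 0 0 n (n + 1)
      push_cast
      linarith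
  -- iterating
  have hD2 : ∀ (n : ℕ) (i : ZMod (2 * p)) a b, D (i + 2 * n) a b = D i (a + n) (b + n) := by
    intro n
    induction n with
    | zero => intro i a b; simp
    | succ n ih =>
      intro i a b
      have e : i + 2 * ((n + 1 : ℕ) : ZMod (2 * p)) = (i + 2 * n) + 2 := by
        push_cast
        ring
      rw [e, h2, ih]
      congr 1 <;> ring
  have hsum : ∑ i ∈ Finset.range p, c i = 1 := by
    have f1 := h1 fun _ => 0
    have f2 : ∑ i : ZMod (2 * p), D i 0 0 = ∑ n ∈ Finset.range (2 * p), D (n : ZMod (2 * p)) 0 0 := by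
      refine (Finset.sum_nbij' (fun n : ℕ => (n : ZMod (2 * p))) (fun i => i.val) ?_ ?_ ?_ ?_ ?_).symm
      · intro n _
        exact Finset.mem_univ _
      · intro i _
        exact Finset.mem_range.2 (ZMod.val_lt i)
      · intro n hn
        exact ZMod.val_cast_of_lt (Finset.mem_range.1 hn)
      · intro i _
        exact ZMod.natCast_zmod_val i
      · intro n _
        rfl
    have f3 : ∀ m : ℕ, ∑ n ∈ Finset.range (2 * m), D (n : ZMod (2 * p)) 0 0 =
        ∑ i ∈ Finset.range m, c i := by
      intro m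
      induction m with
      | zero => simp
      | succ m ih =>
        have e : 2 * (m + 1) = 2 * m + 1 + 1 := by ring
        rw [e, Finset.sum_range_succ, Finset.sum_range_succ, ih, Finset.sum_range_succ, add_assoc]
        congr 1
        simp only [hc]
        have g1 := hD2 m 0 0 0
        have g2 := hD2 m 1 0 0
        rw [zero_add] at g1
        simp only [zero_add] at g1 g2
        have e1 : ((2 * m : ℕ) : ZMod (2 * p)) = 2 * m := by push_cast; ring
        have e2 : ((2 * m + 1 : ℕ) : ZMod (2 * p)) = 1 + 2 * m := by push_cast; ring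
        rw [e1, e2, g1, g2]
    rw [← f3, ← f2]
    exact f1
  have hper : ∀ a a', α 0 (a + p) (a' + p) = α 0 a a' := by
    intro a a'
    have f1 := hD2 p 0 a 0
    have f2 := hD2 p 0 a' 0
    have e : (2 : ZMod (2 * p)) * p = 0 := by
      have := ZMod.natCast_self (2 * p)
      push_cast at this
      exact this
    rw [e, add_zero] at f1 f2
    rw [← hA 0 (a + p) (a' + p) (0 + p), ← hA 0 a a' 0, f1, f2]
  have hmul : ∀ m : ℕ, α 0 0 (m * p) = m * α 0 0 p := by
    intro m
    induction m with
    | zero => simp [hα]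
    | succ m ih =>
      have f1 := hαadd 0 0 (m * p) ((m + 1) * p)
      have f2 : α 0 (m * p) ((m + 1) * p) = α 0 0 p := by
        clear ih f1
        induction m with
        | zero => simp
        | succ m ih2 =>
          have e1 : (m + 1) * p = m * p + p := by ring
          have e2 : (m + 1 + 1) * p = (m + 1) * p + p := by ring
          rw [e2]
          conv_lhs => rw [e1]
          have e3 : m * p + p + p = (m + 1) * p + p := by ring
          rw [e3, hper, ih2]
      rw [← f1, ih, f2]
      push_cast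
      ring
  have h0 : α 0 0 (p ^ L) = 0 := by
    simp only [hα]
    rw [h3 0, sub_self]
  have hp0 : α 0 0 p = 0 := by
    obtain ⟨k, rfl⟩ : ∃ k, L = k + 1 := ⟨L - 1, by omega⟩
    rw [pow_succ, hmul] at h0
    rcases mul_eq_zero.1 h0 with h | h
    · have : (p ^ k : ℕ) = 0 := by exact_mod_cast h
      have := pow_pos (by omega : 0 < p) k
      omega
    · exact h
  have hfin := htel p
  rw [hsum, hp0, sub_zero] at hfin
  have hdvd : (p : ℤ) ∣ 1 := ⟨_, hfin⟩
  have := Int.le_of_dvd one_pos hdvd
  omega

end Comb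

/-- `S_COMB` -/
theorem t_COMB : S_COMB := Comb.main

end Pool.Agent.N512.CC
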