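import Pool.Agent.N512.CC.Stm

/-!
# Project CC (helper512): sectors of the complex plane (helper711)
-/

set_option autoImplicit false
set_option linter.dupNamespace false

open Set Complex

namespace Pool.Agent.N512.CC.Cone

open Pool.Agent.N512.CC Pool.Agent.Y485.HS

theorem polar (w : ℂ) (x : ℝ) :
    w * exp (x * I) = ((‖w‖ : ℝ) : ℂ) * (cos ((arg w + x : ℝ) : ℂ) +
      sin ((arg w + x : ℝ) : ℂ) * I) := by
  rw [← exp_mul_I]
  conv_lhs => rw [← norm_mul_exp_arg_mul_I w]
  rw [mul_assoc, ← exp_add]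
  congr 2
  push_cast
  ring

theorem form (r a : ℝ) : ((r : ℂ) * (cos (a : ℂ) + sin (a : ℂ) * I)).re = r * Real.cos a ∧
    ((r : ℂ) * (cos (a : ℂ) + sin (a : ℂ) * I)).im = r * Real.sin a := by
  rw [← ofReal_cos, ← ofReal_sin]
  constructor
  · rw [re_ofReal_mul, add_re, ofReal_re, mul_I_re, ofReal_im, neg_zero, add_zero]
  · rw [im_ofReal_mul, add_im, ofReal_im, mul_I_im, ofReal_re, zero_add]

theorem arg_rot {w : ℂ} (hw : w ≠ 0) {x : ℝ} (h : arg w + x ∈ Ioc (-Real.pi) Real.pi) :
    arg (w * exp (x * I)) = arg w + x := by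
  rw [polar]
  exact arg_mul_cos_add_sin_mul_I (norm_pos_iff.2 hw) h

theorem arg_rot_sub {w : ℂ} (hw : w ≠ 0) {x : ℝ}
    (h : arg w + x - 2 * Real.pi ∈ Ioc (-Real.pi) Real.pi) :
    arg (w * exp (x * I)) = arg w + x - 2 * Real.pi := by
  have e : exp (x * I) = exp (((x - 2 * Real.pi : ℝ) : ℂ) * I) := by
    push_cast
    rw [sub_mul, exp_sub, exp_two_pi_mul_I, div_one]
  rw [e, arg_rot hw]
  · ring
  · rw [← add_sub_assoc]
    exact h

section

variable {p : ℕ} [NeZero (2 * p)]

theorem p_pos : 0 < p := by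
  have := NeZero.ne (2 * p)
  omega

theorem chi_val (d : ZMod (2 * p)) :
    ZMod.stdAddChar d = exp (((d.val * (Real.pi / p) : ℝ) : ℂ) * I) := by
  have h := ZMod.stdAddChar_coe (N := 2 * p) (d.val : ℤ)
  have h1 : (((d.val : ℤ)) : ZMod (2 * p)) = d := by
    rw [Int.cast_natCast, ZMod.natCast_zmod_val]
  rw [h1] at h
  rw [h]
  have hp : (p : ℂ) ≠ 0 := by exact_mod_cast (p_pos (p := p)).ne'
  congr 1
  push_cast
  field_simp

/-- the rotation which moves the ray `j` to the positive real axis -/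
noncomputable def W (j : ZMod (2 * p)) (z : ℂ) : ℂ := z * ZMod.stdAddChar (-j)

theorem W_shift (i j : ZMod (2 * p)) (z : ℂ) :
    W j z = W i z * exp ((((i - j).val * (Real.pi / p) : ℝ) : ℂ) * I) := by
  unfold W
  rw [← chi_val, mul_assoc, ← AddChar.map_add_eq_mul]
  congr 2
  ring

theorem chi_ne (d : ZMod (2 * p)) : (ZMod.stdAddChar d : ℂ) ≠ 0 := by
  rw [chi_val]
  exact exp_ne_zero _

theorem W_ne {j : ZMod (2 * p)} {z : ℂ} (hz : z ≠ 0) : W j z ≠ 0 := mul_ne_zero hz (chi_ne _)

/-- the sectors -/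
def CC (j : ZMod (2 * p)) : Set ℂ := {z | 0 < arg (W j z) ∧ arg (W j z) < Real.pi / p}

/-- the rays -/
def RR (j : ZMod (2 * p)) : Set ℂ := {z | z ≠ 0 ∧ arg (W j z) = 0}

/-- the partition of unity -/
noncomputable def om (j : ZMod (2 * p)) (z : ℂ) : ℝ := max 0 (1 - |arg (W j z)| / (Real.pi / p))

theorem th_pos : 0 < Real.pi / p := by
  have h : (0 : ℝ) < p := by exact_mod_cast (p_pos (p := p))
  exact div_pos Real.pi_pos h

theorem val_le (d : ZMod (2 * p)) (hd : d ≠ -1) : d.val + 2 ≤ 2 * p := by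
  have h1 := ZMod.val_lt d
  have h2 : d.val ≠ 2 * p - 1 := by
    intro h
    apply hd
    have h3 : d = ((2 * p - 1 : ℕ) : ZMod (2 * p)) := by
      rw [← h, ZMod.natCast_zmod_val]
    have hp := p_pos (p := p)
    rw [h3, Nat.cast_sub (by omega), Nat.cast_one, ZMod.natCast_self, zero_sub]
  omega

/-- the ray `i` and the sector `i`, seen from the other rays -/
theorem far {i j : ZMod (2 * p)} {z : ℂ} (hz : z ≠ 0) (h0 : 0 ≤ arg (W i z))
    (h1 : arg (W i z) < Real.pi / p) (hij : j ≠ i) (hij1 : j ≠ i + 1) :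
    Real.pi / p ≤ |arg (W j z)| := by
  have hp : (0 : ℝ) < p := by exact_mod_cast (p_pos (p := p))
  have hth := th_pos (p := p)
  have hd0 : i - j ≠ 0 := sub_ne_zero.2 (Ne.symm hij)
  have hd1 : i - j ≠ -1 := by
    intro h
    apply hij1
    linear_combination -h
  have hv1 : 1 ≤ (i - j).val := by
    rcases Nat.eq_zero_or_pos (i - j).val with h | h
    · exact absurd ((ZMod.val_eq_zero _).1 h) hd0
    · exact h
  have hv2 := val_le (i - j) hd1
  have hv1' : (1 : ℝ) ≤ ((i - j).val : ℝ) := by exact_mod_cast hv1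
  have hv2' : ((i - j).val : ℝ) + 2 ≤ 2 * p := by exact_mod_cast hv2
  have e1 : (p : ℝ) * (Real.pi / p) = Real.pi := by field_simp
  have a1 : Real.pi / p ≤ (i - j).val * (Real.pi / p) := by nlinarith
  have a2 : (i - j).val * (Real.pi / p) + 2 * (Real.pi / p) ≤ 2 * Real.pi := by nlinarith
  have hW := W_ne (j := i) hz
  rw [W_shift i j]
  by_cases hc : arg (W i z) + (i - j).val * (Real.pi / p) ≤ Real.pi
  · rw [arg_rot hW ⟨by linarith [Real.pi_pos], hc⟩]
    exact (by linarith : Real.pi / p ≤ arg (W i z) + (i - j).val * (Real.pi / p)).trans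
      (le_abs_self _)
  · push Not at hc
    rw [arg_rot_sub hW ⟨by linarith, by linarith⟩]
    have h2 := neg_abs_le (arg (W i z) + (i - j).val * (Real.pi / p) - 2 * Real.pi)
    have h3 := neg_le_abs (arg (W i z) + (i - j).val * (Real.pi / p) - 2 * Real.pi)
    linarith

omit [NeZero (2 * p)] in
theorem th_le (h2 : 2 ≤ p) : Real.pi / p ≤ Real.pi / 2 := by
  have h : (2 : ℝ) ≤ p := by exact_mod_cast h2
  exact div_le_div_of_nonneg_left Real.pi_pos.le (by norm_num) h

theorem near (hp2 : 2 ≤ p) {i : ZMod (2 * p)} {z : ℂ} (hz : z ≠ 0) (h0 : 0 ≤ arg (W i z))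
    (h1 : arg (W i z) < Real.pi / p) : arg (W (i + 1) z) = arg (W i z) - Real.pi / p := by
  have hp : (0 : ℝ) < p := by exact_mod_cast (p_pos (p := p))
  have hp1 : (1 : ℝ) ≤ p := by exact_mod_cast (p_pos (p := p))
  have hth := th_pos (p := p)
  have e1 : (p : ℝ) * (Real.pi / p) = Real.pi := by field_simp
  have e2 : Real.pi / p ≤ Real.pi := div_le_self Real.pi_pos.le hp1
  have h2 : i - (i + 1) = (-1 : ZMod (2 * p)) := by ring
  have h3 : ((-1 : ZMod (2 * p)).val : ℝ) = 2 * p - 1 := by
    have h4 : (-1 : ZMod (2 * p)) = ((2 * p - 1 : ℕ) : ZMod (2 * p)) := by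
      rw [Nat.cast_sub (by have := p_pos (p := p); omega), Nat.cast_one, ZMod.natCast_self,
        zero_sub]
    have hpp := p_pos (p := p)
    rw [h4, ZMod.val_natCast_of_lt (by omega), Nat.cast_sub (by omega)]
    push_cast
    ring
  rw [W_shift i (i + 1), h2, h3]
  have e3 : arg (W i z) + (2 * p - 1) * (Real.pi / p) - 2 * Real.pi =
      arg (W i z) - Real.pi / p := by linear_combination 2 * e1
  rw [arg_rot_sub (W_ne hz), e3]
  rw [e3]
  have h4 := th_le (p := p) hp2
  constructor
  · linarith [Real.pi_pos]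
  · linarith [Real.pi_pos]

/-- every nonzero number lies in a sector or on its first ray -/
theorem cov (hp2 : 2 ≤ p) {z : ℂ} (hz : z ≠ 0) : ∃ i : ZMod (2 * p), 0 ≤ arg (W i z) ∧
    arg (W i z) < Real.pi / p := by
  have hth := th_pos (p := p)
  have h4 := th_le (p := p) hp2
  set k : ℤ := ⌊arg z / (Real.pi / p)⌋ with hk
  have h1 : (k : ℝ) * (Real.pi / p) ≤ arg z := by
    rw [← le_div_iff₀ hth]
    exact Int.floor_le _
  have h2 : arg z < (k : ℝ) * (Real.pi / p) + Real.pi / p := by
    have := Int.lt_floor_add_one (arg z / (Real.pi / p))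
    rw [← hk, div_lt_iff₀ hth] at this
    linarith
  refine ⟨(k : ZMod (2 * p)), ?_⟩
  have hW : W (k : ZMod (2 * p)) z = z * exp (((-(k * (Real.pi / p)) : ℝ) : ℂ) * I) := by
    unfold W
    rw [← Int.cast_neg, ZMod.stdAddChar_coe]
    congr 2
    have hp : (p : ℂ) ≠ 0 := by exact_mod_cast (p_pos (p := p)).ne'
    push_cast
    field_simp
  rw [hW, arg_rot hz ⟨by linarith [Real.pi_pos], by linarith [Real.pi_pos]⟩]
  constructor
  · linarith
  · linarith

/-- equations of the sectors -/
theorem mem_CC (hp2 : 2 ≤ p) {i : ZMod (2 * p)} {z : ℂ} : z ∈ CC i ↔ 0 < (W i z).im ∧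
    (W i z * exp (((-(Real.pi / p) : ℝ) : ℂ) * I)).im < 0 ∧ 0 < (W i z).re := by
  have hth := th_pos (p := p)
  have h4 := th_le (p := p) hp2
  have hpi := Real.pi_pos
  have him : ∀ w : ℂ, w.im = ‖w‖ * Real.sin (arg w) := fun w => (norm_mul_sin_arg w).symm
  have hre : ∀ w : ℂ, w.re = ‖w‖ * Real.cos (arg w) := fun w => (norm_mul_cos_arg w).symm
  have him2 : ∀ w : ℂ, (w * exp (((-(Real.pi / p) : ℝ) : ℂ) * I)).im =
      ‖w‖ * Real.sin (arg w - Real.pi / p) := by
    intro w
    rw [polar, (form _ _).2, ← sub_eq_add_neg]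
  constructor
  · rintro ⟨h1, h2⟩
    have h0 : W i z ≠ 0 := by
      intro h
      rw [h, arg_zero] at h1
      exact lt_irrefl _ h1
    have hn := norm_pos_iff.2 h0
    refine ⟨?_, ?_, ?_⟩
    · rw [him]
      exact mul_pos hn (Real.sin_pos_of_pos_of_lt_pi h1 (by linarith))
    · rw [him2]
      exact mul_neg_of_pos_of_neg hn (Real.sin_neg_of_neg_of_neg_pi_lt (by linarith)
        (by linarith))
    · rw [hre]
      exact mul_pos hn (Real.cos_pos_of_mem_Ioo ⟨by linarith, by linarith⟩)
  · rintro ⟨h1, h2, h3⟩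
    have h0 : W i z ≠ 0 := by
      intro h
      rw [h] at h1
      simp at h1
    have hn := norm_pos_iff.2 h0
    have h5 : 0 < arg (W i z) := by
      have h6 : 0 ≤ arg (W i z) := arg_nonneg_iff.2 h1.le
      rcases h6.eq_or_lt with h7 | h7
      · rw [him, ← h7, Real.sin_zero, mul_zero] at h1
        exact absurd h1 (lt_irrefl _)
      · exact h7
    have h6 : arg (W i z) < Real.pi / 2 := by
      have := abs_arg_lt_pi_div_two_iff.2 (Or.inl h3)
      exact (abs_lt.1 this).2
    refine ⟨h5, ?_⟩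
    by_contra hc
    push Not at hc
    rw [him2] at h2
    have h7 : 0 ≤ Real.sin (arg (W i z) - Real.pi / p) :=
      Real.sin_nonneg_of_nonneg_of_le_pi (by linarith) (by linarith)
    have h8 := mul_nonneg hn.le h7
    linarith

theorem cont_W (i : ZMod (2 * p)) : Continuous (W i) := by
  unfold W
  fun_prop

theorem rot_W (i : ZMod (2 * p)) (z : ℂ) :
    W (i + 2) (exp (2 * Real.pi * I / p) * z) = W i z := by
  unfold W
  have h1 : exp (2 * Real.pi * I / p) = (ZMod.stdAddChar (2 : ZMod (2 * p)) : ℂ) := by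
    have h2 := ZMod.stdAddChar_coe (N := 2 * p) 2
    have h3 : (((2 : ℤ)) : ZMod (2 * p)) = 2 := by norm_cast
    rw [h3] at h2
    rw [h2]
    have hp : (p : ℂ) ≠ 0 := by exact_mod_cast (p_pos (p := p)).ne'
    congr 1
    push_cast
    field_simp
  rw [h1, mul_comm _ z, mul_assoc, ← AddChar.map_add_eq_mul]
  congr 2
  ring

theorem abs_arg_eq {w : ℂ} (hw : w ≠ 0) : |arg w| = Real.arccos (w.re / ‖w‖) := by
  rw [← cos_arg hw, ← Real.cos_abs, Real.arccos_cos (abs_nonneg _) (abs_arg_le_pi w)]

theorem pow_W (i : ZMod (2 * p)) (z : ℂ) : W i z ^ (2 * p) = z ^ (2 * p) := by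
  unfold W
  rw [mul_pow, ← AddChar.map_nsmul_eq_pow]
  have h : (2 * p) • (-i) = 0 := by
    rw [nsmul_eq_mul, ZMod.natCast_self, zero_mul]
  rw [h, AddChar.map_zero_eq_one, mul_one]

theorem pow_polar (w : ℂ) (n : ℕ) : (w ^ n).re = ‖w‖ ^ n * Real.cos (n * arg w) ∧
    (w ^ n).im = ‖w‖ ^ n * Real.sin (n * arg w) := by
  have h : w ^ n = ((‖w‖ ^ n : ℝ) : ℂ) * (cos ((n * arg w : ℝ) : ℂ) +
      sin ((n * arg w : ℝ) : ℂ) * I) := by
    conv_lhs => rw [← norm_mul_exp_arg_mul_I w]
    rw [mul_pow, ← exp_nat_mul, ← exp_mul_I]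
    push_cast
    congr 2
    ring
  rw [h]
  exact form _ _

end

/-- **the sectors exist** -/
theorem t_CONE : S_CONE := by
  intro p hp2
  have hne : NeZero (2 * p) := ⟨by omega⟩
  have hth := th_pos (p := p)
  have hle := th_le (p := p) hp2
  have hpi := Real.pi_pos
  refine ⟨CC, RR, om, ?_⟩
  have hC0 : ∀ i : ZMod (2 * p), (0 : ℂ) ∉ CC i := by
    rintro i ⟨h, _⟩
    unfold W at h
    rw [zero_mul, arg_zero] at h
    exact lt_irrefl _ h
  refine ⟨?_, ?_, ?_, hC0, ?_, ?_, ?_, ?_, ?_, ?_, ?_, ?_, ?_, ?_, ?_⟩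
  · intro i
    have h1 : CC i = {z | 0 < (W i z).im} ∩
        ({z | (W i z * exp (((-(Real.pi / p) : ℝ) : ℂ) * I)).im < 0} ∩ {z | 0 < (W i z).re}) := by
      ext z
      exact mem_CC hp2
    have hW := cont_W i
    rw [h1]
    refine (isOpen_lt continuous_const (by fun_prop)).inter ((isOpen_lt (by fun_prop)
      continuous_const).inter (isOpen_lt continuous_const (by fun_prop)))
  · intro i j hij
    rw [Set.disjoint_left]
    rintro z ⟨h1, h2⟩ ⟨h3, h4⟩
    have hz : z ≠ 0 := by
      rintro rfl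
      exact hC0 i ⟨h1, h2⟩
    by_cases hj : j = i + 1
    · rw [hj, near hp2 hz h1.le h2] at h3
      linarith
    · have h5 := far hz h1.le h2 (Ne.symm hij) hj
      rw [abs_of_pos h3] at h5
      linarith
  · intro i j
    rw [Set.disjoint_left]
    rintro z ⟨h1, h2⟩ ⟨hz, h3⟩
    by_cases hij : j = i
    · rw [hij] at h3
      linarith
    · by_cases hj : j = i + 1
      · rw [hj, near hp2 hz h1.le h2] at h3
        linarith
      · have h5 := far hz h1.le h2 hij hj
        rw [h3, abs_zero] at h5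
        linarith
  · rintro i ⟨h, _⟩
    exact h rfl
  · intro z hz
    obtain ⟨i, h1, h2⟩ := cov hp2 hz
    rcases h1.eq_or_lt with h3 | h3
    · exact Or.inr ⟨i, hz, h3.symm⟩
    · exact Or.inl ⟨i, h3, h2⟩
  · intro i
    have hW := cont_W i
    have hK : IsClosed ({z | 0 ≤ (W i z).im} ∩
        ({z | (W i z * exp (((-(Real.pi / p) : ℝ) : ℂ) * I)).im ≤ 0} ∩ {z | 0 ≤ (W i z).re})) :=
      (isClosed_le continuous_const (by fun_prop)).inter ((isClosed_le (by fun_prop)
        continuous_const).inter (isClosed_le continuous_const (by fun_prop)))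
    refine (closure_minimal ?_ hK).trans ?_
    · intro z hz
      obtain ⟨h1, h2, h3⟩ := (mem_CC hp2).1 hz
      exact ⟨h1.le, h2.le, h3.le⟩
    · rintro z ⟨h1, h2, h3⟩
      by_cases hz : z = 0
      · exact Or.inr hz
      · left
        have h1' : 0 ≤ (W i z).im := h1
        have h3' : 0 ≤ (W i z).re := h3
        have h2' : (W i z * exp (((-(Real.pi / p) : ℝ) : ℂ) * I)).im ≤ 0 := h2
        have hW0 := W_ne (j := i) hz
        have hn := norm_pos_iff.2 hW0
        have h5 : 0 ≤ arg (W i z) := arg_nonneg_iff.2 h1'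
        have h6 : arg (W i z) ≤ Real.pi / 2 := by
          have := abs_arg_le_pi_div_two_iff.2 h3'
          exact (abs_le.1 this).2
        have h7 : arg (W i z) ≤ Real.pi / p := by
          by_contra hc
          push Not at hc
          rw [polar, (form _ _).2, ← sub_eq_add_neg] at h2'
          have h8 : ‖W i z‖ * Real.sin (arg (W i z) - Real.pi / p) ≤ 0 := h2'
          have h9 : 0 < Real.sin (arg (W i z) - Real.pi / p) :=
            Real.sin_pos_of_pos_of_lt_pi (by linarith) (by linarith)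
          have h10 := mul_pos hn h9
          linarith
        rcases h7.eq_or_lt with h8 | h8
        · -- on the ray `i + 1`
          right
          refine ⟨hz, ?_⟩
          have h9 : W (i + 1) z = W i z * exp (((-(Real.pi / p) : ℝ) : ℂ) * I) := by
            rw [W_shift i (i + 1)]
            congr 1
            have h10 : i - (i + 1) = (-1 : ZMod (2 * p)) := by ring
            rw [h10, ← chi_val]
            have h11 := ZMod.stdAddChar_coe (N := 2 * p) (-1)
            have h12 : (((-1 : ℤ)) : ZMod (2 * p)) = -1 := by norm_cast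
            rw [h12] at h11
            rw [h11]
            have hp : (p : ℂ) ≠ 0 := by exact_mod_cast (p_pos (p := p)).ne'
            congr 1
            push_cast
            field_simp
          rw [h9, arg_rot hW0]
          · rw [h8]; ring
          · rw [h8, add_neg_cancel]
            exact ⟨by linarith, by linarith⟩
        · left
          rcases h5.eq_or_lt with h9 | h9
          · exact Or.inr ⟨hz, h9.symm⟩
          · exact Or.inl ⟨h9, h8⟩
  · intro j z hz
    have hz' : z ≠ 0 := hz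
    have hW0 := W_ne (j := j) hz'
    have h1 : ContinuousAt (fun z => max (0 : ℝ) (1 - Real.arccos ((W j z).re / ‖W j z‖) /
        (Real.pi / p))) z := by
      have hW : ContinuousAt (W j) z := (cont_W j).continuousAt
      have h2 : ContinuousAt (fun z => (W j z).re / ‖W j z‖) z :=
        (continuous_re.continuousAt.comp hW).div (hW.norm) (norm_ne_zero_iff.2 hW0)
      exact continuousAt_const.max (continuousAt_const.sub
        ((Real.continuous_arccos.continuousAt.comp h2).div_const _))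
    refine (h1.congr_of_eventuallyEq ?_).continuousWithinAt
    filter_upwards [isOpen_ne.mem_nhds hz'] with y hy
    unfold om
    rw [abs_arg_eq (W_ne hy)]
  · intro j z
    exact le_max_left _ _
  · intro z hz _
    obtain ⟨i, h1, h2⟩ := cov hp2 hz
    have hne1 : i ≠ i + 1 := by
      intro h
      have h3 : (1 : ZMod (2 * p)) = 0 := by linear_combination -h
      have h4 : (1 : ZMod (2 * p)).val = 0 := by rw [h3, ZMod.val_zero]
      have h5 : (1 : ZMod (2 * p)) = ((1 : ℕ) : ZMod (2 * p)) := by norm_cast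
      rw [h5, ZMod.val_natCast_of_lt (by omega)] at h4
      omega
    have h3 : ∑ j : ZMod (2 * p), om j z = om i z + om (i + 1) z := by
      rw [← Finset.sum_pair (f := fun j : ZMod (2 * p) => om j z) hne1]
      symm
      refine Finset.sum_subset (Finset.subset_univ _) fun j _ hj => ?_
      rw [Finset.mem_insert, Finset.mem_singleton, not_or] at hj
      have h4 := far hz h1 h2 hj.1 hj.2
      unfold om
      refine max_eq_left ?_
      rw [sub_nonpos, le_div_iff₀ hth, one_mul]
      exact h4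
    refine h3.trans ?_
    unfold om
    rw [near hp2 hz h1 h2, abs_of_nonneg h1, abs_of_neg (by linarith), max_eq_right, max_eq_right]
    · field_simp
      ring
    · rw [sub_nonneg, div_le_one hth]
      linarith
    · rw [sub_nonneg, div_le_one hth]
      linarith
  · rintro i z ⟨h1, h2⟩ j hj hj1
    have hz : z ≠ 0 := by
      rintro rfl
      exact hC0 i ⟨h1, h2⟩
    have h4 := far hz h1.le h2 hj hj1
    unfold om
    refine max_eq_left ?_
    rw [sub_nonpos, le_div_iff₀ hth, one_mul]
    exact h4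
  · rintro i z ⟨hz, h1⟩
    unfold om
    rw [h1, abs_zero, zero_div, sub_zero]
    exact max_eq_right zero_le_one
  · intro i z
    unfold CC
    rw [Set.mem_ofPred_eq, Set.mem_ofPred_eq, rot_W]
  · intro j z
    unfold om
    rw [rot_W]
  · intro z
    constructor
    · rintro ⟨i, hz, h1⟩
      have h2 := pow_polar (W i z) (2 * p)
      rw [pow_W, h1, mul_zero, Real.cos_zero, Real.sin_zero, mul_zero, mul_one] at h2
      refine ⟨hz, h2.2, ?_⟩
      rw [h2.1]
      exact pow_pos (norm_pos_iff.2 (W_ne hz)) _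
    · rintro ⟨hz, h1, h2⟩
      obtain ⟨i, h3, h4⟩ := cov hp2 hz
      refine ⟨i, hz, ?_⟩
      by_contra hne2
      have h5 : 0 < arg (W i z) := lt_of_le_of_ne h3 (Ne.symm hne2)
      have h6 := pow_polar (W i z) (2 * p)
      rw [pow_W] at h6
      have hn := pow_pos (norm_pos_iff.2 (W_ne (j := i) hz)) (2 * p)
      have hp0 : (0 : ℝ) < p := by exact_mod_cast (p_pos (p := p))
      have h7 : 0 < ((2 * p : ℕ) : ℝ) * arg (W i z) := by
        push_cast
        positivity
      have h8 : ((2 * p : ℕ) : ℝ) * arg (W i z) < 2 * Real.pi := by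
        push_cast
        rw [lt_div_iff₀ hp0] at h4
        linarith
      have h9 : Real.sin (((2 * p : ℕ) : ℝ) * arg (W i z)) = 0 := by
        rw [h6.2] at h1
        exact (mul_eq_zero.1 h1).resolve_left hn.ne'
      have h10 : ((2 * p : ℕ) : ℝ) * arg (W i z) = Real.pi := by
        rcases lt_trichotomy (((2 * p : ℕ) : ℝ) * arg (W i z)) Real.pi with h | h | h
        · exact absurd h9 (Real.sin_pos_of_pos_of_lt_pi h7 h).ne'
        · exact h
        · have h11 : 0 < Real.sin (((2 * p : ℕ) : ℝ) * arg (W i z) - Real.pi) :=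
            Real.sin_pos_of_pos_of_lt_pi (by linarith) (by linarith)
          rw [Real.sin_sub_pi, h9, neg_zero] at h11
          exact absurd h11 (lt_irrefl _)
      rw [h6.1, h10, Real.cos_pi] at h2
      linarith

/-- **for some rotation the preimage of the rays has no interior points** -/
theorem t_GEN : S_GEN := by
  intro n p hp Ψ
  by_contra hcon
  push Not at hcon
  have hp0 : (0 : ℝ) < p := by exact_mod_cast (by omega : 0 < p)
  set c : ℝ → ℂ := fun t => exp ((t : ℂ) * I) with hc
  have hc1 : ∀ t, ‖c t‖ = 1 := fun t => norm_exp_ofReal_mul_I t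
  set A : ℝ → Set (E n) := fun t => {x : E n | Ψ x ≠ 0 ∧ ((c t * Ψ x) ^ (2 * p)).im = 0 ∧
    0 < ((c t * Ψ x) ^ (2 * p)).re} with hA
  have hdis : (Ioo (0 : ℝ) (Real.pi / p)).PairwiseDisjoint A := by
    intro t ht s hs hts
    show Disjoint (A t) (A s)
    rw [Set.disjoint_left]
    rintro x ⟨h1, h2, h3⟩ ⟨_, h4, h5⟩
    apply hts
    -- the quotient of the two powers is a positive real number of norm one
    have e1 : (c t * Ψ x) ^ (2 * p) = (((c t * Ψ x) ^ (2 * p)).re : ℂ) := by
      apply Complex.ext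
      · simp
      · rw [h2]; simp
    have e2 : (c s * Ψ x) ^ (2 * p) = (((c s * Ψ x) ^ (2 * p)).re : ℂ) := by
      apply Complex.ext
      · simp
      · rw [h4]; simp
    have e3 : ((c t * Ψ x) ^ (2 * p)).re = ((c s * Ψ x) ^ (2 * p)).re := by
      have h6 : ‖(c t * Ψ x) ^ (2 * p)‖ = ‖(c s * Ψ x) ^ (2 * p)‖ := by
        rw [norm_pow, norm_pow, norm_mul, norm_mul, hc1, hc1]
      rw [e1, e2, norm_real, norm_real, Real.norm_of_nonneg h3.le, Real.norm_of_nonneg h5.le] at h6
      exact h6
    have e4 : c t ^ (2 * p) = c s ^ (2 * p) := by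
      have h6 : (c t * Ψ x) ^ (2 * p) = (c s * Ψ x) ^ (2 * p) := by rw [e1, e2, e3]
      rw [mul_pow, mul_pow] at h6
      exact mul_right_cancel₀ (pow_ne_zero _ h1) h6
    have e5 : exp (((2 * p * t : ℝ) : ℂ) * I) = exp (((2 * p * s : ℝ) : ℂ) * I) := by
      rw [hc] at e4
      simp only [← exp_nat_mul] at e4
      have e6 : ∀ t : ℝ, ((2 * p * t : ℝ) : ℂ) * I = ((2 * p : ℕ) : ℂ) * ((t : ℂ) * I) := by
        intro t
        push_cast
        ring
      rw [e6, e6]
      exact e4
    rw [exp_eq_exp_iff_exists_int] at e5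
    obtain ⟨k, hk⟩ := e5
    have h6 : (2 * p * t : ℝ) = 2 * p * s + k * (2 * Real.pi) := by
      have h7 := congrArg Complex.im hk
      simpa using h7
    have ht2 : 2 * p * t < 2 * Real.pi := by
      have := (lt_div_iff₀ hp0).1 ht.2
      linarith
    have hs2 : 2 * p * s < 2 * Real.pi := by
      have := (lt_div_iff₀ hp0).1 hs.2
      linarith
    have ht1 : 0 < 2 * p * t := by have := ht.1; positivity
    have hs1 : 0 < 2 * p * s := by have := hs.1; positivity
    have hpi := Real.pi_pos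
    have hk0 : k = 0 := by
      have h8 : (-1 : ℝ) < k := by nlinarith
      have h9 : (k : ℝ) < 1 := by nlinarith
      have h8' : -1 < k := by exact_mod_cast h8
      have h9' : k < 1 := by exact_mod_cast h9
      omega
    rw [hk0] at h6
    have h7 : (2 * p : ℝ) * t = 2 * p * s := by
      rw [h6]; simp
    exact mul_left_cancel₀ (by positivity) h7
  have hcount : (Ioo (0 : ℝ) (Real.pi / p)).Countable := by
    refine hdis.countable_of_nonempty_interior fun t _ => ?_
    have := hcon (c t) (hc1 t)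
    exact this
  rw [Cardinal.Real.Ioo_countable_iff] at hcount
  have : 0 < Real.pi / p := div_pos Real.pi_pos hp0
  linarith

end Pool.Agent.N512.CC.Cone
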