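import Pool.Agent.R775.HS.Fin

/-!
# Project CC (helper512), MP_afaf30_gt: statements

Equivariant complex functions have zeros on the fibres of invariant maps close to the identity
(circle criterion for the Hilbert-Smith conjecture), and the parts of its proof.
`E n` is Euclidean space (`Pool.Agent.Y485.HS.E`).
-/

set_option autoImplicit false

open MeasureTheory Set Metric Filter Topology
open scoped ENNReal NNReal

namespace Pool.Agent.N512.CC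

open Pool.Agent.Y485.HS

/-- continuous maps of Euclidean space which are the identity outside of a ball -/
def Cls {n : ℕ} (f : E n → E n) : Prop := Continuous f ∧ ∃ R : ℝ, ∀ x, R ≤ ‖x‖ → f x = x

/-- `deg f U y` is a degree theory for the maps of the class `Cls` -/
structure IsDeg (n : ℕ) (deg : (E n → E n) → Set (E n) → E n → ℤ) : Prop where
  /-- if `U` contains all preimages of `y` the degree is one -/
  tot : ∀ f, Cls f → ∀ U : Set (E n), IsOpen U → Bornology.IsBounded U → ∀ y,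
    (∀ x, f x = y → x ∈ U) → deg f U y = 1
  /-- additivity (and excision) -/
  add : ∀ f, Cls f → ∀ U : Set (E n), IsOpen U → Bornology.IsBounded U → ∀ (m : ℕ)
    (W : Fin m → Set (E n)), (∀ i, IsOpen (W i)) → (∀ i j, i ≠ j → Disjoint (W i) (W j)) →
    (∀ i, W i ⊆ U) → ∀ y, (∀ x ∈ closure U, f x = y → ∃ i, x ∈ W i) →
    deg f U y = ∑ i, deg f (W i) y
  /-- homotopy invariance for linear homotopies -/
  hom : ∀ f0 f1, Cls f0 → Cls f1 → ∀ U : Set (E n), IsOpen U → Bornology.IsBounded U → ∀ y,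
    (∀ x ∈ frontier U, ∀ t ∈ Icc (0 : ℝ) 1, f0 x + t • (f1 x - f0 x) ≠ y) →
    deg f0 U y = deg f1 U y
  /-- composition with a map of the class (all these maps have degree one) -/
  comp : ∀ f τ, Cls f → Cls τ → ∀ U U' : Set (E n), IsOpen U → Bornology.IsBounded U →
    IsOpen U' → Bornology.IsBounded U' → ∀ y, (∀ x ∈ frontier U, f (τ x) ≠ y) →
    (∀ x ∈ frontier U', f x ≠ y) → (∀ x, f (τ x) = y → (x ∈ U ↔ τ x ∈ U')) →
    deg (fun x => f (τ x)) U y = deg f U' y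

/-- DEG. there is a degree theory -/
def S_DEG : Prop := ∀ n : ℕ, 1 ≤ n → ∃ deg, IsDeg n deg

/-- MISS. a map can be perturbed so that it misses a value on a nowhere dense compact set -/
def S_MISS : Prop := ∀ n : ℕ, 1 ≤ n → ∀ F : E n → E n, Cls F → ∀ (y : E n) (S : Set (E n)),
  IsCompact S → interior S = ∅ → ∀ ε : ℝ, 0 < ε →
    ∃ f : E n → E n, Cls f ∧ (∀ x, dist (f x) (F x) < ε) ∧ ∀ x ∈ S, f x ≠ y

/-- sectors of the complex plane: `C i` is the open sector between the rays `R i` and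
`R (i + 1)`, and the `ω j` are a partition of unity with `ω j = 1` on the ray `R j` and
`ω j = 0` outside of the two sectors next to this ray -/
structure IsSec (p : ℕ) (C R : ZMod (2 * p) → Set ℂ) (ω : ZMod (2 * p) → ℂ → ℝ) : Prop where
  open_C : ∀ i, IsOpen (C i)
  disj : ∀ i j, i ≠ j → Disjoint (C i) (C j)
  disjR : ∀ i j, Disjoint (C i) (R j)
  zeroC : ∀ i, (0 : ℂ) ∉ C i
  zeroR : ∀ i, (0 : ℂ) ∉ R i
  cover : ∀ z : ℂ, z ≠ 0 → (∃ i, z ∈ C i) ∨ ∃ i, z ∈ R i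
  closure_C : ∀ i, closure (C i) ⊆ C i ∪ R i ∪ R (i + 1) ∪ {0}
  cont : ∀ j, ContinuousOn (ω j) {0}ᶜ
  nonneg : ∀ j z, 0 ≤ ω j z
  sum : ∀ z : ℂ, z ≠ 0 → ∀ [Fintype (ZMod (2 * p))], ∑ j, ω j z = 1
  vanish : ∀ i, ∀ z ∈ C i, ∀ j, j ≠ i → j ≠ i + 1 → ω j z = 0
  ray : ∀ i, ∀ z ∈ R i, ω i z = 1
  rotC : ∀ i (z : ℂ), Complex.exp (2 * Real.pi * Complex.I / p) * z ∈ C (i + 2) ↔ z ∈ C i
  rotω : ∀ j (z : ℂ), ω (j + 2) (Complex.exp (2 * Real.pi * Complex.I / p) * z) = ω j z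
  /-- the union of the rays -/
  rays : ∀ z : ℂ, (∃ i, z ∈ R i) ↔ z ≠ 0 ∧ (z ^ (2 * p)).im = 0 ∧ 0 < (z ^ (2 * p)).re

/-- CONE. the sectors exist -/
def S_CONE : Prop := ∀ p : ℕ, 2 ≤ p → ∃ C R ω, IsSec p C R ω

/-- GEN. for some rotation the preimage of the rays has no interior points -/
def S_GEN : Prop := ∀ (n p : ℕ), 2 ≤ p → ∀ Ψ : E n → ℂ, ∃ c : ℂ, ‖c‖ = 1 ∧
  interior {x : E n | Ψ x ≠ 0 ∧ ((c * Ψ x) ^ (2 * p)).im = 0 ∧ 0 < ((c * Ψ x) ^ (2 * p)).re} = ∅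

/-- COMB. the combinatorial part -/
def S_COMB : Prop := ∀ p : ℕ, 2 ≤ p → ∀ D : ZMod (2 * p) → ℕ → ℕ → ℤ,
  (∀ [Fintype (ZMod (2 * p))] (σ : ZMod (2 * p) → ℕ), ∑ i, D i (σ i) (σ (i + 1)) = 1) →
  (∀ i a b, D (i + 2) a b = D i (a + 1) (b + 1)) →
  ∀ L : ℕ, 1 ≤ L → (∀ b, D 0 (p ^ L) b = D 0 0 b) → False

/-- NV. Hölder maps of exponent bigger than `n / (n + 2)` -/
def S_NV : Prop := ∀ n : ℕ, 1 ≤ n → ∀ (m : ℕ) (α C : ℝ), (n : ℝ) / (n + 2) < α → 0 ≤ C →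
  ∀ (Q : Set (E n)) (f : E n → E n) (Ψ : Fin m → E n → ℂ), IsCompact Q →
  (∀ x ∈ Q, ∀ x' ∈ Q, dist (f x) (f x') ≤ C * dist x x' ^ α) →
  (∀ i, ∀ x ∈ Q, ∀ x' ∈ Q, dist (Ψ i x) (Ψ i x') ≤ C * dist x x' ^ α) →
  ∀ᵐ y : E n, ∀ᵐ t : Fin m → ℂ, ∀ x ∈ Q, f x = y → (∃ i, Ψ i x ≠ 0) → ∑ i, t i * Ψ i x ≠ 0

/-- CIRC. the circle criterion -/
def S_CIRC : Prop := ∀ p : ℕ, p.Prime → ∀ n : ℕ, 1 ≤ n → ∀ (H : Type) [Group H]
  [TopologicalSpace H] (T : H → E n → E n), LocAct n H T → ∀ g : H,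
  Tendsto (fun j : ℕ => g ^ p ^ j) atTop (𝓝 1) → ∀ F : E n → E n, ContinuousOn F (BB n) →
  (∀ x ∈ BB n, dist (F x) x ≤ 1 / 4) → (∀ x ∈ closedBall (0 : E n) 3, F (T g x) = F x) →
  ∀ y ∈ ball (0 : E n) 1, ∀ Ψ : E n → ℂ, ContinuousOn Ψ (closedBall 0 2) →
  (∀ x ∈ closedBall (0 : E n) (7 / 4), Ψ (T g x) = Complex.exp (2 * Real.pi * Complex.I / p) * Ψ x) →
    ∃ x ∈ closedBall (0 : E n) (5 / 4), F x = y ∧ Ψ x = 0

end Pool.Agent.N512.CC
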