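import Pool.Agent.N512.CC.D1

/-!
# Maps which are generic with respect to countably many values
-/

set_option autoImplicit false
set_option linter.unusedSectionVars false

open MeasureTheory Set Metric Filter Topology TopologicalSpace
open scoped ENNReal NNReal BoundedContinuousFunction

namespace Pool.Agent.N512.CC

open Pool.Agent.Y485.HS Pool.Agent.Y489.SP Pool.Agent.Y475.HS Pool.Agent.R775.HS
  Pool.Agent.R775.HC Pool.Agent.N512.HS

section
variable {X : Type} [TopologicalSpace X] {H : Type} [Group H] [TopologicalSpace H]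
  [IsTopologicalGroup H] [MulAction H X] [ContinuousSMul H X]
variable {n : ℕ} {φ : OpenPartialHomeomorph X (E n)} {g : H}

/-- There are maps which agree with the average on the closure of the set of the points of infinite
orbit and which avoid countably many values on the pieces of the strata. -/
theorem exists_gen [T2Space X] [T2Space H]
    (hcomp : IsCompact ((Subgroup.zpowers g).topologicalClosure : Set H))
    (hs : Small φ ((Subgroup.zpowers g).topologicalClosure : Set H)) :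
    ∃ F0 : E n → E n, ContinuousOn F0 (closedBall 0 4) ∧
      (∀ v ∈ closedBall (0 : E n) 4, dist (F0 v) v < 1 / 4) ∧
      (∀ v ∈ closedBall (0 : E n) 4, g • φ.symm v = φ.symm v → F0 v = v) ∧
      (∀ (b : ℝ), ∀ v ∈ closedBall (0 : E n) 4, ∀ v' ∈ closedBall (0 : E n) 4,
        (∀ q ∈ (Subgroup.zpowers g).topologicalClosure,
          dist (φ (q • φ.symm v)) (φ (q • φ.symm v')) ≤ b) → dist (F0 v) (F0 v') ≤ b) ∧
      ∀ Y : ℕ → E n, ∃ F : E n → E n, ContinuousOn F (closedBall 0 4) ∧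
        (∀ v ∈ closedBall (0 : E n) 4, dist (F v) v ≤ 1 / 4) ∧
        (∀ v ∈ closedBall (0 : E n) 3, F (φ (g • φ.symm v)) = F v) ∧
        (∀ v ∈ closedBall (0 : E n) 3, g • φ.symm v = φ.symm v → F v = v) ∧
        (∀ v ∈ closedBall (0 : E n) 3, φ.symm v ∈ closure {x : X | InfOrbit g x} →
          F v = F0 v) ∧
        ∀ (a c : ℕ) (r : ℚ) (d : ℕ) (i : Fin n) (t : ℚ),
          Adm n φ g (denseSeq (E n) c) (r : ℝ) d →
            ∀ x ∈ closedBall (denseSeq (E n) c) (r : ℝ), g ^ d • φ.symm x = φ.symm x →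
              x i = (t : ℝ) → F x ≠ Y a := by
  classical
  obtain ⟨A, hA1, hA2, hA3, hA4, hA5, hA6, hA7⟩ := exists_avgop2 hcomp hs
  have ht := hs.1
  have hsm := hs.2
  have h34 : closedBall (0 : E n) 3 ⊆ closedBall 0 4 := closedBall_subset_closedBall (by norm_num)
  refine ⟨A (ContinuousMap.id _), hA1 _, hA6, fun v hv hgv => hA5 _ _ v hv fun k hk => by
    rw [fix_closure hk hgv, φ.right_inv (ht hv)]
    rfl, hA7, ?_⟩
  intro Y
  -- the Baire space of perturbations
  let 𝒟 : Set (E n →ᵇ E n) := {δ | ∀ w ∈ Wset n φ g, δ w = 0}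
  have h𝒟c : IsClosed 𝒟 := by
    have h1 : 𝒟 = ⋂ w ∈ Wset n φ g, {δ : E n →ᵇ E n | δ w = 0} := by
      ext δ
      simp [𝒟]
    rw [h1]
    refine isClosed_biInter fun w _ => ?_
    have hc : Continuous (fun δ : E n →ᵇ E n => δ w) :=
      (BoundedContinuousFunction.evalCLM ℝ w).continuous
    exact isClosed_eq hc continuous_const
  have hcs : CompleteSpace 𝒟 := h𝒟c.completeSpace_coe
  let ι : Type := ℕ × (ℕ × ℚ × ℕ) × (Fin n × ℚ)
  let G : ι → Set 𝒟 := fun q => {δ | Adm n φ g (denseSeq (E n) q.2.1.1) (q.2.1.2.1 : ℝ) q.2.1.2.2 →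
    ∀ x ∈ closedBall (denseSeq (E n) q.2.1.1) (q.2.1.2.1 : ℝ),
      g ^ q.2.1.2.2 • φ.symm x = φ.symm x → x q.2.2.1 = (q.2.2.2 : ℝ) →
        A (ContinuousMap.id _) x + A ((δ : E n →ᵇ E n) : C(E n, E n)) x ≠ Y q.1}
  have hdiff : ∀ δ δ' : E n →ᵇ E n, ∀ x ∈ closedBall (0 : E n) 4,
      dist (A (δ : C(E n, E n)) x) (A (δ' : C(E n, E n)) x) ≤ dist δ δ' := by
    intro δ δ' x hx
    have h1 : (δ : C(E n, E n)) = (δ' : C(E n, E n)) + ((δ - δ' : E n →ᵇ E n) : C(E n, E n)) := by
      ext1 w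
      show δ w = δ' w + (δ w - δ' w)
      abel
    rw [h1, hA3 _ _ x hx, dist_eq_norm, add_sub_cancel_left, dist_eq_norm]
    exact hA4 _ _ x hx fun k _ => (δ - δ').norm_coe_le_norm _
  have hGo : ∀ q, IsOpen (G q) := by
    rintro ⟨a, ⟨c, r, d⟩, i, t⟩
    by_cases hadm : Adm n φ g (denseSeq (E n) c) (r : ℝ) d
    swap
    · have : G (a, (c, r, d), i, t) = univ := by
        ext δ
        simp only [G, mem_ofPred_eq, mem_univ, iff_true]
        exact fun h => absurd h hadm
      rw [this]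
      exact isOpen_univ
    rw [Metric.isOpen_iff]
    intro δ hδ
    have hδ' := hδ hadm
    obtain ⟨hd, hc2, hcW, hcj⟩ := hadm
    have h24 : closedBall (0 : E n) 2 ⊆ closedBall 0 4 :=
      closedBall_subset_closedBall (by norm_num)
    set L : Set (E n) := {x | x ∈ closedBall (denseSeq (E n) c) (r : ℝ) ∧
      g ^ d • φ.symm x = φ.symm x ∧ x i = t} with hL
    have hLc : IsCompact L := by
      have h1 : L = (closedBall (denseSeq (E n) c) (r : ℝ) ∩ φ.symm ⁻¹' {z : X | g ^ d • z = z}) ∩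
          {x : E n | x i = t} := by
        ext x
        simp only [hL, mem_ofPred_eq, mem_inter_iff, mem_preimage]
        tauto
      rw [h1]
      refine IsCompact.of_isClosed_subset (isCompact_closedBall _ _) ?_
        (inter_subset_left.trans inter_subset_left)
      refine IsClosed.inter ?_ (isClosed_eq (by fun_prop) continuous_const)
      refine (φ.continuousOn_symm.mono (hc2.trans (h24.trans ht))).preimage_isClosed_of_isClosed
        isClosed_closedBall ?_
      exact isClosed_eq (continuous_const_smul _) continuous_id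
    have hL4 : ∀ x ∈ L, x ∈ closedBall (0 : E n) 4 := fun x hx => h24 (hc2 hx.1)
    rcases L.eq_empty_or_nonempty with he | hne
    · refine ⟨1, one_pos, fun δ1 _ _ x h1 h2 h3 => ?_⟩
      have : x ∈ L := ⟨h1, h2, h3⟩
      rw [he] at this
      exact this.elim
    · have hfc : ContinuousOn (fun x => dist (A (ContinuousMap.id _) x +
          A ((δ : E n →ᵇ E n) : C(E n, E n)) x) (Y a)) L :=
        continuous_dist.comp_continuousOn
          ((((hA1 _).mono hL4).add ((hA1 _).mono hL4)).prodMk continuousOn_const)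
      obtain ⟨x0, hx0, hmin⟩ := hLc.exists_isMinOn hne hfc
      have hpos : 0 < dist (A (ContinuousMap.id _) x0 +
          A ((δ : E n →ᵇ E n) : C(E n, E n)) x0) (Y a) :=
        dist_pos.2 (hδ' x0 hx0.1 hx0.2.1 hx0.2.2)
      refine ⟨_, hpos, fun δ1 hδ1 _ x h1 h2 h3 he => ?_⟩
      have hxL : x ∈ L := ⟨h1, h2, h3⟩
      have h4 : dist (A (ContinuousMap.id _) x0 +
          A ((δ : E n →ᵇ E n) : C(E n, E n)) x0) (Y a) ≤ dist (A (ContinuousMap.id _) x +
          A ((δ : E n →ᵇ E n) : C(E n, E n)) x) (Y a) := hmin hxL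
      have h5 := hdiff (δ1 : E n →ᵇ E n) δ x (hL4 x hxL)
      rw [mem_ball] at hδ1
      have h6 : dist (δ1 : E n →ᵇ E n) δ = dist δ1 δ := rfl
      rw [h6] at h5
      have h7 : dist (A (ContinuousMap.id _) x +
          A ((δ : E n →ᵇ E n) : C(E n, E n)) x) (Y a) =
          dist (A ((δ1 : E n →ᵇ E n) : C(E n, E n)) x) (A ((δ : E n →ᵇ E n) : C(E n, E n)) x) := by
        rw [← he, dist_add_left, dist_comm]
      linarith
  have hGd : ∀ q, Dense (G q) := by
    rintro ⟨a, ⟨c, r, d⟩, i, t⟩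
    by_cases hadm : Adm n φ g (denseSeq (E n) c) (r : ℝ) d
    swap
    · have : G (a, (c, r, d), i, t) = univ := by
        ext δ
        simp only [G, mem_ofPred_eq, mem_univ, iff_true]
        exact fun h => absurd h hadm
      rw [this]
      exact dense_univ
    rw [Metric.dense_iff]
    intro δ ε hε
    obtain ⟨δ1, h1, h2, h3⟩ := step hs hA1 hA3 hA5 hadm i t (Y a) (δ : E n →ᵇ E n) δ.2
      (half_pos hε)
    refine ⟨⟨δ1, h1⟩, ?_, fun _ => h3⟩
    rw [mem_ball]
    show dist δ1 (δ : E n →ᵇ E n) < ε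
    rw [dist_eq_norm]
    linarith
  have hdense : Dense (⋂ q, G q) := dense_iInter_of_isOpen hGo hGd
  -- the margin
  obtain ⟨ε0, hε0, hmargin⟩ : ∃ ε0 : ℝ, 0 < ε0 ∧ ∀ v ∈ closedBall (0 : E n) 4,
      dist (A (ContinuousMap.id _) v) v ≤ 1 / 4 - ε0 := by
    have hc : ContinuousOn (fun v => dist (A (ContinuousMap.id _) v) v) (closedBall (0 : E n) 4) :=
      continuous_dist.comp_continuousOn ((hA1 _).prodMk continuousOn_id)
    obtain ⟨v0, hv0, hmax⟩ := (isCompact_closedBall (0 : E n) 4).exists_isMaxOn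
      ⟨0, mem_closedBall_self (by norm_num)⟩ hc
    refine ⟨1 / 4 - dist (A (ContinuousMap.id _) v0) v0, sub_pos.2 (hA6 v0 hv0), fun v hv => ?_⟩
    have h1 : dist (A (ContinuousMap.id _) v) v ≤ dist (A (ContinuousMap.id _) v0) v0 := hmax hv
    linarith
  obtain ⟨δ, hδ1, hδ2⟩ := hdense.inter_open_nonempty (ball (⟨0, fun _ _ => rfl⟩ : 𝒟) ε0)
    isOpen_ball ⟨_, mem_ball_self hε0⟩
  have hδn : ‖(δ : E n →ᵇ E n)‖ < ε0 := by
    rw [mem_ball] at hδ1
    have h1 : dist (δ : E n →ᵇ E n) 0 < ε0 := hδ1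
    rwa [dist_zero_right] at h1
  have hδG : ∀ q, δ ∈ G q := fun q => mem_iInter.1 hδ2 q
  have hAδ : ∀ v ∈ closedBall (0 : E n) 4, ‖A ((δ : E n →ᵇ E n) : C(E n, E n)) v‖ ≤ ε0 :=
    fun v hv => hA4 _ _ v hv fun k _ => ((δ : E n →ᵇ E n).norm_coe_le_norm _).trans hδn.le
  set F : E n → E n := fun v => A (ContinuousMap.id _) v +
    A ((δ : E n →ᵇ E n) : C(E n, E n)) v with hF
  have hFd : ∀ v ∈ closedBall (0 : E n) 4, dist (F v) v ≤ 1 / 4 := by
    intro v hv
    have h1 := hmargin v hv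
    have h2 := hAδ v hv
    rw [dist_eq_norm] at h1 ⊢
    calc ‖F v - v‖ = ‖(A (ContinuousMap.id _) v - v) +
          A ((δ : E n →ᵇ E n) : C(E n, E n)) v‖ := by
            have h5 : F v = A (ContinuousMap.id _) v + A ((δ : E n →ᵇ E n) : C(E n, E n)) v := rfl
            rw [h5]
            congr 1
            exact add_sub_right_comm _ _ _
      _ ≤ _ := norm_add_le _ _
      _ ≤ 1 / 4 := by linarith
  -- fixed points of the closure
  have hfixall : ∀ v ∈ closedBall (0 : E n) 4, g • φ.symm v = φ.symm v →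
      ∀ k ∈ (Subgroup.zpowers g).topologicalClosure, k • φ.symm v = φ.symm v := by
    intro v hv hgv k hk
    exact fix_closure hk hgv
  refine ⟨F, (hA1 _).add (hA1 _), hFd, ?_, ?_, ?_, ?_⟩
  · intro v hv
    show A _ _ + A _ _ = A _ _ + A _ _
    rw [hA2 _ v hv, hA2 _ v hv]
  · intro v hv hgv
    have hk := hfixall v (h34 hv) hgv
    show A _ v + A _ v = v
    rw [hA5 (ContinuousMap.id _) v v (h34 hv) fun k hk' => by
      rw [hk k hk', φ.right_inv (ht (h34 hv))]; rfl,
      hA5 ((δ : E n →ᵇ E n) : C(E n, E n)) 0 v (h34 hv) fun k hk' => by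
        rw [hk k hk', φ.right_inv (ht (h34 hv))]
        exact δ.2 v (Or.inr ⟨h34 hv, Or.inr hgv⟩), add_zero]
  · intro v hv hvZ
    have hv4 := h34 hv
    have h3 : A ((δ : E n →ᵇ E n) : C(E n, E n)) (v : E n) = 0 := by
      refine hA5 _ _ _ hv4 fun k hk => ?_
      refine δ.2 _ (Or.inr ⟨?_, Or.inl ?_⟩)
      · have h4 := (hsm k hk v hv4).2
        have h5 : ‖(v : E n)‖ ≤ 3 := by simpa using hv
        rw [dist_eq_norm] at h4
        simp only [mem_closedBall, dist_zero_right]
        calc ‖φ (k • φ.symm (v : E n))‖ =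
              ‖(φ (k • φ.symm (v : E n)) - v) + v‖ := by congr 1; abel
          _ ≤ _ := norm_add_le _ _
          _ ≤ 4 := by linarith
      · show φ.symm (φ (k • φ.symm (v : E n))) ∈ closure {x : X | InfOrbit g x}
        rw [φ.left_inv (hsm k hk v hv4).1]
        exact clI_closure hk hvZ
    show A _ v + A _ v = A _ v
    rw [h3, add_zero]
  · intro a c r d i t hadm x hx hgx hxi
    exact hδG (a, (c, r, d), i, t) hadm x hx hgx hxi

end

end Pool.Agent.N512.CC
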