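import Pool.Agent.N512.CC.D2

/-!
# Equivariant perturbations of equivariant complex functions
-/

set_option autoImplicit false
set_option linter.unusedSectionVars false

open MeasureTheory Set Metric Filter Topology TopologicalSpace
open scoped ENNReal NNReal BoundedContinuousFunction

namespace Pool.Agent.N512.CC

open Pool.Agent.Y485.HS Pool.Agent.Y489.SP Pool.Agent.Y475.HS Pool.Agent.R775.HS
  Pool.Agent.R775.HC Pool.Agent.N512.HS

/-- a function on a totally disconnected compact set is close to a function without zeros -/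
theorem clopen_fun {n : ℕ} {L : Set (E n)} (hLc : IsCompact L)
    (hLd : ∀ (i : Fin n) (t : ℚ), ∀ x ∈ L, x i ≠ (t : ℝ)) {Θ : E n → ℂ} (hΘ : ContinuousOn Θ L)
    {ε : ℝ} (hε : 0 < ε) : ∃ c : E n → ℂ, ContinuousOn c L ∧ (∀ x ∈ L, ‖c x‖ ≤ ε) ∧
      ∀ x ∈ L, Θ x + c x ≠ 0 := by
  classical
  have hcomp : CompactSpace L := isCompact_iff_compactSpace.1 hLc
  have hΘ' : Continuous (fun x : L => Θ x) := continuousOn_iff_continuous_domRestrict.1 hΘ
  have htd : TotallyDisconnectedSpace L := by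
    refine ⟨fun S _ hS => ?_⟩
    intro u hu w hw
    refine Subtype.ext (PiLp.ext fun i => ?_)
    by_contra hne
    have hIm : IsPreconnected ((fun z : L => (z : E n) i) '' S) :=
      hS.image _ (by fun_prop : Continuous (fun z : L => (z : E n) i)).continuousOn
    have hord : ((fun z : L => (z : E n) i) '' S).OrdConnected := hIm.ordConnected
    have hbtw : ∀ u ∈ S, ∀ w ∈ S, (u : E n) i < (w : E n) i → False := by
      intro u hu w hw huw
      obtain ⟨t, ht1, ht2⟩ := exists_rat_btwn huw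
      obtain ⟨z, hz, hzt⟩ := hord.out (mem_image_of_mem _ hu) (mem_image_of_mem _ hw)
        ⟨ht1.le, ht2.le⟩
      exact hLd i t z z.2 hzt
    rcases lt_or_gt_of_ne hne with h3 | h3
    · exact hbtw u hu w hw h3
    · exact hbtw w hw u hu h3
  -- the clopen set
  have hex : ∀ x : L, ‖Θ x‖ ≤ ε / 4 → ∃ V : Set L, IsClopen V ∧ x ∈ V ∧
      V ⊆ {x : L | ‖Θ x‖ < ε / 2} := by
    intro x hx
    obtain ⟨V, hV, hxV, hVs⟩ := compact_exists_isClopen_in_isOpen
      (isOpen_lt (hΘ'.norm) continuous_const : IsOpen {x : L | ‖Θ x‖ < ε / 2})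
      (show x ∈ {x : L | ‖Θ x‖ < ε / 2} by
        show ‖Θ x‖ < ε / 2
        linarith)
    exact ⟨V, hV, hxV, hVs⟩
  choose! V hV1 hV2 hV3 using hex
  have hAc : IsCompact {x : L | ‖Θ x‖ ≤ ε / 4} :=
    (isClosed_le hΘ'.norm continuous_const).isCompact
  obtain ⟨T, hTA, hTc⟩ := hAc.elim_nhds_subcover V fun x hx => (hV1 x hx).2.mem_nhds (hV2 x hx)
  set U : Set L := ⋃ x ∈ T, V x with hU
  have hUc : IsClopen U := by
    refine ⟨?_, ?_⟩
    · exact isClosed_biUnion_finset fun x hx => (hV1 x (hTA x hx)).1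
    · exact isOpen_biUnion fun x hx => (hV1 x (hTA x hx)).2
  have hUs : ∀ x ∈ U, ‖Θ x‖ < ε / 2 := by
    intro x hx
    obtain ⟨z, hz, hxz⟩ := mem_iUnion₂.1 hx
    exact hV3 z (hTA z hz) hxz
  refine ⟨fun x => if x ∈ Subtype.val '' U then (ε : ℂ) else 0, ?_, ?_, ?_⟩
  · rw [continuousOn_iff_continuous_domRestrict]
    have h1 : L.domRestrict (fun x => if x ∈ Subtype.val '' U then (ε : ℂ) else 0) =
        U.indicator (fun _ => (ε : ℂ)) := by
      funext x
      have h2 : (x : E n) ∈ Subtype.val '' U ↔ x ∈ U := by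
        constructor
        · rintro ⟨z, hz, hzx⟩
          rwa [Subtype.ext hzx] at hz
        · exact fun h => ⟨x, h, rfl⟩
      show (if (x : E n) ∈ Subtype.val '' U then (ε : ℂ) else 0) = _
      simp only [h2, indicator]
    rw [h1]
    refine Continuous.indicator ?_ continuous_const
    intro a ha
    rw [hUc.frontier_eq] at ha
    exact ha.elim
  · intro x _
    simp only
    split_ifs
    · rw [Complex.norm_real, Real.norm_of_nonneg hε.le]
    · rw [norm_zero]
      exact hε.le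
  · intro x hx h0
    simp only at h0
    split_ifs at h0 with h1
    · obtain ⟨z, hz, hzx⟩ := h1
      have h2 := hUs z hz
      rw [hzx] at h2
      have h3 : Θ x = -(ε : ℂ) := eq_neg_of_add_eq_zero_left h0
      rw [h3, norm_neg, Complex.norm_real, Real.norm_of_nonneg hε.le] at h2
      linarith
    · rw [add_zero] at h0
      apply h1
      refine ⟨⟨x, hx⟩, ?_, rfl⟩
      apply hTc
      show ‖Θ x‖ ≤ ε / 4
      rw [h0, norm_zero]
      positivity

section
variable {X : Type} [TopologicalSpace X] {H : Type} [Group H] [TopologicalSpace H]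
  [IsTopologicalGroup H] [MulAction H X] [ContinuousSMul H X]
variable {n : ℕ} {φ : OpenPartialHomeomorph X (E n)} {g : H}

theorem adm_ne (hs : Small φ ((Subgroup.zpowers g).topologicalClosure : Set H)) {c : E n} {r : ℝ}
    {d : ℕ} (hadm : Adm n φ g c r d) {x : E n} (hx : x ∈ closedBall c r) {j : ℕ} (hj : 0 < j)
    (hjd : j < d) : g ^ j • φ.symm x ≠ φ.symm x := by
  intro h
  apply hadm.2.2.2 j hj hjd x hx
  rw [h, φ.right_inv (hs.1 (closedBall_subset_closedBall (by norm_num) (hadm.2.1 hx)))]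
  exact hx

theorem adm_fix {c : E n} {r : ℝ}
    {d : ℕ} (hadm : Adm n φ g c r d) {x : E n} (hx : x ∈ closedBall c r) :
    g • φ.symm x ≠ φ.symm x := by
  intro h
  refine Set.disjoint_left.1 hadm.2.2.1 hx (Or.inr ⟨?_, Or.inr h⟩)
  exact closedBall_subset_closedBall (by norm_num) (hadm.2.1 hx)

/-- the sizes of the finite orbits are divisible by `p` -/
theorem dvd_of_adm [T2Space X] {p : ℕ} (hp : p.Prime)
    (hg : Tendsto (fun j : ℕ => g ^ p ^ j) atTop (𝓝 1))
    (hs : Small φ ((Subgroup.zpowers g).topologicalClosure : Set H)) {c : E n} {r : ℝ} {d : ℕ}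
    (hadm : Adm n φ g c r d) {x : E n} (hx : x ∈ closedBall c r)
    (hgx : g ^ d • φ.symm x = φ.symm x) : p ∣ d := by
  classical
  set z := φ.symm x with hz
  have hd := hadm.1
  have hmod : ∀ m : ℕ, g ^ m • z = g ^ (m % d) • z := by
    intro m
    have h1 : ∀ q : ℕ, (g ^ d) ^ q • z = z := by
      intro q
      have h2 : g ^ d ∈ MulAction.stabilizer H z := hgx
      exact (MulAction.stabilizer H z).pow_mem h2 q
    conv_lhs => rw [← Nat.mod_add_div m d]
    rw [pow_add, pow_mul, mul_smul, h1]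
  have hmz : ∀ m : ℕ, g ^ m • z = z → d ∣ m := by
    intro m hm
    rw [hmod] at hm
    by_contra hno
    exact adm_ne hs hadm hx (Nat.pos_of_ne_zero fun h => hno (Nat.dvd_of_mod_eq_zero h))
      (Nat.mod_lt _ hd) hm
  obtain ⟨J, hJ⟩ : ∃ J : ℕ, g ^ p ^ J • z = z := by
    let S : Finset X := ((Finset.range d).image (fun j => g ^ j • z)).erase z
    have hS : IsClosed (S : Set X) := S.finite_toSet.isClosed
    have h1 : Tendsto (fun j : ℕ => g ^ p ^ j • z) atTop (𝓝 ((1 : H) • z)) := hg.smul_const z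
    rw [one_smul] at h1
    have h2 : (S : Set X)ᶜ ∈ 𝓝 z := by
      refine hS.isOpen_compl.mem_nhds ?_
      simp [S]
    obtain ⟨J, hJ⟩ := (h1.eventually h2).exists
    refine ⟨J, ?_⟩
    by_contra hne
    apply hJ
    rw [Finset.mem_coe, Finset.mem_erase]
    refine ⟨hne, Finset.mem_image.2 ⟨p ^ J % d, Finset.mem_range.2 (Nat.mod_lt _ hd), ?_⟩⟩
    exact (hmod _).symm
  obtain ⟨k, -, hk⟩ := (Nat.dvd_prime_pow hp).1 (hmz _ hJ)
  have hk0 : k ≠ 0 := by
    rintro rfl
    rw [pow_zero] at hk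
    rw [hk, pow_one] at hgx
    exact adm_fix hadm hx hgx
  rw [hk]
  exact dvd_pow_self p hk0

/-- the perturbation which avoids zeros on a piece of a stratum -/
theorem step2 [T2Space X] [T2Space H] {p : ℕ} (hp : p.Prime)
    (hg : Tendsto (fun j : ℕ => g ^ p ^ j) atTop (𝓝 1))
    (hs : Small φ ((Subgroup.zpowers g).topologicalClosure : Set H))
    {B : C(E n, ℂ) → E n → ℂ} (hB1 : ∀ ψ, ContinuousOn (B ψ) (closedBall 0 4))
    (hB3 : ∀ ψ ψ', ∀ v ∈ closedBall (0 : E n) 4, B (ψ + ψ') v = B ψ v + B ψ' v)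
    (hB5 : ∀ ψ (a : ℂ), ∀ v ∈ closedBall (0 : E n) 4,
        (∀ i < p, ∀ q ∈ (Subgroup.zpowers (g ^ p)).topologicalClosure,
          ψ (φ ((g ^ i * q) • φ.symm v)) =
            Complex.exp (2 * Real.pi * Complex.I / p) ^ i * a) → B ψ v = a)
    {c : E n} {r : ℝ} {d : ℕ} (hadm : Adm n φ g c r d) {L : Set (E n)} (hLc : IsCompact L)
    (hL : ∀ x ∈ L, x ∈ closedBall c r ∧ g ^ d • φ.symm x = φ.symm x)
    (hLd : ∀ (i : Fin n) (t : ℚ), ∀ x ∈ L, x i ≠ (t : ℝ)) {Ψ0 : E n → ℂ}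
    (hΨ0 : ContinuousOn Ψ0 L)
    (δ0 : E n →ᵇ ℂ) (hδ0 : ∀ w ∈ Wset n φ g, δ0 w = 0) {ε : ℝ} (hε : 0 < ε) :
    ∃ δ1 : E n →ᵇ ℂ, (∀ w ∈ Wset n φ g, δ1 w = 0) ∧ ‖δ1 - δ0‖ ≤ ε ∧
      ∀ x ∈ L, Ψ0 x + B (δ1 : C(E n, ℂ)) x ≠ 0 := by
  classical
  rcases L.eq_empty_or_nonempty with he | ⟨xL, hxL0⟩
  · refine ⟨δ0, hδ0, by rw [sub_self, norm_zero]; exact hε.le, fun x hx => ?_⟩
    rw [he] at hx
    exact hx.elim
  have hpd : p ∣ d := dvd_of_adm hp hg hs hadm (hL xL hxL0).1 (hL xL hxL0).2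
  set ζ : ℂ := Complex.exp (2 * Real.pi * Complex.I / p) with hζ
  have hζ1 : ‖ζ‖ = 1 := zt_norm
  have hζp : ζ ^ p = 1 := by
    rw [hζ, ← Complex.exp_nat_mul]
    have h1 : (p : ℂ) * (2 * Real.pi * Complex.I / p) = 2 * Real.pi * Complex.I := by
      have : (p : ℂ) ≠ 0 := by exact_mod_cast hp.pos.ne'
      field_simp
    rw [h1, Complex.exp_two_pi_mul_I]
  have hadm' := hadm
  obtain ⟨hd, hc2, hcW, hcj⟩ := hadm
  have hs0 := hs
  obtain ⟨ht, hsm⟩ := hs
  have h24 : closedBall (0 : E n) 2 ⊆ closedBall 0 4 := closedBall_subset_closedBall (by norm_num)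
  have hgj : ∀ j : ℕ, g ^ j ∈ ((Subgroup.zpowers g).topologicalClosure : Set H) := fun j =>
    Subgroup.le_topologicalClosure _ (Subgroup.npow_mem_zpowers g j)
  have hgj' : ∀ j : ℕ, (g ^ j)⁻¹ ∈ ((Subgroup.zpowers g).topologicalClosure : Set H) := fun j =>
    Subgroup.inv_mem _ (hgj j)
  have hL4 : ∀ x ∈ L, x ∈ closedBall (0 : E n) 4 := fun x hx => h24 (hc2 (hL x hx).1)
  have hfc : ContinuousOn (fun x => Ψ0 x + B (δ0 : C(E n, ℂ)) x) L :=
    hΨ0.add ((hB1 _).mono hL4)
  obtain ⟨η, hηc, hηε, hηy⟩ := clopen_fun hLc hLd hfc hε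
  -- the translates
  let τ : ℕ → E n → E n := fun j v => φ (g ^ j • φ.symm v)
  let σ : ℕ → E n → E n := fun j v => φ ((g ^ j)⁻¹ • φ.symm v)
  have hτsrc : ∀ j, ∀ v ∈ closedBall (0 : E n) 4, g ^ j • φ.symm v ∈ φ.source := fun j v hv =>
    (hsm _ (hgj j) v hv).1
  have hτc : ∀ j, ContinuousOn (τ j) (closedBall 0 4) := fun j =>
    φ.continuousOn.comp ((φ.continuousOn_symm.mono ht).const_smul _) fun v hv => hτsrc j v hv
  have hσc : ∀ j, ContinuousOn (σ j) (closedBall 0 4) := fun j =>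
    φ.continuousOn.comp ((φ.continuousOn_symm.mono ht).const_smul _)
      fun v hv => (hsm _ (hgj' j) v hv).1
  have hτsymm : ∀ j, ∀ v ∈ closedBall (0 : E n) 4, φ.symm (τ j v) = g ^ j • φ.symm v :=
    fun j v hv => φ.left_inv (hτsrc j v hv)
  have hτn : ∀ j, ∀ v ∈ L, ‖τ j v‖ ≤ 9 / 4 := by
    intro j v hv
    have h1 := (hsm _ (hgj j) v (hL4 v hv)).2
    have h2 : ‖v‖ ≤ 2 := by simpa using hc2 (hL v hv).1
    rw [dist_eq_norm] at h1
    calc ‖τ j v‖ = ‖(τ j v - v) + v‖ := by congr 1; abel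
      _ ≤ ‖τ j v - v‖ + ‖v‖ := norm_add_le _ _
      _ ≤ 9 / 4 := by
        have h3 : ‖τ j v - v‖ ≤ 1 / 4 := h1
        linarith
  have hτ4 : ∀ j, ∀ v ∈ L, τ j v ∈ closedBall (0 : E n) 4 := fun j v hv => by
    have := hτn j v hv
    simp only [mem_closedBall, dist_zero_right]
    linarith
  have hστ : ∀ j, ∀ v ∈ L, σ j (τ j v) = v := by
    intro j v hv
    show φ ((g ^ j)⁻¹ • φ.symm (τ j v)) = v
    rw [hτsymm j v (hL4 v hv), inv_smul_smul]
    exact φ.right_inv (ht (hL4 v hv))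
  -- uniqueness
  have huniq : ∀ j < d, ∀ j' < d, ∀ u ∈ L, ∀ u' ∈ L, τ j u = τ j' u' → j = j' ∧ u = u' := by
    have key : ∀ j j' : ℕ, j ≤ j' → j' < d → ∀ u ∈ L, ∀ u' ∈ L, τ j u = τ j' u' →
        j = j' ∧ u = u' := by
      intro j j' hjj hj' u hu u' hu' he
      have h1 := congrArg φ.symm he
      rw [hτsymm j u (hL4 u hu), hτsymm j' u' (hL4 u' hu')] at h1
      have h2 : φ.symm u = g ^ (j' - j) • φ.symm u' := by
        have h3 : g ^ j' = g ^ j * g ^ (j' - j) := by
          rw [← pow_add]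
          congr 1
          omega
        rw [h3, mul_smul] at h1
        exact MulAction.injective (g ^ j) h1
      have h4 : u = φ (g ^ (j' - j) • φ.symm u') := by
        rw [← h2, φ.right_inv (ht (hL4 u hu))]
      rcases Nat.eq_zero_or_pos (j' - j) with h0 | h0
      · rw [h0, pow_zero, one_smul, φ.right_inv (ht (hL4 u' hu'))] at h4
        exact ⟨by omega, h4⟩
      · exfalso
        apply hcj (j' - j) h0 (by omega) u' (hL u' hu').1
        rw [← h4]
        exact (hL u hu).1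
    intro j hj j' hj' u hu u' hu' he
    rcases le_total j j' with h | h
    · exact key j j' h hj' u hu u' hu' he
    · obtain ⟨h1, h2⟩ := key j' j h hj u' hu' u hu he.symm
      exact ⟨h1.symm, h2.symm⟩
  -- disjointness from `W`
  have hW : ∀ j, ∀ u ∈ L, τ j u ∉ Wset n φ g := by
    intro j u hu hw
    rcases hw with hw | ⟨-, hw⟩
    · have h1 := hτn j u hu
      have h2 : 5 / 2 ≤ ‖τ j u‖ := hw
      linarith
    · rw [mem_preimage, hτsymm j u (hL4 u hu)] at hw
      refine Set.disjoint_left.1 hcW (hL u hu).1 (Or.inr ⟨hL4 u hu, ?_⟩)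
      rcases hw with hw | hw
      · left
        have h1 := clI_zpow (g := g) (-(j : ℤ)) hw
        rw [zpow_neg, zpow_natCast, inv_smul_smul] at h1
        exact h1
      · right
        have h1 : g • g ^ j • φ.symm u = g ^ j • φ.symm u := hw
        show g • φ.symm u = φ.symm u
        apply MulAction.injective (g ^ j)
        show g ^ j • g • φ.symm u = g ^ j • φ.symm u
        rw [smul_smul, ← pow_succ, pow_succ', mul_smul]
        exact h1
  -- the function on the translates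
  let P : E n → Prop := fun w => ∃ q : ℕ × E n, q.2 ∈ L ∧ q.1 < d ∧ τ q.1 q.2 = w
  let η' : E n → ℂ := fun w => if h : P w then ζ ^ h.choose.1 * η h.choose.2 else 0
  have hη'1 : ∀ j < d, ∀ u ∈ L, η' (τ j u) = ζ ^ j * η u := by
    intro j hj u hu
    have hP : P (τ j u) := ⟨(j, u), hu, hj, rfl⟩
    have h1 : η' (τ j u) = ζ ^ hP.choose.1 * η hP.choose.2 := dif_pos hP
    rw [h1]
    obtain ⟨h2, hj', h3⟩ := hP.choose_spec
    obtain ⟨h4, h5⟩ := huniq _ hj' j hj _ h2 u hu h3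
    rw [h4, h5]
  have hη'0 : ∀ w ∈ Wset n φ g, η' w = 0 := by
    intro w hw
    refine dif_neg ?_
    rintro ⟨⟨j, u⟩, hu, hj, rfl⟩
    exact hW j u hu hw
  set D : Set (E n) := ⋃ j : Fin d, τ j '' L with hD
  have hDc : ∀ j : Fin d, IsCompact (τ j '' L) := fun j =>
    hLc.image_of_continuousOn ((hτc j).mono hL4)
  have hDcl : IsClosed D := isClosed_iUnion_of_finite fun j => (hDc j).isClosed
  have hη'D : ContinuousOn η' D := by
    refine LocallyFinite.continuousOn_iUnion (locallyFinite_of_finite _)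
      (fun j => (hDc j).isClosed) fun j => ?_
    have h1 : ContinuousOn (fun w => ζ ^ (j : ℕ) * η (σ j w)) (τ j '' L) := by
      refine continuousOn_const.mul (hηc.comp ((hσc j).mono ?_) ?_)
      · rintro _ ⟨u, hu, rfl⟩
        exact hτ4 j u hu
      · rintro _ ⟨u, hu, rfl⟩
        rw [hστ j u hu]
        exact hu
    refine h1.congr ?_
    rintro _ ⟨u, hu, rfl⟩
    simp only
    rw [hη'1 j j.2 u hu, hστ j u hu]
  have hη'W : ContinuousOn η' (Wset n φ g) :=
    (continuousOn_const (c := (0 : ℂ))).congr hη'0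
  have hWcl : IsClosed (Wset n φ g) := isClosed_Wset ht
  have hη'C : ContinuousOn η' (Wset n φ g ∪ D) := hη'W.union_of_isClosed hη'D hWcl hDcl
  have hbd : ∀ w ∈ Wset n φ g ∪ D, ‖η' w‖ ≤ ε := by
    rintro w (hw | hw)
    · rw [hη'0 w hw, norm_zero]
      exact hε.le
    · obtain ⟨j, u, hu, rfl⟩ := mem_iUnion.1 hw
      rw [hη'1 j j.2 u hu, norm_mul, norm_pow, hζ1, one_pow, one_mul]
      exact hηε u hu
  let f : (Wset n φ g ∪ D : Set (E n)) →ᵇ ℂ :=
    BoundedContinuousFunction.ofNormedAddCommGroup (fun w => η' w)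
      (continuousOn_iff_continuous_domRestrict.1 hη'C) ε (fun w => hbd w w.2)
  obtain ⟨δ, hδn, hδf⟩ := BoundedContinuousFunction.exists_norm_eq_domRestrict_eq
    (hWcl.union hDcl) ℂ f
  have hfn : ‖f‖ ≤ ε := BoundedContinuousFunction.norm_ofNormedAddCommGroup_le _ hε.le _
  have hδv : ∀ w ∈ Wset n φ g ∪ D, δ w = η' w := by
    intro w hw
    have := DFunLike.congr_fun hδf ⟨w, hw⟩
    exact this
  refine ⟨δ0 + δ, ?_, ?_, ?_⟩
  · intro w hw
    rw [BoundedContinuousFunction.add_apply, hδ0 w hw, hδv w (Or.inl hw), hη'0 w hw, add_zero]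
  · rw [add_sub_cancel_left, hδn]
    exact hfn
  · intro x hxL
    have h1 : ((δ0 + δ : E n →ᵇ ℂ) : C(E n, ℂ)) = (δ0 : C(E n, ℂ)) + (δ : C(E n, ℂ)) := by
      ext1 w
      rfl
    rw [h1, hB3 _ _ x (hL4 x hxL)]
    have h2 : B (δ : C(E n, ℂ)) x = η x := by
      apply hB5 _ _ x (hL4 x hxL)
      intro i hi q hq
      obtain ⟨e, he⟩ := hpd
      have he0 : 0 < e := by
        rcases Nat.eq_zero_or_pos e with h | h
        · rw [h, mul_zero] at he
          omega
        · exact h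
      have hge : (g ^ p) ^ e • φ.symm x = φ.symm x := by
        rw [← pow_mul, ← he]
        exact (hL x hxL).2
      obtain ⟨j, hj, hqj⟩ := orb he0 hge hq
      have h5 : (g ^ i * q) • φ.symm x = g ^ (i + p * j) • φ.symm x := by
        rw [mul_smul, hqj, smul_smul, ← pow_mul, ← pow_add]
      rw [h5]
      have hlt : i + p * j < d := by
        rw [he]
        calc i + p * j < p + p * j := by omega
          _ = p * (j + 1) := by ring
          _ ≤ p * e := Nat.mul_le_mul_left p hj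
      have h3 : τ (i + p * j) x ∈ D := mem_iUnion.2 ⟨⟨i + p * j, hlt⟩, x, hxL, rfl⟩
      have h4 := hδv (τ (i + p * j) x) (Or.inr h3)
      rw [hη'1 _ hlt x hxL, pow_add, pow_mul, hζp, one_pow, mul_one] at h4
      exact h4
    rw [h2, ← add_assoc]
    exact hηy x hxL

end

end Pool.Agent.N512.CC
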