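import Pool.Agent.N512.CC.D3

/-!
# The local theorem
-/

set_option autoImplicit false
set_option linter.unusedSectionVars false

open MeasureTheory Set Metric Filter Topology TopologicalSpace
open scoped ENNReal NNReal BoundedContinuousFunction

namespace Pool.Agent.N512.CC

open Pool.Agent.Y485.HS Pool.Agent.Y489.SP Pool.Agent.Y475.HS Pool.Agent.R775.HS
  Pool.Agent.R775.HC Pool.Agent.N512.HS

section
variable {X : Type} [TopologicalSpace X] {H : Type} [Group H] [TopologicalSpace H]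
  [IsTopologicalGroup H] [MulAction H X] [ContinuousSMul H X]
variable {n : ℕ} {φ : OpenPartialHomeomorph X (E n)} {g : H}

/-- an equivariant function without zeros on a fibre -/
theorem exists_equiv [T2Space X] [T2Space H] {p : ℕ} (hp : p.Prime)
    (hg : Tendsto (fun j : ℕ => g ^ p ^ j) atTop (𝓝 1))
    (hcomp : IsCompact ((Subgroup.zpowers g).topologicalClosure : Set H))
    (hs : Small φ ((Subgroup.zpowers g).topologicalClosure : Set H))
    {F : E n → E n} (hF : ContinuousOn F (closedBall 0 4)) {Y : E n}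
    (hgen : ∀ (c : ℕ) (r : ℚ) (d : ℕ) (i : Fin n) (t : ℚ),
      Adm n φ g (denseSeq (E n) c) (r : ℝ) d →
        ∀ x ∈ closedBall (denseSeq (E n) c) (r : ℝ), g ^ d • φ.symm x = φ.symm x →
          x i = (t : ℝ) → F x ≠ Y)
    (hfix : ∀ v ∈ closedBall (0 : E n) 2, F v = Y → g • φ.symm v ≠ φ.symm v)
    {Ψ0 : E n → ℂ} (hΨ1 : ContinuousOn Ψ0 (closedBall 0 2))
    (hΨ2 : ∀ v ∈ closedBall (0 : E n) (7 / 4), Ψ0 (φ (g • φ.symm v)) =
      Complex.exp (2 * Real.pi * Complex.I / p) * Ψ0 v)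
    (hΨ3 : ∀ v ∈ closedBall (0 : E n) 2, φ.symm v ∈ closure {x : X | InfOrbit g x} →
      F v = Y → Ψ0 v ≠ 0) :
    ∃ Ψ : E n → ℂ, ContinuousOn Ψ (closedBall 0 2) ∧
      (∀ v ∈ closedBall (0 : E n) (7 / 4), Ψ (φ (g • φ.symm v)) =
        Complex.exp (2 * Real.pi * Complex.I / p) * Ψ v) ∧
      ∀ v ∈ closedBall (0 : E n) (5 / 4), F v = Y → Ψ v ≠ 0 := by
  classical
  obtain ⟨B, hB1, hB2, hB3, hB4, hB5, -, -⟩ := exists_twop hp.pos hcomp hs
  have ht := hs.1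
  have hsm := hs.2
  have h24 : closedBall (0 : E n) 2 ⊆ closedBall 0 4 := closedBall_subset_closedBall (by norm_num)
  let 𝒟 : Set (E n →ᵇ ℂ) := {δ | ∀ w ∈ Wset n φ g, δ w = 0}
  have h𝒟c : IsClosed 𝒟 := by
    have h1 : 𝒟 = ⋂ w ∈ Wset n φ g, {δ : E n →ᵇ ℂ | δ w = 0} := by
      ext δ
      simp [𝒟]
    rw [h1]
    refine isClosed_biInter fun w _ => ?_
    have hc : Continuous (fun δ : E n →ᵇ ℂ => δ w) :=
      (BoundedContinuousFunction.evalCLM ℂ w).continuous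
    exact isClosed_eq hc continuous_const
  have hcs : CompleteSpace 𝒟 := h𝒟c.completeSpace_coe
  let G : ℕ × ℚ × ℕ → Set 𝒟 := fun q => {δ | Adm n φ g (denseSeq (E n) q.1) (q.2.1 : ℝ) q.2.2 →
    ∀ x ∈ closedBall (denseSeq (E n) q.1) (q.2.1 : ℝ),
      g ^ q.2.2 • φ.symm x = φ.symm x → F x = Y →
        Ψ0 x + B ((δ : E n →ᵇ ℂ) : C(E n, ℂ)) x ≠ 0}
  have hdiff : ∀ δ δ' : E n →ᵇ ℂ, ∀ x ∈ closedBall (0 : E n) 4,
      dist (B (δ : C(E n, ℂ)) x) (B (δ' : C(E n, ℂ)) x) ≤ dist δ δ' := by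
    intro δ δ' x hx
    have h1 : (δ : C(E n, ℂ)) = (δ' : C(E n, ℂ)) + ((δ - δ' : E n →ᵇ ℂ) : C(E n, ℂ)) := by
      ext1 w
      show δ w = δ' w + (δ w - δ' w)
      abel
    rw [h1, hB3 _ _ x hx, dist_eq_norm, add_sub_cancel_left, dist_eq_norm]
    exact hB4 _ _ x hx fun k _ => (δ - δ').norm_coe_le_norm _
  have hLc : ∀ (c : ℕ) (r : ℚ) (d : ℕ), Adm n φ g (denseSeq (E n) c) (r : ℝ) d →
      IsCompact {x | x ∈ closedBall (denseSeq (E n) c) (r : ℝ) ∧
        g ^ d • φ.symm x = φ.symm x ∧ F x = Y} := by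
    rintro c r d ⟨hd, hc2, hcW, hcj⟩
    have h1 : {x | x ∈ closedBall (denseSeq (E n) c) (r : ℝ) ∧
        g ^ d • φ.symm x = φ.symm x ∧ F x = Y} =
        (closedBall (denseSeq (E n) c) (r : ℝ) ∩ φ.symm ⁻¹' {z : X | g ^ d • z = z}) ∩
          (closedBall (denseSeq (E n) c) (r : ℝ) ∩ F ⁻¹' {Y}) := by
      ext x
      simp only [mem_ofPred_eq, mem_inter_iff, mem_preimage, mem_singleton_iff]
      tauto
    rw [h1]
    refine IsCompact.of_isClosed_subset (isCompact_closedBall _ _) ?_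
      (inter_subset_left.trans inter_subset_left)
    refine IsClosed.inter ?_ ?_
    · refine (φ.continuousOn_symm.mono (hc2.trans (h24.trans ht))).preimage_isClosed_of_isClosed
        isClosed_closedBall ?_
      exact isClosed_eq (continuous_const_smul _) continuous_id
    · exact (hF.mono (hc2.trans h24)).preimage_isClosed_of_isClosed isClosed_closedBall
        isClosed_singleton
  have hGo : ∀ q, IsOpen (G q) := by
    rintro ⟨c, r, d⟩
    by_cases hadm : Adm n φ g (denseSeq (E n) c) (r : ℝ) d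
    swap
    · have : G (c, r, d) = univ := by
        ext δ
        simp only [G, mem_ofPred_eq, mem_univ, iff_true]
        exact fun h => absurd h hadm
      rw [this]
      exact isOpen_univ
    rw [Metric.isOpen_iff]
    intro δ hδ
    have hδ' := hδ hadm
    have hLcc := hLc c r d hadm
    have hc2 := hadm.2.1
    set L : Set (E n) := {x | x ∈ closedBall (denseSeq (E n) c) (r : ℝ) ∧
      g ^ d • φ.symm x = φ.symm x ∧ F x = Y} with hL
    have hL2 : ∀ x ∈ L, x ∈ closedBall (0 : E n) 2 := fun x hx => hc2 hx.1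
    have hL4 : ∀ x ∈ L, x ∈ closedBall (0 : E n) 4 := fun x hx => h24 (hL2 x hx)
    rcases L.eq_empty_or_nonempty with he | hne
    · refine ⟨1, one_pos, fun δ1 _ _ x h1 h2 h3 => ?_⟩
      have : x ∈ L := ⟨h1, h2, h3⟩
      rw [he] at this
      exact this.elim
    · have hfc : ContinuousOn (fun x => ‖Ψ0 x + B ((δ : E n →ᵇ ℂ) : C(E n, ℂ)) x‖) L :=
        ((hΨ1.mono hL2).add ((hB1 _).mono hL4)).norm
      obtain ⟨x0, hx0, hmin⟩ := hLcc.exists_isMinOn hne hfc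
      have hpos : 0 < ‖Ψ0 x0 + B ((δ : E n →ᵇ ℂ) : C(E n, ℂ)) x0‖ :=
        norm_pos_iff.2 (hδ' x0 hx0.1 hx0.2.1 hx0.2.2)
      refine ⟨_, hpos, fun δ1 hδ1 _ x h1 h2 h3 he => ?_⟩
      have hxL : x ∈ L := ⟨h1, h2, h3⟩
      have h4 : ‖Ψ0 x0 + B ((δ : E n →ᵇ ℂ) : C(E n, ℂ)) x0‖ ≤
          ‖Ψ0 x + B ((δ : E n →ᵇ ℂ) : C(E n, ℂ)) x‖ := hmin hxL
      have h5 := hdiff (δ : E n →ᵇ ℂ) δ1 x (hL4 x hxL)
      rw [mem_ball] at hδ1
      have h6 : dist (δ : E n →ᵇ ℂ) (δ1 : E n →ᵇ ℂ) = dist δ1 δ := dist_comm _ _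
      rw [h6] at h5
      have h7 : Ψ0 x + B ((δ : E n →ᵇ ℂ) : C(E n, ℂ)) x =
          B ((δ : E n →ᵇ ℂ) : C(E n, ℂ)) x - B ((δ1 : E n →ᵇ ℂ) : C(E n, ℂ)) x := by
        have h8 : Ψ0 x = -B ((δ1 : E n →ᵇ ℂ) : C(E n, ℂ)) x := eq_neg_of_add_eq_zero_left he
        rw [h8]
        ring
      rw [h7, ← dist_eq_norm] at h4
      linarith
  have hGd : ∀ q, Dense (G q) := by
    rintro ⟨c, r, d⟩
    by_cases hadm : Adm n φ g (denseSeq (E n) c) (r : ℝ) d
    swap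
    · have : G (c, r, d) = univ := by
        ext δ
        simp only [G, mem_ofPred_eq, mem_univ, iff_true]
        exact fun h => absurd h hadm
      rw [this]
      exact dense_univ
    rw [Metric.dense_iff]
    intro δ ε hε
    obtain ⟨δ1, h1, h2, h3⟩ := step2 hp hg hs hB1 hB3 hB5 hadm (hLc c r d hadm)
      (fun x hx => ⟨hx.1, hx.2.1⟩)
      (fun i t x hx hxi => hgen c r d i t hadm x hx.1 hx.2.1 hxi hx.2.2)
      (hΨ1.mono fun x hx => hadm.2.1 hx.1) (δ : E n →ᵇ ℂ) δ.2 (half_pos hε)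
    refine ⟨⟨δ1, h1⟩, ?_, fun _ x hx1 hx2 hx3 => h3 x ⟨hx1, hx2, hx3⟩⟩
    rw [mem_ball]
    show dist δ1 (δ : E n →ᵇ ℂ) < ε
    rw [dist_eq_norm]
    linarith
  have hdense : Dense (⋂ q, G q) := dense_iInter_of_isOpen hGo hGd
  have hne : Nonempty 𝒟 := ⟨⟨0, fun _ _ => rfl⟩⟩
  obtain ⟨δ, hδ⟩ := hdense.nonempty
  have hδG : ∀ q, δ ∈ G q := fun q => mem_iInter.1 hδ q
  refine ⟨fun v => Ψ0 v + B ((δ : E n →ᵇ ℂ) : C(E n, ℂ)) v, hΨ1.add ((hB1 _).mono h24), ?_, ?_⟩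
  · intro v hv
    show Ψ0 _ + B _ _ = _ * (Ψ0 v + B _ v)
    rw [hΨ2 v hv, hB2 _ v (closedBall_subset_closedBall (by norm_num) hv)]
    ring
  · intro v hv hFv
    have hv2 : v ∈ closedBall (0 : E n) 2 := closedBall_subset_closedBall (by norm_num) hv
    have hv4 := h24 hv2
    have hvn : ‖v‖ ≤ 5 / 4 := by simpa using hv
    by_cases hvZ : φ.symm v ∈ closure {x : X | InfOrbit g x}
    · have h1 : ‖B ((δ : E n →ᵇ ℂ) : C(E n, ℂ)) v‖ ≤ 0 := by
        refine hB4 _ _ v hv4 fun k hk => ?_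
        have h2 : (δ : E n →ᵇ ℂ) (φ (k • φ.symm v)) = 0 := by
          refine δ.2 _ (Or.inr ⟨?_, Or.inl ?_⟩)
          · have h4 := (hsm k hk v hv4).2
            rw [dist_eq_norm] at h4
            simp only [mem_closedBall, dist_zero_right]
            calc ‖φ (k • φ.symm v)‖ = ‖(φ (k • φ.symm v) - v) + v‖ := by congr 1; abel
              _ ≤ _ := norm_add_le _ _
              _ ≤ 4 := by linarith
          · show φ.symm (φ (k • φ.symm v)) ∈ closure {x : X | InfOrbit g x}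
            rw [φ.left_inv (hsm k hk v hv4).1]
            exact clI_closure hk hvZ
        show ‖(δ : E n →ᵇ ℂ) (φ (k • φ.symm v))‖ ≤ 0
        rw [h2, norm_zero]
      have h2 : B ((δ : E n →ᵇ ℂ) : C(E n, ℂ)) v = 0 := norm_le_zero_iff.1 h1
      show Ψ0 v + B _ v ≠ 0
      rw [h2, add_zero]
      exact hΨ3 v hv2 hvZ hFv
    · have hvW : v ∉ Wset n φ g := by
        rintro (h1 | ⟨-, h1 | h1⟩)
        · have h3 : 5 / 2 ≤ ‖v‖ := h1
          linarith
        · exact hvZ h1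
        · exact hfix v hv2 hFv h1
      obtain ⟨c, r, d, h1, h2, h3⟩ := exists_adm ht hs (by linarith : ‖v‖ < 2) hvW
      exact hδG (c, r, d) h1 v h2 h3 hFv

/-- the local theorem: triviality near the origin of a chart -/
theorem triv_crit (hCIRC : S_CIRC) (hn : 1 ≤ n) [T2Space X] [T2Space H] {p : ℕ} (hp : p.Prime)
    (hg : Tendsto (fun j : ℕ => g ^ p ^ j) atTop (𝓝 1))
    (hcomp : IsCompact ((Subgroup.zpowers g).topologicalClosure : Set H))
    (hs : Small φ ((Subgroup.zpowers g).topologicalClosure : Set H)) :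
    ∃ F0 : E n → E n, ContinuousOn F0 (closedBall 0 4) ∧
      (∀ v ∈ closedBall (0 : E n) 4, dist (F0 v) v < 1 / 4) ∧
      (∀ v ∈ closedBall (0 : E n) 4, g • φ.symm v = φ.symm v → F0 v = v) ∧
      (∀ (b : ℝ), ∀ v ∈ closedBall (0 : E n) 4, ∀ v' ∈ closedBall (0 : E n) 4,
        (∀ q ∈ (Subgroup.zpowers g).topologicalClosure,
          dist (φ (q • φ.symm v)) (φ (q • φ.symm v')) ≤ b) → dist (F0 v) (F0 v') ≤ b) ∧
      ((∀ y ∈ ball (0 : E n) 1, ∀ ε : ℝ, 0 < ε → ∃ y' ∈ ball (0 : E n) 1, dist y' y < ε ∧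
        (g • φ.symm y' = φ.symm y' ∨ ∃ Ψ : E n → ℂ, ContinuousOn Ψ (closedBall 0 2) ∧
          (∀ v ∈ closedBall (0 : E n) (7 / 4), Ψ (φ (g • φ.symm v)) =
            Complex.exp (2 * Real.pi * Complex.I / p) * Ψ v) ∧
          ∀ v ∈ closedBall (0 : E n) 2, φ.symm v ∈ closure {x : X | InfOrbit g x} →
            F0 v = y' → Ψ v ≠ 0)) → ∀ v ∈ ball (0 : E n) 1, g • φ.symm v = φ.symm v) := by
  classical
  obtain ⟨F0, hF1, hF2, hF2', hF3, hgen⟩ := exists_gen hcomp hs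
  refine ⟨F0, hF1, hF2, hF2', hF3, ?_⟩
  intro hyp v0 hv0
  by_contra hne
  have ht := hs.1
  have hsm := hs.2
  have hgmem : g ∈ (Subgroup.zpowers g).topologicalClosure :=
    Subgroup.le_topologicalClosure _ (Subgroup.mem_zpowers g)
  have h14 : ball (0 : E n) 1 ⊆ closedBall 0 4 :=
    ball_subset_closedBall.trans (closedBall_subset_closedBall (by norm_num))
  have h23 : closedBall (0 : E n) 2 ⊆ closedBall 0 3 :=
    closedBall_subset_closedBall (by norm_num)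
  -- the good values
  have hY : ∀ a b : ℕ, ∃ y' : E n, y' ∈ ball (0 : E n) 1 ∧
      (denseSeq (E n) a ∈ ball (0 : E n) 1 → dist y' (denseSeq (E n) a) < 1 / ((b : ℝ) + 1)) ∧
      (g • φ.symm y' = φ.symm y' ∨ ∃ Ψ : E n → ℂ, ContinuousOn Ψ (closedBall 0 2) ∧
          (∀ v ∈ closedBall (0 : E n) (7 / 4), Ψ (φ (g • φ.symm v)) =
            Complex.exp (2 * Real.pi * Complex.I / p) * Ψ v) ∧
          ∀ v ∈ closedBall (0 : E n) 2, φ.symm v ∈ closure {x : X | InfOrbit g x} →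
            F0 v = y' → Ψ v ≠ 0) := by
    intro a b
    by_cases ha : denseSeq (E n) a ∈ ball (0 : E n) 1
    · obtain ⟨y', h1, h2, h3⟩ := hyp _ ha (1 / ((b : ℝ) + 1)) (by positivity)
      exact ⟨y', h1, fun _ => h2, h3⟩
    · obtain ⟨y', h1, h2, h3⟩ := hyp 0 (mem_ball_self one_pos) 1 one_pos
      exact ⟨y', h1, fun h => absurd h ha, h3⟩
  choose Y hY1 hY2 hY3 using hY
  obtain ⟨F, k1, k2, k3, k4, k5, k6⟩ := hgen (fun m => Y m.unpair.1 m.unpair.2)
  -- a value which is not fixed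
  have hopen : {v | v ∈ ball (0 : E n) 1 ∧ g • φ.symm v ≠ φ.symm v} ∈ 𝓝 v0 := by
    have hc : ContinuousAt φ.symm v0 := φ.continuousAt_symm (ht (h14 hv0))
    have hcl : IsClosed {x : X | g • x = x} := isClosed_eq (continuous_const_smul g) continuous_id
    have h1 : ∀ᶠ v in 𝓝 v0, φ.symm v ∈ {x : X | g • x = x}ᶜ :=
      hc.eventually_mem (hcl.isOpen_compl.mem_nhds hne)
    filter_upwards [isOpen_ball.mem_nhds hv0, h1] with v h2 h3
    exact ⟨h2, h3⟩
  obtain ⟨ε, hε, hball⟩ := Metric.mem_nhds_iff.1 hopen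
  obtain ⟨z, ⟨hz1, hz2⟩, a, rfl⟩ := (denseRange_denseSeq (E n)).inter_open_nonempty
    (ball v0 (ε / 2) ∩ ball 0 1) (isOpen_ball.inter isOpen_ball)
    ⟨v0, mem_ball_self (by positivity), hv0⟩
  obtain ⟨b, hb⟩ := exists_nat_one_div_lt (half_pos hε)
  have hYb : Y a b ∈ ball v0 ε := by
    have h1 := hY2 a b hz2
    rw [mem_ball] at hz1 ⊢
    calc dist (Y a b) v0 ≤ dist (Y a b) (denseSeq (E n) a) + dist (denseSeq (E n) a) v0 :=
          dist_triangle _ _ _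
      _ < ε := by linarith
  have hYn : g • φ.symm (Y a b) ≠ φ.symm (Y a b) := (hball hYb).2
  obtain ⟨Ψ0, p1, p2, p3⟩ := (hY3 a b).resolve_left hYn
  have hgen' : ∀ (c : ℕ) (r : ℚ) (d : ℕ) (i : Fin n) (t : ℚ),
      Adm n φ g (denseSeq (E n) c) (r : ℝ) d →
        ∀ x ∈ closedBall (denseSeq (E n) c) (r : ℝ), g ^ d • φ.symm x = φ.symm x →
          x i = (t : ℝ) → F x ≠ Y a b := by
    intro c r d i t h1 x h2 h3 h4
    have h5 := k6 (Nat.pair a b) c r d i t h1 x h2 h3 h4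
    simpa using h5
  obtain ⟨Ψ, q1, q2, q3⟩ := exists_equiv hp hg hcomp hs k1 hgen'
    (fun v hv hFv hgv => by
      have h1 := k4 v (h23 hv) hgv
      rw [hFv] at h1
      rw [h1] at hYn
      exact hYn hgv) p1 p2
    (fun v hv hvZ hFv => p3 v hv hvZ (by rw [← k5 v (h23 hv) hvZ]; exact hFv))
  -- the circle criterion
  have hT := locAct_of_small (Subgroup.zpowers g).topologicalClosure hs
  have hg' : Tendsto (fun j : ℕ => (⟨g, hgmem⟩ : (Subgroup.zpowers g).topologicalClosure) ^ p ^ j)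
      atTop (𝓝 1) := by
    rw [tendsto_subtype_rng]
    simpa using hg
  obtain ⟨x, hx, hFx, hΨx⟩ := hCIRC p hp n hn _ _ hT ⟨g, hgmem⟩ hg' F k1 k2 k3 (Y a b)
    (hY1 a b) Ψ q1 q2
  exact q3 x hx hFx hΨx

end

end Pool.Agent.N512.CC
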