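import Pool.Agent.N512.CC.D4

/-!
# Tents; local triviality from triviality in small charts
-/

set_option autoImplicit false
set_option linter.unusedSectionVars false

open MeasureTheory Set Metric Filter Topology TopologicalSpace
open scoped ENNReal NNReal BoundedContinuousFunction

namespace Pool.Agent.N512.CC

open Pool.Agent.Y485.HS Pool.Agent.Y489.SP Pool.Agent.Y475.HS Pool.Agent.R775.HS
  Pool.Agent.R775.HC Pool.Agent.N512.HS

/-- the tents -/
noncomputable def tent {n : ℕ} (c : E n) (r : ℝ) : C(E n, ℂ) :=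
  ⟨fun u => ((max 0 (r - dist u c) : ℝ) : ℂ), by fun_prop⟩

theorem tent_apply {n : ℕ} (c : E n) (r : ℝ) (u : E n) :
    tent c r u = ((max 0 (r - dist u c) : ℝ) : ℂ) := rfl

theorem tent_lip {n : ℕ} (c : E n) (r : ℝ) (u w : E n) :
    dist (tent c r u) (tent c r w) ≤ dist u w := by
  rw [tent_apply, tent_apply, Complex.dist_of_im_eq (by simp)]
  simp only [Complex.ofReal_re]
  rw [Real.dist_eq]
  have h1 : |max 0 (r - dist u c) - max 0 (r - dist w c)| ≤ |(r - dist u c) - (r - dist w c)| := by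
    have := abs_max_sub_max_le_max 0 (r - dist u c) 0 (r - dist w c)
    rw [sub_self, abs_zero] at this
    exact this.trans (max_le (abs_nonneg _) le_rfl)
  refine h1.trans ?_
  have h2 : (r - dist u c) - (r - dist w c) = dist w c - dist u c := by ring
  rw [h2, dist_comm u w]
  have h3 := dist_dist_dist_le_left w u c
  rwa [Real.dist_eq] at h3

/-- an element whose product with an element of the closure of the powers of `k ^ p` fixes a
point -/
theorem stab_gen {S X : Type} [TopologicalSpace X] [T2Space X] [Group S] [TopologicalSpace S]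
    [IsTopologicalGroup S] [CompactSpace S]
    [T2Space S] [TotallyDisconnectedSpace S] [MulAction S X] [ContinuousSMul S X] {p : ℕ}
    (hp : p.Prime) {k : S}
    (hk : Tendsto (fun j : ℕ => k ^ p ^ j) atTop (𝓝 1)) {i : ℕ} (hi : 0 < i) (hip : i < p)
    {q : S} (hq : q ∈ (Subgroup.zpowers (k ^ p)).topologicalClosure) {x : X}
    (hx : (k ^ i * q) • x = x) : k • x = x := by
  have hkm : k ∈ (Subgroup.zpowers k).topologicalClosure :=
    Subgroup.le_topologicalClosure _ (Subgroup.mem_zpowers k)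
  have hsub : (Subgroup.zpowers (k ^ p)).topologicalClosure ≤
      (Subgroup.zpowers k).topologicalClosure :=
    Subgroup.topologicalClosure_minimal _ ((Subgroup.zpowers_le).2 (Subgroup.pow_mem _ hkm p))
      (Subgroup.isClosed_topologicalClosure _)
  have hcop : Nat.Coprime i p := Nat.Coprime.symm ((Nat.Prime.coprime_iff_not_dvd hp).2 fun h =>
    absurd (Nat.le_of_dvd hi h) (by omega))
  obtain ⟨i', hi'⟩ : ∃ i' : ℕ, i * i' ≡ 1 [MOD p] := by
    obtain ⟨m, -, hm⟩ := Nat.exists_mul_mod_eq_one_of_coprime hcop hp.one_lt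
    refine ⟨m, ?_⟩
    rw [Nat.ModEq, hm, Nat.mod_eq_of_lt hp.one_lt]
  obtain ⟨t, ht⟩ : ∃ t : ℕ, i * i' = 1 + p * t := by
    have h1 : 1 ≤ i * i' := by
      rcases Nat.eq_zero_or_pos (i * i') with h | h
      · rw [h] at hi'
        have h2 := hi'.symm
        rw [Nat.modEq_zero_iff_dvd] at h2
        exact absurd (Nat.le_of_dvd one_pos h2) (by have := hp.two_le; omega)
      · exact h
    obtain ⟨t, ht⟩ := (Nat.modEq_iff_dvd' h1).1 hi'.symm
    exact ⟨t, by omega⟩
  have hcq : Commute (k ^ i) q := comm_closure (Subgroup.pow_mem _ hkm i) (hsub hq)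
  have h1 : (k ^ i * q) ^ i' = k * ((k ^ p) ^ t * q ^ i') := by
    rw [hcq.mul_pow, ← pow_mul, ht, pow_add, pow_one, pow_mul, mul_assoc]
  have h2 : (k * ((k ^ p) ^ t * q ^ i')) • x = x := by
    rw [← h1]
    have h3 : k ^ i * q ∈ MulAction.stabilizer S x := hx
    exact (MulAction.stabilizer S x).pow_mem h3 i'
  have hd : (k ^ p) ^ t * q ^ i' ∈ (Subgroup.zpowers (k ^ p)).topologicalClosure :=
    Subgroup.mul_mem _ (Subgroup.pow_mem _
      (Subgroup.le_topologicalClosure _ (Subgroup.mem_zpowers _)) t) (Subgroup.pow_mem _ hq i')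
  exact fix_closure (gen_mem hk hd) h2

section
variable {n : ℕ} {X : Type} [TopologicalSpace X]

/-- a tent whose twisted average is different from zero at a point -/
theorem exists_tent [T2Space X] {S : Type} [Group S] [TopologicalSpace S]
    [IsTopologicalGroup S] [CompactSpace S] [T2Space S] [TotallyDisconnectedSpace S]
    [MulAction S X] [ContinuousSMul S X] {p : ℕ} (hp : p.Prime) {k : S}
    (hk : Tendsto (fun j : ℕ => k ^ p ^ j) atTop (𝓝 1)) {φ : OpenPartialHomeomorph X (E n)}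
    (hs : Small φ ((Subgroup.zpowers k).topologicalClosure : Set S))
    {B : C(E n, ℂ) → E n → ℂ}
    (hB6 : ∀ ψ, ∀ v ∈ closedBall (0 : E n) 4, (∀ u, ∃ a : ℝ, 0 ≤ a ∧ ψ u = (a : ℂ)) → ψ v ≠ 0 →
        (∀ i, 0 < i → i < p → ∀ q ∈ (Subgroup.zpowers (k ^ p)).topologicalClosure,
          ψ (φ ((k ^ i * q) • φ.symm v)) = 0) → B ψ v ≠ 0)
    {v : E n} (hv : v ∈ closedBall (0 : E n) 4) (hne : k • φ.symm v ≠ φ.symm v) :
    ∃ (a : ℕ) (r : ℚ), B (tent (denseSeq (E n) a) (r : ℝ)) v ≠ 0 := by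
  classical
  have ht := hs.1
  have hsm := hs.2
  have hkm : k ∈ (Subgroup.zpowers k).topologicalClosure :=
    Subgroup.le_topologicalClosure _ (Subgroup.mem_zpowers k)
  have hsub : (Subgroup.zpowers (k ^ p)).topologicalClosure ≤
      (Subgroup.zpowers k).topologicalClosure :=
    Subgroup.topologicalClosure_minimal _ ((Subgroup.zpowers_le).2 (Subgroup.pow_mem _ hkm p))
      (Subgroup.isClosed_topologicalClosure _)
  have hmem : ∀ i : ℕ, ∀ q ∈ (Subgroup.zpowers (k ^ p)).topologicalClosure,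
      k ^ i * q ∈ ((Subgroup.zpowers k).topologicalClosure : Set S) := fun i q hq =>
    Subgroup.mul_mem _ (Subgroup.pow_mem _ hkm i) (hsub hq)
  set M : Set (E n) := ⋃ i ∈ Finset.Ioo 0 p, (fun q : S => φ ((k ^ i * q) • φ.symm v)) ''
    ((Subgroup.zpowers (k ^ p)).topologicalClosure : Set S) with hM
  have hMc : IsCompact M := by
    refine (Finset.Ioo 0 p).isCompact_biUnion fun i _ => ?_
    refine (Subgroup.isClosed_topologicalClosure _).isCompact.image_of_continuousOn ?_
    refine φ.continuousOn.comp ?_ fun q hq => (hsm _ (hmem i q hq) v hv).1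
    have hc : Continuous (fun q : S => (k ^ i * q) • φ.symm v) := by fun_prop
    exact hc.continuousOn
  have hvM : v ∉ M := by
    intro h
    simp only [hM, mem_iUnion, Finset.mem_Ioo] at h
    obtain ⟨i, ⟨hi, hip⟩, q, hq, hqv⟩ := h
    apply hne
    have h1 := congrArg φ.symm hqv
    simp only at h1
    rw [φ.left_inv (hsm _ (hmem i q hq) v hv).1] at h1
    exact stab_gen hp hk hi hip hq h1
  obtain ⟨ρ, hρ, hρM⟩ := Metric.isOpen_iff.1 hMc.isClosed.isOpen_compl v hvM
  obtain ⟨c, hc, a, rfl⟩ := (denseRange_denseSeq (E n)).inter_open_nonempty (ball v (ρ / 4))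
    isOpen_ball ⟨v, mem_ball_self (by positivity)⟩
  rw [mem_ball, dist_comm] at hc
  obtain ⟨r, hr1, hr2⟩ := exists_rat_btwn (show ρ / 4 < ρ / 2 by linarith)
  refine ⟨a, r, hB6 _ v hv (fun u => ⟨_, le_max_left _ _, rfl⟩) ?_ ?_⟩
  · rw [tent_apply]
    have h1 : 0 < max 0 ((r : ℝ) - dist v (denseSeq (E n) a)) :=
      lt_max_of_lt_right (by linarith)
    exact_mod_cast h1.ne'
  · intro i hi hip q hq
    rw [tent_apply]
    have hw : φ ((k ^ i * q) • φ.symm v) ∈ M := by
      simp only [hM, mem_iUnion, Finset.mem_Ioo]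
      exact ⟨i, ⟨hi, hip⟩, q, hq, rfl⟩
    have h1 : ρ ≤ dist (φ ((k ^ i * q) • φ.symm v)) v := by
      by_contra hcon
      push Not at hcon
      exact hρM (mem_ball.2 hcon) hw
    have h2 := dist_triangle_right (φ ((k ^ i * q) • φ.symm v)) v (denseSeq (E n) a)
    rw [max_eq_left (by linarith), Complex.ofReal_zero]

/-- triviality of the elements in small charts -/
def CritT {X H : Type} [TopologicalSpace X] [Group H] [TopologicalSpace H]
    [IsTopologicalGroup H] [MulAction H X] (A : Set (OpenPartialHomeomorph X (E n))) (g : H) :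
    Prop :=
  ∀ p : ℕ, p.Prime → Tendsto (fun j : ℕ => g ^ p ^ j) atTop (𝓝 1) →
    ∀ φ ∈ A, Small φ ((Subgroup.zpowers g).topologicalClosure : Set H) →
      ∀ v ∈ ball (0 : E n) 1, g • φ.symm v = φ.symm v

theorem locTriv2 {A : Set (OpenPartialHomeomorph X (E n))} [T2Space X] (hA : Stable n A)
    {H : Type} [Group H] [TopologicalSpace H] [IsTopologicalGroup H] [CompactSpace H] [T2Space H]
    [TotallyDisconnectedSpace H] [MulAction H X] [ContinuousSMul H X]
    (hcrit : ∀ h : H, CritT A h) {x0 : X} (hx0 : x0 ∈ RegA A) :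
    ∃ K : Subgroup H, IsOpen (K : Set H) ∧ ∀ᶠ x in 𝓝 x0, ∀ k ∈ K, k • x = x := by
  obtain ⟨φ, hφ, hxφ, hφ0, K, hKo, hKs⟩ := start' hA (H := H) hx0
  have hKc : IsClosed (K : Set H) := Subgroup.isClosed_of_isOpen K hKo
  have : CompactSpace K := isCompact_iff_compactSpace.1 hKc.isCompact
  have hDc : IsClosed (trivSub K (φ.symm '' ball (0 : E n) 1) : Set K) :=
    isClosed_triv (Subtype.val : K → H) continuous_subtype_val _
  have hD : trivSub K (φ.symm '' ball (0 : E n) 1) = ⊤ := by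
    refine Pool.Agent.Y215.HS.syl K _ hDc ?_
    intro p hp P hPc hPp k hk
    have : CompactSpace P := isCompact_iff_compactSpace.1 hPc.isCompact
    have h1 : Tendsto (fun j : ℕ => (⟨k, hk⟩ : P) ^ p ^ j) atTop (𝓝 1) :=
      Pool.Agent.Y340.SP.t_POW p hp P hPp ⟨k, hk⟩
    have hc : Continuous (fun q : P => ((q : K) : H)) :=
      continuous_subtype_val.comp continuous_subtype_val
    have h2 : Tendsto (fun j : ℕ => (k : H) ^ p ^ j) atTop (𝓝 1) := by
      have h3 := (hc.tendsto 1).comp h1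
      simpa [Function.comp_def] using h3
    rintro _ ⟨v, hv, rfl⟩
    have hle : (Subgroup.zpowers (k : H)).topologicalClosure ≤ K :=
      Subgroup.topologicalClosure_minimal _ ((Subgroup.zpowers_le).2 k.2) hKc
    exact hcrit (k : H) p hp h2 φ hφ ⟨hKs.1, fun h hh => hKs.2 h (hle hh)⟩ v hv
  refine ⟨K, hKo, ?_⟩
  have hopen : IsOpen (φ.source ∩ φ ⁻¹' ball 0 1) :=
    φ.isOpen_inter_preimage isOpen_ball
  have hmem : x0 ∈ φ.source ∩ φ ⁻¹' ball 0 1 := ⟨hxφ, by simp [hφ0]⟩
  filter_upwards [hopen.mem_nhds hmem] with x hx k hk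
  have h1 : (⟨k, hk⟩ : K) ∈ trivSub K (φ.symm '' ball (0 : E n) 1) := by
    rw [hD]; exact Subgroup.mem_top _
  exact h1 x ⟨φ x, hx.2, φ.left_inv hx.1⟩

end

end Pool.Agent.N512.CC
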