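import Pool.Agent.N512.CC.D5

/-!
# Cosets which are uniformly Hölder on a closed set
-/

set_option autoImplicit false
set_option linter.unusedSectionVars false

open MeasureTheory Set Metric Filter Topology TopologicalSpace
open scoped ENNReal NNReal BoundedContinuousFunction

namespace Pool.Agent.N512.CC

open Pool.Agent.Y485.HS Pool.Agent.Y489.SP Pool.Agent.Y475.HS Pool.Agent.R775.HS
  Pool.Agent.R775.HC Pool.Agent.N512.HS

theorem ae_not_count {n : ℕ} (hn : 1 ≤ n) {N : Set (E n)} (hN : N.Countable) :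
    ∀ᵐ y : E n, y ∉ N := by
  have : Nontrivial (E n) := by
    refine ⟨0, EuclideanSpace.single ⟨0, hn⟩ 1, fun h => ?_⟩
    have h1 := congrArg (fun v : E n => v ⟨0, hn⟩) h
    simp at h1
  exact hN.ae_notMem volume

section
variable {n : ℕ} {X : Type} [TopologicalSpace X]

/-- a coset which is uniformly Hölder on a closed set which contains all points of the closure of
the set of the points of infinite orbit but countably many -/
theorem rel_coset2 (hCIRC : S_CIRC) (hNV : S_NV) (hn : 1 ≤ n) [T2Space X] {S : Type} [Group S]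
    [TopologicalSpace S]
    [IsTopologicalGroup S] [CompactSpace S] [T2Space S] [TotallyDisconnectedSpace S]
    [MulAction S X] [ContinuousSMul S X] {φ : OpenPartialHomeomorph X (E n)} {g s1 : S}
    {B P : Set (E n)} (hBo : IsOpen B) (hBt : B ⊆ φ.target) (hPc : IsClosed P)
    (hP : ({v | v ∈ B ∧ φ.symm v ∈ closure {x : X | InfOrbit g x}} \ P).Countable)
    (hs1 : ∀ v ∈ B, s1 • φ.symm v ∈ φ.source) {α C : ℝ} (hα : (n : ℝ) / (n + 2) < α)
    (hC : 0 ≤ C) {K : Subgroup S}
    (hKc : IsClosed (K : Set S)) (hKg : ∀ k ∈ K, k ∈ (Subgroup.zpowers g).topologicalClosure)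
    (hK : ∀ k ∈ K, ∀ v ∈ B ∩ P, ∀ v' ∈ B ∩ P,
      dist (φ ((s1 * k) • φ.symm v)) (φ ((s1 * k) • φ.symm v')) ≤ C * dist v v' ^ α)
    {v1 : E n} (hv1 : v1 ∈ B) :
    ∃ K1 : Subgroup K, IsOpen (K1 : Set K) ∧
      ∀ᶠ x in 𝓝 (φ.symm v1), ∀ k ∈ K1, k • x = x := by
  classical
  have : CompactSpace K := isCompact_iff_compactSpace.1 hKc.isCompact
  let A : Set (OpenPartialHomeomorph X (E n)) := {φ' | φ'.source ⊆ φ.source ∩ φ ⁻¹' B ∧
    ∃ L : ℝ, 0 ≤ L ∧ ∀ a ∈ φ'.source, ∀ a' ∈ φ'.source,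
      dist (φ' a) (φ' a') ≤ L * dist (φ (s1 • a)) (φ (s1 • a'))}
  have hA : Stable n A := by
    rintro φ' ⟨h1, L, hL0, hL⟩ e ⟨L', hL'⟩
    have hsub : (φ'.trans e).source ⊆ φ'.source := by
      rw [OpenPartialHomeomorph.trans_source]
      exact inter_subset_left
    refine ⟨hsub.trans h1, |L'| * L, by positivity, fun a ha a' ha' => ?_⟩
    have ha2 := ha
    have ha2' := ha'
    rw [OpenPartialHomeomorph.trans_source] at ha2 ha2'
    have e1 := (hL' (φ' a) ha2.2 (φ' a') ha2'.2).1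
    have e2 := hL a (hsub ha) a' (hsub ha')
    calc dist ((φ'.trans e) a) ((φ'.trans e) a') ≤ L' * dist (φ' a) (φ' a') := e1
      _ ≤ |L'| * dist (φ' a) (φ' a') := mul_le_mul_of_nonneg_right (le_abs_self _) dist_nonneg
      _ ≤ |L'| * (L * dist (φ (s1 • a)) (φ (s1 • a'))) := by gcongr
      _ = _ := by ring
  have hO : IsOpen (φ.source ∩ φ ⁻¹' B) := φ.isOpen_inter_preimage hBo
  have hx1 : φ.symm v1 ∈ RegA A := by
    refine ⟨((Homeomorph.smul s1).toOpenPartialHomeomorph.trans φ).restrOpen _ hO, ⟨?_, 1,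
      zero_le_one, ?_⟩, ?_⟩
    · rw [OpenPartialHomeomorph.restrOpen_source]
      exact inter_subset_right
    · intro a _ a' _
      rw [one_mul]
      exact le_of_eq rfl
    · rw [OpenPartialHomeomorph.restrOpen_source, OpenPartialHomeomorph.trans_source]
      refine ⟨⟨mem_univ _, ?_⟩, φ.map_target (hBt hv1), ?_⟩
      · show s1 • φ.symm v1 ∈ φ.source
        exact hs1 v1 hv1
      · show φ (φ.symm v1) ∈ B
        rw [φ.right_inv (hBt hv1)]
        exact hv1
  have hcrit : ∀ k : K, CritT A k := by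
    intro k p hp hkp φ' hφ' hsm
    obtain ⟨hφs, L, hL0, hL⟩ := hφ'
    have hcomp : IsCompact ((Subgroup.zpowers k).topologicalClosure : Set K) :=
      (Subgroup.isClosed_topologicalClosure _).isCompact
    obtain ⟨F0, f1, f2, f2', f3, f4⟩ := triv_crit hCIRC hn hp hkp hcomp hsm
    obtain ⟨Bo, hB1, hB2, hB3, hB4, hB5, hB6, hB7⟩ := exists_twop hp.pos hcomp hsm
    apply f4
    have h34 : closedBall (0 : E n) 3 ⊆ closedBall 0 4 :=
      closedBall_subset_closedBall (by norm_num)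
    have h23 : closedBall (0 : E n) 2 ⊆ closedBall 0 3 :=
      closedBall_subset_closedBall (by norm_num)
    have ht3 : closedBall (0 : E n) 3 ⊆ φ'.target := h34.trans hsm.1
    have hτs : ∀ v ∈ closedBall (0 : E n) 3, φ'.symm v ∈ φ'.source := fun v hv =>
      φ'.map_target (ht3 hv)
    have hτφ : ∀ v ∈ closedBall (0 : E n) 3, φ.symm (φ (φ'.symm v)) = φ'.symm v := fun v hv =>
      φ.left_inv (hφs (hτs v hv)).1
    -- the coordinates
    set τ : E n → E n := fun v => φ (φ'.symm v) with hτ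
    set σ : E n → E n := fun u => φ' (φ.symm u) with hσ
    have hτc : ContinuousOn τ (closedBall 0 3) :=
      φ.continuousOn.comp (φ'.continuousOn_symm.mono ht3) fun v hv => (hφs (hτs v hv)).1
    have hστ : ∀ v ∈ closedBall (0 : E n) 3, σ (τ v) = v := by
      intro v hv
      show φ' (φ.symm (φ (φ'.symm v))) = v
      rw [hτφ v hv, φ'.right_inv (ht3 hv)]
    set Q : Set (E n) := τ '' closedBall 0 3 ∩ P with hQ
    have hQc : IsCompact Q := ((isCompact_closedBall 0 3).image_of_continuousOn hτc).inter_right hPc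
    have hσm : ∀ u ∈ Q, σ u ∈ closedBall (0 : E n) 4 := by
      rintro _ ⟨⟨v, hv, rfl⟩, -⟩
      rw [hστ v hv]
      exact h34 hv
    have hval : ∀ u ∈ Q, u ∈ B ∩ P ∧ φ'.symm (σ u) = φ.symm u ∧
        ∀ q : K, q ∈ (Subgroup.zpowers k).topologicalClosure →
          (q : S) • φ.symm u ∈ φ'.source := by
      rintro _ ⟨⟨v, hv, rfl⟩, hvP⟩
      have e1 := hτφ v hv
      refine ⟨⟨(hφs (hτs v hv)).2, hvP⟩, ?_, fun q hq => ?_⟩
      · show φ'.symm (φ' (φ.symm (φ (φ'.symm v)))) = φ.symm (φ (φ'.symm v))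
        rw [e1, φ'.left_inv (hτs v hv)]
      · show (q : S) • φ.symm (φ (φ'.symm v)) ∈ φ'.source
        rw [e1]
        exact (hsm.2 q hq v (h34 hv)).1
    -- the Hölder estimates
    have hhol : ∀ q ∈ (Subgroup.zpowers k).topologicalClosure, ∀ u ∈ Q, ∀ u' ∈ Q,
        dist (φ' (q • φ'.symm (σ u))) (φ' (q • φ'.symm (σ u'))) ≤ L * C * dist u u' ^ α := by
      intro q hq u hu u' hu'
      obtain ⟨g1, hx2, hx3⟩ := hval _ hu
      obtain ⟨g2, hy2, hy3⟩ := hval _ hu'
      rw [hx2, hy2]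
      have e1 := hL _ (hx3 q hq) _ (hy3 q hq)
      have e2 := hK (q : S) q.2 u g1 u' g2
      rw [mul_smul, mul_smul] at e2
      calc dist (φ' (q • φ.symm u)) (φ' (q • φ.symm u')) ≤
            L * dist (φ (s1 • (q : S) • φ.symm u)) (φ (s1 • (q : S) • φ.symm u')) := e1
        _ ≤ L * (C * dist u u' ^ α) := by gcongr
        _ = _ := by ring
    have hF0h : ∀ u ∈ Q, ∀ u' ∈ Q, dist (F0 (σ u)) (F0 (σ u')) ≤ L * C * dist u u' ^ α :=
      fun u hu u' hu' => f3 _ _ (hσm u hu) _ (hσm u' hu') fun q hq => hhol q hq u hu u' hu'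
    obtain ⟨e, he⟩ := exists_surjective_nat (ℕ × ℚ)
    let h : ℕ → C(E n, ℂ) := fun m => tent (denseSeq (E n) (e m).1) ((e m).2 : ℝ)
    have hBh : ∀ m, ∀ u ∈ Q, ∀ u' ∈ Q, dist (Bo (h m) (σ u)) (Bo (h m) (σ u')) ≤
        L * C * dist u u' ^ α :=
      fun m u hu u' hu' => hB7 _ _ _ (hσm u hu) _ (hσm u' hu') fun q hq =>
        (tent_lip _ _ _ _).trans (hhol q hq u hu u' hu')
    have hae : ∀ᵐ y : E n, ∀ m : ℕ, ∀ᵐ t : Fin m → ℂ, ∀ u ∈ Q, F0 (σ u) = y →
        (∃ i : Fin m, Bo (h i) (σ u) ≠ 0) → ∑ i, t i * Bo (h i) (σ u) ≠ 0 := by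
      rw [ae_all_iff]
      intro m
      exact hNV n hn m α (L * C) hα (by positivity) Q (fun u => F0 (σ u))
        (fun i u => Bo (h i) (σ u)) hQc hF0h fun i => hBh i
    have hcount := ae_not_count hn (hP.image fun u => F0 (σ u))
    intro y hy ε hε
    have hopen : (ball (0 : E n) 1 ∩ ball y ε) ∈ 𝓝 y :=
      inter_mem (isOpen_ball.mem_nhds hy) (ball_mem_nhds y hε)
    have hd := Measure.dense_of_ae (hae.and hcount)
    obtain ⟨y', ⟨hy1, hy2⟩, hy3, hy4⟩ := (mem_closure_iff_nhds.1 (hd y)) _ hopen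
    refine ⟨y', hy1, hy2, ?_⟩
    by_cases hfix : k • φ'.symm y' = φ'.symm y'
    · exact Or.inl hfix
    right
    have hyn : ‖y'‖ < 1 := by simpa using hy1
    -- the fibre
    set KZ : Set (E n) := {v | v ∈ closedBall (0 : E n) 2 ∧
      φ'.symm v ∈ closure {x : X | InfOrbit k x} ∧ F0 v = y'} with hKZ
    have hKZc : IsCompact KZ := by
      have h1 : KZ = (closedBall (0 : E n) 2 ∩ φ'.symm ⁻¹' closure {x : X | InfOrbit k x}) ∩
          (closedBall (0 : E n) 2 ∩ F0 ⁻¹' {y'}) := by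
        ext v
        simp only [hKZ, mem_ofPred_eq, mem_inter_iff, mem_preimage, mem_singleton_iff]
        tauto
      rw [h1]
      refine IsCompact.of_isClosed_subset (isCompact_closedBall _ _) ?_
        (inter_subset_left.trans inter_subset_left)
      refine IsClosed.inter ?_ ?_
      · exact (φ'.continuousOn_symm.mono (h23.trans ht3)).preimage_isClosed_of_isClosed
          isClosed_closedBall isClosed_closure
      · exact (f1.mono (h23.trans h34)).preimage_isClosed_of_isClosed isClosed_closedBall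
          isClosed_singleton
    have hcKZ : CompactSpace KZ := isCompact_iff_compactSpace.1 hKZc
    have hcov : ∀ v : KZ, ∃ m : ℕ, Bo (h m) v ≠ 0 := by
      intro v
      obtain ⟨hv2, hvZ, hvF⟩ := v.2
      have hv4 := h34 (h23 hv2)
      have hne : k • φ'.symm (v : E n) ≠ φ'.symm v := by
        intro hfx
        have h1 := f2' v hv4 hfx
        rw [hvF] at h1
        rw [h1] at hfix
        exact hfix hfx
      obtain ⟨a, r, har⟩ := exists_tent hp hkp hsm hB6 hv4 hne
      obtain ⟨m, hm⟩ := he (a, r)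
      refine ⟨m, ?_⟩
      show Bo (tent (denseSeq (E n) (e m).1) ((e m).2 : ℝ)) v ≠ 0
      rw [hm]
      exact har
    obtain ⟨T, hT⟩ := isCompact_univ.elim_finite_subcover (X := KZ)
      (fun m : ℕ => {v : KZ | Bo (h m) v ≠ 0}) (fun m => by
        have hc : Continuous (fun v : KZ => Bo (h m) v) :=
          (hB1 (h m)).comp_continuous continuous_subtype_val fun v => h34 (h23 v.2.1)
        exact isOpen_ne_fun hc continuous_const) (fun v _ => by
        obtain ⟨m, hm⟩ := hcov v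
        exact mem_iUnion.2 ⟨m, hm⟩)
    set m : ℕ := T.sup id + 1 with hm
    obtain ⟨t, ht⟩ := (hy3 m).exists
    refine ⟨fun v => ∑ i : Fin m, t i * Bo (h i) v, ?_, ?_, ?_⟩
    · exact continuousOn_finsetSum _ fun i _ =>
        continuousOn_const.mul ((hB1 _).mono (h23.trans h34))
    · intro v hv
      have hv3 : v ∈ closedBall (0 : E n) 3 := closedBall_subset_closedBall (by norm_num) hv
      show ∑ i : Fin m, t i * Bo (h i) (φ' (k • φ'.symm v)) = _ * ∑ i : Fin m, t i * Bo (h i) v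
      rw [Finset.mul_sum]
      refine Finset.sum_congr rfl fun i _ => ?_
      rw [hB2 _ v hv3]
      ring
    · intro v hv2 hvZ hvF
      have hv3 := h23 hv2
      have hvKZ : v ∈ KZ := ⟨hv2, hvZ, hvF⟩
      obtain ⟨j, hjT, hj⟩ : ∃ j ∈ T, Bo (h j) v ≠ 0 := by
        have h1 := hT (mem_univ (⟨v, hvKZ⟩ : KZ))
        simp only [mem_iUnion] at h1
        obtain ⟨j, hjT, hj⟩ := h1
        exact ⟨j, hjT, hj⟩
      have hjm : j < m := Nat.lt_succ_of_le (Finset.le_sup (f := id) hjT)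
      have hsub : {x : X | InfOrbit k x} ⊆ {x : X | InfOrbit g x} := by
        intro x hx
        have hx' : InfOrbit (k : S) x := hx
        exact inf_of_mem (hKg _ k.2) hx'
      have hτB : τ v ∈ {v | v ∈ B ∧ φ.symm v ∈ closure {x : X | InfOrbit g x}} := by
        refine ⟨(hφs (hτs v hv3)).2, ?_⟩
        show φ.symm (φ (φ'.symm v)) ∈ _
        rw [hτφ v hv3]
        exact closure_mono hsub hvZ
      have hτP : τ v ∈ P := by
        by_contra hno
        apply hy4
        refine ⟨τ v, ⟨hτB, hno⟩, ?_⟩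
        show F0 (σ (τ v)) = y'
        rw [hστ v hv3]
        exact hvF
      have hτQ : τ v ∈ Q := ⟨mem_image_of_mem _ hv3, hτP⟩
      have h5 := ht (τ v) hτQ
      rw [hστ v hv3] at h5
      exact h5 hvF ⟨⟨j, hjm⟩, hj⟩
  exact locTriv2 hA (H := K) hcrit hx1

end

end Pool.Agent.N512.CC
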