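import Pool.Agent.N512.CC.Stm
import Pool.Agent.Y147.SP.INT
import Pool.Agent.Y236.SP.COMPT
import Pool.Agent.Y255.SP.HOMT
import Pool.Agent.Y983.SP.DEGP
import Pool.Agent.N512.HS.A1

/-!
# Project CC, part DEG (helper163): a degree theory for continuous maps

The degree of a continuous map which is the identity outside of a ball on an open bounded set `U` at a
point `y` which is not a value on the frontier of `U`: the integer `d` with
`∫_U φ(F0 x) det DF0 = d ∫ φ` for all `C¹` maps `F0` close to `f` and all continuous `φ` supported close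
to `y`. Everything analytic is quoted from the starting library.
-/

set_option autoImplicit false

open MeasureTheory Set Metric Filter Topology
open scoped ENNReal NNReal

namespace Pool.Agent.N512.CC.Deg

open Pool.Agent.Y485.HS Pool.Agent.Y489.SP

/-- compactness -/
theorem small {X : Type*} [TopologicalSpace X] {A : ℝ → Set X} (hc : ∀ ε, 0 < ε → IsClosed (A ε))
    (hm : ∀ ε ε', 0 < ε → ε ≤ ε' → A ε ⊆ A ε') (hK : IsCompact (A 1))
    (h0 : ∀ x, (∀ ε, 0 < ε → x ∈ A ε) → False) : ∃ ε : ℝ, 0 < ε ∧ A ε = ∅ := by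
  have hne : Nonempty {ε : ℝ // 0 < ε} := ⟨⟨1, one_pos⟩⟩
  obtain ⟨⟨ε, hε⟩, h1⟩ := hK.elim_directed_cover (fun ε : {ε : ℝ // 0 < ε} => (A ε)ᶜ)
    (fun ε => (hc ε ε.2).isOpen_compl) (by
      intro x _
      have h1 : ∃ ε, 0 < ε ∧ x ∉ A ε := by
        by_contra hcon
        push Not at hcon
        exact h0 x hcon
      obtain ⟨ε, hε, h2⟩ := h1
      exact mem_iUnion.2 ⟨⟨ε, hε⟩, h2⟩) (by
      intro a b
      refine ⟨⟨min a b, lt_min a.2 b.2⟩, ?_, ?_⟩
      · exact compl_subset_compl.2 (hm _ _ (lt_min a.2 b.2) (min_le_left _ _))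
      · exact compl_subset_compl.2 (hm _ _ (lt_min a.2 b.2) (min_le_right _ _)))
  refine ⟨min ε 1, lt_min hε one_pos, ?_⟩
  ext x
  simp only [mem_empty_iff_false, iff_false]
  intro hx
  have h2 : x ∈ A 1 := hm _ _ (lt_min hε one_pos) (min_le_right _ _) hx
  exact h1 h2 (hm _ _ (lt_min hε one_pos) (min_le_left _ _) hx)

variable {n : ℕ}

/-- the preimage of a ball is bounded -/
theorem cls_bdd {f : E n → E n} (hf : Cls f) (y : E n) :
    Bornology.IsBounded {x | dist (f x) y ≤ 1} := by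
  obtain ⟨-, R, hR⟩ := hf
  refine (Metric.isBounded_closedBall (x := (0 : E n)) (r := max R (‖y‖ + 1))).subset ?_
  intro x hx
  rw [mem_closedBall_zero_iff]
  by_cases h : R ≤ ‖x‖
  · have h1 : dist (f x) y ≤ 1 := hx
    rw [hR x h, dist_eq_norm] at h1
    have h2 := norm_add_le y (x - y)
    rw [add_sub_cancel] at h2
    exact le_max_of_le_right (by linarith)
  · exact le_max_of_le_left (le_of_lt (not_le.1 h))

/-- uniform continuity -/
theorem cls_uc {f : E n → E n} (hf : Cls f) : UniformContinuous f := by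
  obtain ⟨hc, R, hR⟩ := hf
  have h1 : HasCompactSupport (fun x => f x - x) := by
    apply HasCompactSupport.of_support_subset_isCompact (isCompact_closedBall (0 : E n) R)
    intro x hx
    rw [mem_closedBall_zero_iff]
    by_contra hcon
    exact hx (by simp [hR x (le_of_lt (not_le.1 hcon))])
  have h2 : UniformContinuous (fun x => f x - x) :=
    h1.uniformContinuous_of_continuous (hc.sub continuous_id)
  have h3 : f = fun x => (f x - x) + x := by
    funext x
    abel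
  rw [h3]
  exact h2.add uniformContinuous_id

/-- the class is closed under composition -/
theorem cls_comp {f τ : E n → E n} (hf : Cls f) (hτ : Cls τ) : Cls (fun x => f (τ x)) := by
  obtain ⟨hc, R, hR⟩ := hf
  obtain ⟨hc', R', hR'⟩ := hτ
  refine ⟨hc.comp hc', max R R', fun x hx => ?_⟩
  show f (τ x) = x
  rw [hR' x ((le_max_right _ _).trans hx), hR x ((le_max_left _ _).trans hx)]

/-- smooth approximation -/
theorem approx {f : E n → E n} (hf : Cls f) {e : ℝ} (he : 0 < e) :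
    ∃ (F0 : E n → E n) (R : ℝ), ContDiff ℝ 1 F0 ∧ (∀ x, R ≤ ‖x‖ → F0 x = x) ∧
      ∀ x, dist (F0 x) (f x) < e := by
  obtain ⟨hc, R, hR⟩ := hf
  obtain ⟨g, hg, hgf⟩ := Pool.Agent.N512.HS.smooth_approx (f := fun x => f x - x)
    (hc.sub continuous_id) he
  let χ : ContDiffBump (0 : E n) := ⟨max R 1, max R 1 + 1, by positivity, by linarith⟩
  refine ⟨fun x => x + χ x • g x, max R 1 + 1, ?_, ?_, ?_⟩
  · exact contDiff_id.add (χ.contDiff.smul hg)
  · intro x hx
    have h1 : χ x = 0 := χ.zero_of_le_dist (by rw [dist_zero_right]; exact hx)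
    simp [h1]
  · intro x
    by_cases h : ‖x‖ ≤ max R 1
    · have h1 : χ x = 1 := χ.one_of_mem_closedBall (mem_closedBall_zero_iff.2 h)
      have h2 := hgf x
      rw [dist_eq_norm] at h2 ⊢
      show ‖x + χ x • g x - f x‖ < e
      rw [h1, one_smul]
      have h3 : x + g x - f x = g x - (f x - x) := by abel
      rw [h3]
      exact h2
    · have h1 : f x = x := hR x ((le_max_left _ _).trans (le_of_lt (not_le.1 h)))
      have h2 := hgf x
      rw [dist_eq_norm, h1, sub_self, sub_zero] at h2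
      show dist (x + χ x • g x) (f x) < e
      rw [dist_eq_norm, h1, add_sub_cancel_left, norm_smul, Real.norm_of_nonneg χ.nonneg]
      calc χ x * ‖g x‖ ≤ 1 * ‖g x‖ := mul_le_mul_of_nonneg_right χ.le_one (norm_nonneg _)
        _ < e := by rw [one_mul]; exact h2

/-- a function supported close to a point -/
theorem bump (y : E n) {e : ℝ} (he : 0 < e) : ∃ φ : E n → ℝ, Continuous φ ∧
    (∀ w, e ≤ dist w y → φ w = 0) ∧ 0 < ∫ w, φ w := by
  have hφc : Continuous fun w : E n => max 0 (e - dist w y) := by fun_prop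
  have hφ0 : ∀ w : E n, e ≤ dist w y → max 0 (e - dist w y) = 0 := fun w hw =>
    max_eq_left (by linarith)
  have hφs : HasCompactSupport fun w : E n => max 0 (e - dist w y) := by
    apply HasCompactSupport.of_support_subset_isCompact (isCompact_closedBall y e)
    intro w hw
    by_contra hcon
    exact hw (hφ0 w (le_of_lt (not_le.1 hcon)))
  refine ⟨fun w => max 0 (e - dist w y), hφc, hφ0, ?_⟩
  apply hφc.integral_pos_of_hasCompactSupport_nonneg_nonzero (x := y) hφs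
  · intro w
    exact le_max_left _ _
  · show max 0 (e - dist y y) ≠ 0
    rw [dist_self, sub_zero, max_eq_right he.le]
    exact he.ne'

/-- the characterization of the degree -/
def Pd (f : E n → E n) (U : Set (E n)) (y : E n) (d : ℤ) : Prop :=
  ∃ e : ℝ, 0 < e ∧ ∀ (F0 : E n → E n) (R : ℝ), ContDiff ℝ 1 F0 → (∀ x, R ≤ ‖x‖ → F0 x = x) →
    (∀ x, dist (F0 x) (f x) < e) → ∀ φ : E n → ℝ, Continuous φ →
      (∀ w, e ≤ dist w y → φ w = 0) →
      ∫ x in U, φ (F0 x) * (fderiv ℝ F0 x).det = d * ∫ w, φ w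

/-- uniqueness -/
theorem uniq {f : E n → E n} (hf : Cls f) {U : Set (E n)} {y : E n} {d d' : ℤ}
    (h : Pd f U y d) (h' : Pd f U y d') : d = d' := by
  obtain ⟨e, he, H⟩ := h
  obtain ⟨e', he', H'⟩ := h'
  obtain ⟨F0, R, h1, h2, h3⟩ := approx hf (lt_min he he')
  obtain ⟨φ, h4, h5, h6⟩ := bump y (lt_min he he')
  have e1 := H F0 R h1 h2 (fun x => (h3 x).trans_le (min_le_left _ _)) φ h4
    (fun w hw => h5 w ((min_le_left _ _).trans hw))
  have e2 := H' F0 R h1 h2 (fun x => (h3 x).trans_le (min_le_right _ _)) φ h4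
    (fun w hw => h5 w ((min_le_right _ _).trans hw))
  rw [e1] at e2
  exact_mod_cast mul_right_cancel₀ h6.ne' e2

/-- distance from the value close to the frontier -/
theorem margin {f0 f1 : E n → E n} (h0 : Continuous f0) (h1 : Continuous f1) {U : Set (E n)}
    (hU : IsOpen U) (hb : Bornology.IsBounded U) {y : E n}
    (h : ∀ x ∈ frontier U, ∀ t ∈ Icc (0 : ℝ) 1, f0 x + t • (f1 x - f0 x) ≠ y) :
    ∃ ε : ℝ, 0 < ε ∧ ∀ x ∈ thickening ε U \ U, ∀ t ∈ Icc (0 : ℝ) 1,
      ε ≤ dist (f0 x + t • (f1 x - f0 x)) y := by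
  have hcl : ∀ ε : ℝ, IsClosed {q : E n × ℝ | (q.1 ∈ cthickening ε U ∧ q.1 ∈ Uᶜ) ∧
      (q.2 ∈ Icc (0 : ℝ) 1 ∧ dist (f0 q.1 + q.2 • (f1 q.1 - f0 q.1)) y ≤ ε)} := by
    intro ε
    have hc0 : Continuous fun q : E n × ℝ => f0 q.1 := h0.comp continuous_fst
    have hc1 : Continuous fun q : E n × ℝ => f1 q.1 := h1.comp continuous_fst
    have hc : Continuous fun q : E n × ℝ => dist (f0 q.1 + q.2 • (f1 q.1 - f0 q.1)) y :=
      (hc0.add (continuous_snd.smul (hc1.sub hc0))).dist continuous_const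
    have c1 : IsClosed {q : E n × ℝ | dist (f0 q.1 + q.2 • (f1 q.1 - f0 q.1)) y ≤ ε} :=
      isClosed_le hc continuous_const
    exact IsClosed.inter (IsClosed.inter (isClosed_cthickening.preimage continuous_fst)
      (hU.isClosed_compl.preimage continuous_fst))
      (IsClosed.inter (isClosed_Icc.preimage continuous_snd) c1)
  have hK : IsCompact {q : E n × ℝ | (q.1 ∈ cthickening 1 U ∧ q.1 ∈ Uᶜ) ∧
      (q.2 ∈ Icc (0 : ℝ) 1 ∧ dist (f0 q.1 + q.2 • (f1 q.1 - f0 q.1)) y ≤ 1)} := by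
    refine IsCompact.of_isClosed_subset
      ((hb.cthickening (δ := 1)).isCompact_closure.prod (isCompact_Icc (a := (0 : ℝ)) (b := 1)))
      (hcl 1) ?_
    rintro q ⟨⟨h1, h2⟩, h3, h4⟩
    exact ⟨subset_closure h1, h3⟩
  obtain ⟨ε, hε, hA⟩ := small (A := fun ε : ℝ => {q : E n × ℝ | (q.1 ∈ cthickening ε U ∧ q.1 ∈ Uᶜ) ∧
      (q.2 ∈ Icc (0 : ℝ) 1 ∧ dist (f0 q.1 + q.2 • (f1 q.1 - f0 q.1)) y ≤ ε)})
    (fun ε _ => hcl ε) (by
      rintro ε ε' _ hle q ⟨⟨h1, h2⟩, h3, h4⟩
      exact ⟨⟨cthickening_mono hle _ h1, h2⟩, h3, h4.trans hle⟩) hK (by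
      intro q hq
      have e1 : q.1 ∈ closure U := by
        rw [closure_eq_iInter_cthickening]
        refine mem_iInter.2 fun δ => mem_iInter.2 fun hδ => (hq δ hδ).1.1
      have e2 : q.1 ∈ frontier U := by
        rw [hU.frontier_eq]
        exact ⟨e1, (hq 1 one_pos).1.2⟩
      have e3 : dist (f0 q.1 + q.2 • (f1 q.1 - f0 q.1)) y ≤ 0 :=
        le_of_forall_pos_le_add fun ε hε => by
          rw [zero_add]
          exact (hq ε hε).2.2
      exact h q.1 e2 q.2 (hq 1 one_pos).2.1 (dist_le_zero.1 e3))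
  refine ⟨ε, hε, fun x hx t ht => ?_⟩
  by_contra hcon
  have : ((x, t) : E n × ℝ) ∈ (∅ : Set (E n × ℝ)) := by
    rw [← hA]
    exact ⟨⟨thickening_subset_cthickening _ _ hx.1, hx.2⟩, ht, le_of_lt (not_le.1 hcon)⟩
  exact this

/-- convex combinations of close maps -/
theorem lin_close {a0 a1 b0 b1 : E n} {ε t : ℝ} (h0 : dist b0 a0 ≤ ε) (h1 : dist b1 a1 ≤ ε)
    (ht : t ∈ Icc (0 : ℝ) 1) : dist (b0 + t • (b1 - b0)) (a0 + t • (a1 - a0)) ≤ ε := by
  rw [dist_eq_norm] at *
  have h6 : b0 + t • (b1 - b0) - (a0 + t • (a1 - a0)) = (1 - t) • (b0 - a0) + t • (b1 - a1) := by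
    module
  rw [h6]
  calc ‖(1 - t) • (b0 - a0) + t • (b1 - a1)‖
      ≤ ‖(1 - t) • (b0 - a0)‖ + ‖t • (b1 - a1)‖ := norm_add_le _ _
    _ = (1 - t) * ‖b0 - a0‖ + t * ‖b1 - a1‖ := by
        rw [norm_smul, norm_smul, Real.norm_of_nonneg (by linarith [ht.2]),
          Real.norm_of_nonneg ht.1]
    _ ≤ (1 - t) * ε + t * ε :=
        add_le_add (mul_le_mul_of_nonneg_left h0 (by linarith [ht.2]))
          (mul_le_mul_of_nonneg_left h1 ht.1)
    _ = ε := by ring

/-- homotopy -/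
theorem hom_core {f0 f1 : E n → E n} (h0 : Cls f0) (h1 : Cls f1) {U : Set (E n)}
    (hU : IsOpen U) (hb : Bornology.IsBounded U) {y : E n}
    (h : ∀ x ∈ frontier U, ∀ t ∈ Icc (0 : ℝ) 1, f0 x + t • (f1 x - f0 x) ≠ y) :
    ∃ ε : ℝ, 0 < ε ∧ ∀ (F0 F1 : E n → E n) (R : ℝ), ContDiff ℝ 1 F0 → ContDiff ℝ 1 F1 →
      (∀ x, R ≤ ‖x‖ → F0 x = x) → (∀ x, dist (F0 x) (f0 x) < ε) → (∀ x, dist (F1 x) (f1 x) < ε) →
      ∀ φ : E n → ℝ, Continuous φ → (∀ w, ε ≤ dist w y → φ w = 0) →
        ∫ x in U, φ (F1 x) * (fderiv ℝ F1 x).det = ∫ x in U, φ (F0 x) * (fderiv ℝ F0 x).det := by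
  obtain ⟨ε, hε, hm⟩ := margin h0.1 h1.1 hU hb h
  refine ⟨ε / 4, by positivity, ?_⟩
  intro F0 F1 R hF0 hF1 hR hc0 hc1 φ hφ hφ0
  refine Pool.Agent.Y255.SP.t_HOMT n F0 F1 R hF0 hF1 hR U (thickening ε U) ε (ε / 4) y hU hb.thickening hε
    (by positivity) Subset.rfl ?_ φ hφ hφ0
  intro x hx t ht
  have h2 := hm x hx t ht
  have h3 := lin_close (hc0 x).le (hc1 x).le ht
  have h4 := dist_triangle (f0 x + t • (f1 x - f0 x)) (F0 x + t • (F1 x - F0 x)) y
  rw [dist_comm (f0 x + t • (f1 x - f0 x)) (F0 x + t • (F1 x - F0 x))] at h4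
  linarith

/-- existence -/
theorem exi {f : E n → E n} (hf : Cls f) {U : Set (E n)} (hU : IsOpen U)
    (hb : Bornology.IsBounded U) {y : E n} (hy : ∀ x ∈ frontier U, f x ≠ y) : ∃ d, Pd f U y d := by
  have hy' : ∀ x ∈ frontier U, ∀ t ∈ Icc (0 : ℝ) 1, f x + t • (f x - f x) ≠ y := by
    intro x hx t _
    rw [sub_self, smul_zero, add_zero]
    exact hy x hx
  obtain ⟨ε, hε, hm⟩ := margin hf.1 hf.1 hU hb hy'
  obtain ⟨ε', hε', hh⟩ := hom_core hf hf hU hb hy'
  obtain ⟨F0, R, hF0, hR, hc0⟩ := approx hf (lt_min (show 0 < ε / 4 by positivity) hε')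
  obtain ⟨d, hd⟩ := Pool.Agent.Y147.SP.t_INT Pool.Agent.Y255.SP.t_HOMT n F0 R hF0 hR U
    (thickening ε U) ε (ε / 4) y hU hb.thickening hε (by positivity) Subset.rfl (by
      intro x hx
      have h2 := hm x hx 0 (by simp)
      rw [zero_smul, add_zero] at h2
      have h3 := (hc0 x).trans_le (min_le_left _ _)
      have h4 := dist_triangle (f x) (F0 x) y
      rw [dist_comm (f x) (F0 x)] at h4
      linarith)
  refine ⟨d, min (ε / 8) ε', lt_min (by positivity) hε', ?_⟩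
  intro F1 R1 hF1 hR1 hc1 φ hφ hφ0
  rw [hh F0 F1 R hF0 hF1 hR (fun x => (hc0 x).trans_le (min_le_right _ _))
    (fun x => (hc1 x).trans_le (min_le_right _ _)) φ hφ
    (fun w hw => hφ0 w ((min_le_right _ _).trans hw))]
  exact hd φ hφ (fun w hw => hφ0 w ((min_le_left _ _).trans (by linarith)))

open Classical in
/-- the degree -/
noncomputable def deg (n : ℕ) (f : E n → E n) (U : Set (E n)) (y : E n) : ℤ :=
  if h : ∃ d, Pd f U y d then h.choose else 0

theorem deg_eq {f : E n → E n} (hf : Cls f) {U : Set (E n)} {y : E n} {d : ℤ}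
    (h : Pd f U y d) : deg n f U y = d := by
  have h' : ∃ d, Pd f U y d := ⟨d, h⟩
  unfold deg
  rw [dif_pos h']
  exact uniq hf h'.choose_spec h

theorem deg_spec {f : E n → E n} (hf : Cls f) {U : Set (E n)} (hU : IsOpen U)
    (hb : Bornology.IsBounded U) {y : E n} (hy : ∀ x ∈ frontier U, f x ≠ y) :
    Pd f U y (deg n f U y) := by
  obtain ⟨d, hd⟩ := exi hf hU hb hy
  rw [deg_eq hf hd]
  exact hd

/-- total degree -/
theorem tot {f : E n → E n} (hf : Cls f) {U : Set (E n)} (hU : IsOpen U) {y : E n}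
    (hy : ∀ x, f x = y → x ∈ U) : deg n f U y = 1 := by
  apply deg_eq hf
  obtain ⟨ε, hε, hA⟩ := small (A := fun ε => {x : E n | x ∈ Uᶜ ∧ dist (f x) y ≤ ε})
    (fun ε _ => hU.isClosed_compl.inter
      (isClosed_le (hf.1.dist continuous_const) continuous_const))
    (fun ε ε' _ hle x hx => ⟨hx.1, hx.2.trans hle⟩)
    (Metric.isCompact_of_isClosed_isBounded (hU.isClosed_compl.inter
      (isClosed_le (hf.1.dist continuous_const) continuous_const))
      ((cls_bdd hf y).subset fun x hx => hx.2))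
    (fun x hx => (hx 1 one_pos).1 (hy x (dist_le_zero.1 (le_of_forall_pos_le_add fun ε hε => by
        rw [zero_add]
        exact (hx ε hε).2))))
  refine ⟨ε / 2, by positivity, ?_⟩
  intro F0 R hF0 hR hc0 φ hφ hφ0
  have hR' : ∀ x, max R 1 ≤ ‖x‖ → F0 x = x := fun x hx => hR x ((le_max_left _ _).trans hx)
  obtain ⟨K, hK⟩ := Pool.Agent.Y983.SP.DEGP.lip hF0 hR'
  have hφs : HasCompactSupport φ := by
    apply HasCompactSupport.of_support_subset_isCompact (isCompact_closedBall y (ε / 2))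
    intro w hw
    by_contra hcon
    exact hw (hφ0 w (le_of_lt (not_le.1 hcon)))
  have hDL := Pool.Agent.Y438.HS.dl n F0 K (max R 1) (by positivity) hK hR' φ hφ hφs
  rw [Int.cast_one, one_mul, ← hDL]
  apply setIntegral_eq_integral_of_forall_compl_eq_zero
  intro x hx
  have h1 : φ (F0 x) = 0 := by
    apply hφ0
    by_contra hcon
    have h2 : x ∈ (∅ : Set (E n)) := by
      rw [← hA]
      refine ⟨hx, ?_⟩
      have h4 := dist_triangle (f x) (F0 x) y
      rw [dist_comm (f x) (F0 x)] at h4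
      linarith [hc0 x]
    exact h2
  rw [h1, zero_mul]

/-- additivity -/
theorem add {f : E n → E n} (hf : Cls f) {U : Set (E n)} (hU : IsOpen U)
    (hb : Bornology.IsBounded U) {m : ℕ} {W : Fin m → Set (E n)} (hW : ∀ i, IsOpen (W i))
    (hd : ∀ i j, i ≠ j → Disjoint (W i) (W j)) (hWU : ∀ i, W i ⊆ U) {y : E n}
    (hy : ∀ x ∈ closure U, f x = y → ∃ i, x ∈ W i) :
    deg n f U y = ∑ i, deg n f (W i) y := by
  have hyU : ∀ x ∈ frontier U, f x ≠ y := by
    intro x hx hxy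
    rw [hU.frontier_eq] at hx
    obtain ⟨i, hi⟩ := hy x hx.1 hxy
    exact hx.2 (hWU i hi)
  have hyW : ∀ i, ∀ x ∈ frontier (W i), f x ≠ y := by
    intro i x hx hxy
    rw [(hW i).frontier_eq] at hx
    obtain ⟨j, hj⟩ := hy x (closure_mono (hWU i) hx.1) hxy
    by_cases hij : i = j
    · rw [hij] at hx
      exact hx.2 hj
    · obtain ⟨z, hz1, hz2⟩ := mem_closure_iff.1 hx.1 (W j) (hW j) hj
      exact Set.disjoint_left.1 (hd i j hij) hz2 hz1
  have hspec := deg_spec hf hU hb hyU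
  have hspecW := fun i => deg_spec hf (hW i) (hb.subset (hWU i)) (hyW i)
  obtain ⟨e, he, H⟩ := hspec
  choose e' he' H' using hspecW
  obtain ⟨ε, hε, hA⟩ := small
    (A := fun ε => {x : E n | x ∈ closure U ∩ (⋃ i, W i)ᶜ ∧ dist (f x) y ≤ ε})
    (fun ε _ => (isClosed_closure.inter (isOpen_iUnion hW).isClosed_compl).inter
      (isClosed_le (hf.1.dist continuous_const) continuous_const))
    (fun ε ε' _ hle x hx => ⟨hx.1, hx.2.trans hle⟩)
    (Metric.isCompact_of_isClosed_isBounded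
      ((isClosed_closure.inter (isOpen_iUnion hW).isClosed_compl).inter
      (isClosed_le (hf.1.dist continuous_const) continuous_const))
      ((cls_bdd hf y).subset fun x hx => hx.2))
    (fun x hx => by
      obtain ⟨i, hi⟩ := hy x (hx 1 one_pos).1.1 (dist_le_zero.1 (le_of_forall_pos_le_add
        fun ε hε => by
          rw [zero_add]
          exact (hx ε hε).2))
      exact (hx 1 one_pos).1.2 (mem_iUnion.2 ⟨i, hi⟩))
  obtain ⟨δ, hδ, hδe, hδε, hδe'⟩ : ∃ δ : ℝ, 0 < δ ∧ δ ≤ e ∧ δ ≤ ε / 2 ∧ ∀ i, δ ≤ e' i := by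
    rcases Nat.eq_zero_or_pos m with hm | hm
    · subst hm
      exact ⟨min e (ε / 2), lt_min he (by positivity), min_le_left _ _, min_le_right _ _,
        fun i => i.elim0⟩
    · have : Nonempty (Fin m) := ⟨⟨0, hm⟩⟩
      obtain ⟨i0, hi0⟩ := Finite.exists_min e'
      exact ⟨min (min e (ε / 2)) (e' i0), lt_min (lt_min he (by positivity)) (he' i0),
        (min_le_left _ _).trans (min_le_left _ _), (min_le_left _ _).trans (min_le_right _ _),
        fun i => (min_le_right _ _).trans (hi0 i)⟩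
  obtain ⟨F0, R, hF0, hR, hc0⟩ := approx hf hδ
  obtain ⟨φ, hφ, hφ0, hφp⟩ := bump y hδ
  have e1 := H F0 R hF0 hR (fun x => (hc0 x).trans_le hδe) φ hφ (fun w hw => hφ0 w (hδe.trans hw))
  have e2 := fun i => H' i F0 R hF0 hR (fun x => (hc0 x).trans_le (hδe' i)) φ hφ
    (fun w hw => hφ0 w ((hδe' i).trans hw))
  have hG : Continuous (fun x => φ (F0 x) * (fderiv ℝ F0 x).det) :=
    (hφ.comp hF0.continuous).mul
      (ContinuousLinearMap.continuous_det.comp (hF0.continuous_fderiv one_ne_zero))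
  have e3 : ∫ x in ⋃ i, W i, φ (F0 x) * (fderiv ℝ F0 x).det =
      ∑ i, ∫ x in W i, φ (F0 x) * (fderiv ℝ F0 x).det := by
    apply integral_iUnion_fintype
    · exact fun i => (hW i).measurableSet
    · intro i j hij
      exact hd i j hij
    · intro i
      have h1 : IntegrableOn (fun x => φ (F0 x) * (fderiv ℝ F0 x).det) (closure (W i)) :=
        hG.continuousOn.integrableOn_compact (hb.subset (hWU i)).isCompact_closure
      exact h1.mono_set subset_closure
  have e4 : ∫ x in U, φ (F0 x) * (fderiv ℝ F0 x).det =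
      ∫ x in ⋃ i, W i, φ (F0 x) * (fderiv ℝ F0 x).det := by
    apply setIntegral_eq_of_subset_of_forall_sdiff_eq_zero hU.measurableSet (iUnion_subset hWU)
    intro x hx
    have h1 : φ (F0 x) = 0 := by
      apply hφ0
      by_contra hcon
      have h2 : x ∈ (∅ : Set (E n)) := by
        rw [← hA]
        refine ⟨⟨subset_closure hx.1, hx.2⟩, ?_⟩
        have h4 := dist_triangle (f x) (F0 x) y
        rw [dist_comm (f x) (F0 x)] at h4
        linarith [hc0 x]
      exact h2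
    rw [h1, zero_mul]
  rw [e4, e3, Finset.sum_congr rfl fun i _ => e2 i, ← Finset.sum_mul] at e1
  have e5 := mul_right_cancel₀ hφp.ne' e1
  have e6 : (∑ i, deg n f (W i) y : ℤ) = deg n f U y := by exact_mod_cast e5
  exact e6.symm

/-- homotopy invariance -/
theorem hom {f0 f1 : E n → E n} (h0 : Cls f0) (h1 : Cls f1) {U : Set (E n)}
    (hU : IsOpen U) (hb : Bornology.IsBounded U) {y : E n}
    (h : ∀ x ∈ frontier U, ∀ t ∈ Icc (0 : ℝ) 1, f0 x + t • (f1 x - f0 x) ≠ y) :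
    deg n f0 U y = deg n f1 U y := by
  obtain ⟨e0, he0, H0⟩ := deg_spec h0 hU hb (fun x hx => by
    have := h x hx 0 (by simp)
    rwa [zero_smul, add_zero] at this)
  obtain ⟨e1, he1, H1⟩ := deg_spec h1 hU hb (fun x hx => by
    have := h x hx 1 (by simp)
    rwa [one_smul, add_sub_cancel] at this)
  obtain ⟨ε, hε, hh⟩ := hom_core h0 h1 hU hb h
  obtain ⟨δ, hδ, hδ0, hδ1, hδε⟩ : ∃ δ : ℝ, 0 < δ ∧ δ ≤ e0 ∧ δ ≤ e1 ∧ δ ≤ ε :=
    ⟨min (min e0 e1) ε, lt_min (lt_min he0 he1) hε, (min_le_left _ _).trans (min_le_left _ _),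
      (min_le_left _ _).trans (min_le_right _ _), min_le_right _ _⟩
  obtain ⟨F0, R, hF0, hR, hc0⟩ := approx h0 hδ
  obtain ⟨F1, R1, hF1, hR1, hc1⟩ := approx h1 hδ
  obtain ⟨φ, hφ, hφ0, hφp⟩ := bump y hδ
  have a0 := H0 F0 R hF0 hR (fun x => (hc0 x).trans_le hδ0) φ hφ (fun w hw => hφ0 w (hδ0.trans hw))
  have a1 := H1 F1 R1 hF1 hR1 (fun x => (hc1 x).trans_le hδ1) φ hφ
    (fun w hw => hφ0 w (hδ1.trans hw))
  have a2 := hh F0 F1 R hF0 hF1 hR (fun x => (hc0 x).trans_le hδε)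
    (fun x => (hc1 x).trans_le hδε) φ hφ (fun w hw => hφ0 w (hδε.trans hw))
  rw [a0, a1] at a2
  exact_mod_cast (mul_right_cancel₀ hφp.ne' a2).symm

/-- composition -/
theorem comp {f τ : E n → E n} (hf : Cls f) (hτ : Cls τ) {U U' : Set (E n)} (hU : IsOpen U)
    (hb : Bornology.IsBounded U) (hU' : IsOpen U') (hb' : Bornology.IsBounded U') {y : E n}
    (hy : ∀ x ∈ frontier U, f (τ x) ≠ y) (hy' : ∀ x ∈ frontier U', f x ≠ y)
    (hi : ∀ x, f (τ x) = y → (x ∈ U ↔ τ x ∈ U')) :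
    deg n (fun x => f (τ x)) U y = deg n f U' y := by
  have hfτ := cls_comp hf hτ
  obtain ⟨e0, he0, H0⟩ := deg_spec hfτ hU hb hy
  obtain ⟨e1, he1, H1⟩ := deg_spec hf hU' hb' hy'
  -- no values close to `y` near the frontier of `U'`
  obtain ⟨ε, hε, hm⟩ := margin hf.1 hf.1 hU' hb' (y := y) (by
    intro x hx t _
    rw [sub_self, smul_zero, add_zero]
    exact hy' x hx)
  -- the condition for the sets
  have hcl : ∀ ε : ℝ, IsClosed {q : E n × E n | (dist (f (τ q.1)) y ≤ ε ∧ dist (τ q.1) q.2 ≤ ε) ∧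
      ((q.1 ∈ closure U ∧ q.2 ∈ U'ᶜ) ∨ (q.1 ∈ Uᶜ ∧ q.2 ∈ closure U'))} := by
    intro ε
    have c1 : Continuous fun q : E n × E n => τ q.1 := hτ.1.comp continuous_fst
    refine IsClosed.inter (IsClosed.inter (isClosed_le ((hf.1.comp c1).dist continuous_const)
      continuous_const) (isClosed_le (c1.dist continuous_snd) continuous_const)) ?_
    exact ((isClosed_closure.preimage continuous_fst).inter
      (hU'.isClosed_compl.preimage continuous_snd)).union
      ((hU.isClosed_compl.preimage continuous_fst).inter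
      (isClosed_closure.preimage continuous_snd))
  have hK : IsCompact {q : E n × E n | (dist (f (τ q.1)) y ≤ 1 ∧ dist (τ q.1) q.2 ≤ 1) ∧
      ((q.1 ∈ closure U ∧ q.2 ∈ U'ᶜ) ∨ (q.1 ∈ Uᶜ ∧ q.2 ∈ closure U'))} := by
    refine Metric.isCompact_of_isClosed_isBounded (hcl 1) ?_
    have hb1 := cls_bdd hfτ y
    have hb2 : Bornology.IsBounded (cthickening 1 (τ '' closure {x | dist (f (τ x)) y ≤ 1})) :=
      ((hb1.isCompact_closure.image hτ.1).isBounded).cthickening
    refine (hb1.prod hb2).subset ?_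
    rintro q ⟨⟨h1, h2⟩, -⟩
    refine ⟨h1, ?_⟩
    refine mem_cthickening_of_dist_le q.2 (τ q.1) 1 _ ⟨q.1, subset_closure h1, rfl⟩ ?_
    rw [dist_comm]
    exact h2
  obtain ⟨ε', hε', hA⟩ := small (A := fun ε : ℝ => {q : E n × E n |
      (dist (f (τ q.1)) y ≤ ε ∧ dist (τ q.1) q.2 ≤ ε) ∧
      ((q.1 ∈ closure U ∧ q.2 ∈ U'ᶜ) ∨ (q.1 ∈ Uᶜ ∧ q.2 ∈ closure U'))})
    (fun ε _ => hcl ε)
    (fun ε ε' _ hle q hq => ⟨⟨hq.1.1.trans hle, hq.1.2.trans hle⟩, hq.2⟩) hK (by
      intro q hq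
      have z1 : f (τ q.1) = y := dist_le_zero.1 (le_of_forall_pos_le_add fun ε hε => by
        rw [zero_add]
        exact (hq ε hε).1.1)
      have z2 : τ q.1 = q.2 := dist_le_zero.1 (le_of_forall_pos_le_add fun ε hε => by
        rw [zero_add]
        exact (hq ε hε).1.2)
      have hiq := hi q.1 z1
      rcases (hq 1 one_pos).2 with ⟨h1, h2⟩ | ⟨h1, h2⟩
      · have h3 : q.1 ∈ U := by
          by_contra hcon
          exact hy q.1 (by rw [hU.frontier_eq]; exact ⟨h1, hcon⟩) z1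
        have h4 := hiq.1 h3
        rw [z2] at h4
        exact h2 h4
      · have h3 : q.2 ∈ U' := by
          by_contra hcon
          exact hy' q.2 (by rw [hU'.frontier_eq]; exact ⟨h2, hcon⟩) (by rw [← z2]; exact z1)
        rw [← z2] at h3
        exact h1 (hiq.2 h3))
  obtain ⟨ε2, hε2, huc⟩ := Metric.uniformContinuous_iff.1 (cls_uc hf) (min e0 ε' / 4)
    (by have := lt_min he0 hε'; positivity)
  obtain ⟨δ, hδ, hδ0, hδ1, hδε, hδε', hδ2⟩ : ∃ δ : ℝ, 0 < δ ∧ δ ≤ e0 / 4 ∧ δ ≤ e1 ∧ δ ≤ ε / 4 ∧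
      δ ≤ ε' / 4 ∧ δ ≤ ε2 :=
    ⟨min (min (e0 / 4) e1) (min (min (ε / 4) (ε' / 4)) ε2), by positivity,
      (min_le_left _ _).trans (min_le_left _ _), (min_le_left _ _).trans (min_le_right _ _),
      (min_le_right _ _).trans ((min_le_left _ _).trans (min_le_left _ _)),
      (min_le_right _ _).trans ((min_le_left _ _).trans (min_le_right _ _)),
      (min_le_right _ _).trans (min_le_right _ _)⟩
  obtain ⟨F0, R, hF0, hR, hc0⟩ := approx hf hδ
  obtain ⟨τ0, R1, hτ0, hR1, hc1⟩ := approx hτ hδ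
  obtain ⟨φ, hφ, hφ0, hφp⟩ := bump y hδ
  have hφn : ∀ w, φ w ≠ 0 → dist w y < δ := fun w hw => by
    by_contra hcon
    exact hw (hφ0 w (not_lt.1 hcon))
  have hR' : ∀ x, max R R1 ≤ ‖x‖ → F0 x = x := fun x hx => hR x ((le_max_left _ _).trans hx)
  have hR1' : ∀ x, max R R1 ≤ ‖x‖ → τ0 x = x := fun x hx => hR1 x ((le_max_right _ _).trans hx)
  -- the composition is close
  have hcc : ∀ x, dist (F0 (τ0 x)) (f (τ x)) < δ + min e0 ε' / 4 := by
    intro x
    have h1 := hc0 (τ0 x)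
    have h2 := huc ((hc1 x).trans_le hδ2)
    have h3 := dist_triangle (F0 (τ0 x)) (f (τ0 x)) (f (τ x))
    linarith
  have hmin1 := min_le_left e0 ε'
  have hmin2 := min_le_right e0 ε'
  have a0 := H0 (fun z => F0 (τ0 z)) (max R R1) (hF0.comp hτ0)
    (fun x hx => by
      show F0 (τ0 x) = x
      rw [hR1' x hx, hR' x hx])
    (fun x => (hcc x).trans_le (by linarith)) φ hφ (fun w hw => hφ0 w (by linarith))
  have a1 := H1 F0 R hF0 hR (fun x => (hc0 x).trans_le hδ1) φ hφ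
    (fun w hw => hφ0 w (hδ1.trans hw))
  have a2 := Pool.Agent.Y236.SP.t_COMPT n F0 τ0 (max R R1) hF0 hτ0 hR' hR1' U U'
    (closure U' ∩ {x | dist (F0 x) y ≤ δ}) φ hU hU'
    (isClosed_closure.inter (isClosed_le (hF0.continuous.dist continuous_const)
      continuous_const)) (by
      rintro x ⟨hx1, hx2⟩
      by_contra hcon
      have h1 : x ∈ thickening ε U' := closure_subset_thickening hε _ hx1
      have h2 := hm x ⟨h1, hcon⟩ 0 (by simp)
      rw [zero_smul, add_zero] at h2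
      have h3 : dist (F0 x) y ≤ δ := hx2
      have h4 := dist_triangle (f x) (F0 x) y
      rw [dist_comm (f x) (F0 x)] at h4
      linarith [hc0 x]) hb' hφ (by
      intro x hx hφx
      exact ⟨subset_closure hx, (hφn _ hφx).le⟩) (by
      intro x hφx
      have h1 := hφn _ hφx
      have h2 := hcc x
      have h3 := dist_triangle (f (τ x)) (F0 (τ0 x)) y
      rw [dist_comm (f (τ x)) (F0 (τ0 x))] at h3
      have h4 : dist (τ x) (τ0 x) ≤ ε' := by
        rw [dist_comm]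
        linarith [hc1 x]
      have h5 : ¬ ((x ∈ closure U ∧ τ0 x ∈ U'ᶜ) ∨ (x ∈ Uᶜ ∧ τ0 x ∈ closure U')) := by
        intro h6
        have h7 : ((x, τ0 x) : E n × E n) ∈ (∅ : Set (E n × E n)) := by
          rw [← hA]
          exact ⟨⟨by show dist (f (τ x)) y ≤ ε'; linarith, h4⟩, h6⟩
        exact h7
      constructor
      · intro hxU
        by_contra hcon
        exact h5 (Or.inl ⟨subset_closure hxU, hcon⟩)
      · intro hxU
        by_contra hcon
        exact h5 (Or.inr ⟨hcon, subset_closure hxU⟩))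
  rw [a1] at a2
  rw [a2] at a0
  exact_mod_cast (mul_right_cancel₀ hφp.ne' a0).symm

end Pool.Agent.N512.CC.Deg

namespace Pool.Agent.N512.CC

open Pool.Agent.Y485.HS

/-- **DEG.** -/
theorem t_DEG : S_DEG := by
  intro n _
  refine ⟨Deg.deg n, ?_, ?_, ?_, ?_⟩
  · intro f hf U hU _ y hy
    exact Deg.tot hf hU hy
  · intro f hf U hU hb m W hW hd hWU y hy
    exact Deg.add hf hU hb hW hd hWU hy
  · intro f0 f1 h0 h1 U hU hb y h
    exact Deg.hom h0 h1 hU hb h
  · intro f τ hf hτ U U' hU hb hU' hb' y hy hy' hi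
    exact Deg.comp hf hτ hU hb hU' hb' hy hy' hi

end Pool.Agent.N512.CC
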