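import Pool.Agent.N512.CC.D4

/-!
# Perturbations of general invariant maps
-/

set_option autoImplicit false
set_option linter.unusedSectionVars false

open MeasureTheory Set Metric Filter Topology TopologicalSpace
open scoped ENNReal NNReal BoundedContinuousFunction

namespace Pool.Agent.N512.CC

open Pool.Agent.Y485.HS Pool.Agent.Y489.SP Pool.Agent.Y475.HS Pool.Agent.R775.HS
  Pool.Agent.R775.HC Pool.Agent.N512.HS

section
variable {X : Type} [TopologicalSpace X] {H : Type} [Group H] [TopologicalSpace H]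
  [IsTopologicalGroup H] [MulAction H X] [ContinuousSMul H X]
variable {n : ℕ} {φ : OpenPartialHomeomorph X (E n)} {g : H}

/-- one step: the perturbation which avoids a value on a piece of a stratum -/
theorem step1 [T2Space X] [T2Space H]
    (hs : Small φ ((Subgroup.zpowers g).topologicalClosure : Set H))
    {A : C(E n, E n) → E n → E n} (hA1 : ∀ ψ, ContinuousOn (A ψ) (closedBall 0 4))
    {f0 : E n → E n} (hf0 : ContinuousOn f0 (closedBall 0 4))
    (hA3 : ∀ ψ ψ', ∀ v ∈ closedBall (0 : E n) 4, A (ψ + ψ') v = A ψ v + A ψ' v)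
    (hA5 : ∀ ψ (a : E n), ∀ v ∈ closedBall (0 : E n) 4,
        (∀ k ∈ (Subgroup.zpowers g).topologicalClosure, ψ (φ (k • φ.symm v)) = a) →
          A ψ v = a)
    {c : E n} {r : ℝ} {d : ℕ} (hadm : Adm n φ g c r d) (i : Fin n) (t : ℝ) (y : E n)
    (δ0 : E n →ᵇ E n) (hδ0 : ∀ w ∈ Wset n φ g, δ0 w = 0) {ε : ℝ} (hε : 0 < ε) :
    ∃ δ1 : E n →ᵇ E n, (∀ w ∈ Wset n φ g, δ1 w = 0) ∧ ‖δ1 - δ0‖ ≤ ε ∧
      ∀ x ∈ closedBall c r, g ^ d • φ.symm x = φ.symm x → x i = t →
        f0 x + A (δ1 : C(E n, E n)) x ≠ y := by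
  classical
  obtain ⟨hd, hc2, hcW, hcj⟩ := hadm
  obtain ⟨ht, hsm⟩ := hs
  have h24 : closedBall (0 : E n) 2 ⊆ closedBall 0 4 := closedBall_subset_closedBall (by norm_num)
  have hgj : ∀ j : ℕ, g ^ j ∈ ((Subgroup.zpowers g).topologicalClosure : Set H) := fun j =>
    Subgroup.le_topologicalClosure _ (Subgroup.npow_mem_zpowers g j)
  have hgj' : ∀ j : ℕ, (g ^ j)⁻¹ ∈ ((Subgroup.zpowers g).topologicalClosure : Set H) := fun j =>
    Subgroup.inv_mem _ (hgj j)
  set L : Set (E n) := {x | x ∈ closedBall c r ∧ g ^ d • φ.symm x = φ.symm x ∧ x i = t} with hL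
  have hLc : IsCompact L := by
    have h1 : L = (closedBall c r ∩ φ.symm ⁻¹' {z : X | g ^ d • z = z}) ∩ {x : E n | x i = t} := by
      ext x
      simp only [hL, mem_ofPred_eq, mem_inter_iff, mem_preimage]
      tauto
    rw [h1]
    refine IsCompact.of_isClosed_subset (isCompact_closedBall c r) ?_
      (inter_subset_left.trans inter_subset_left)
    refine IsClosed.inter ?_ (isClosed_eq (by fun_prop) continuous_const)
    refine (φ.continuousOn_symm.mono (hc2.trans (h24.trans ht))).preimage_isClosed_of_isClosed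
      isClosed_closedBall ?_
    exact isClosed_eq (continuous_const_smul _) continuous_id
  have hL4 : ∀ x ∈ L, x ∈ closedBall (0 : E n) 4 := fun x hx => h24 (hc2 hx.1)
  have hfc : ContinuousOn (fun x => f0 x + A (δ0 : C(E n, E n)) x) L :=
    (hf0.mono hL4).add ((hA1 _).mono hL4)
  obtain ⟨η, hηc, hηε, hηy⟩ := miss hLc (fun x hx => hx.2.2) hfc y hε
  -- the translates
  let τ : ℕ → E n → E n := fun j v => φ (g ^ j • φ.symm v)
  let σ : ℕ → E n → E n := fun j v => φ ((g ^ j)⁻¹ • φ.symm v)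
  have hτsrc : ∀ j, ∀ v ∈ closedBall (0 : E n) 4, g ^ j • φ.symm v ∈ φ.source := fun j v hv =>
    (hsm _ (hgj j) v hv).1
  have hτc : ∀ j, ContinuousOn (τ j) (closedBall 0 4) := fun j =>
    φ.continuousOn.comp ((φ.continuousOn_symm.mono ht).const_smul _) fun v hv => hτsrc j v hv
  have hσc : ∀ j, ContinuousOn (σ j) (closedBall 0 4) := fun j =>
    φ.continuousOn.comp ((φ.continuousOn_symm.mono ht).const_smul _)
      fun v hv => (hsm _ (hgj' j) v hv).1
  have hτsymm : ∀ j, ∀ v ∈ closedBall (0 : E n) 4, φ.symm (τ j v) = g ^ j • φ.symm v :=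
    fun j v hv => φ.left_inv (hτsrc j v hv)
  have hτn : ∀ j, ∀ v ∈ L, ‖τ j v‖ ≤ 9 / 4 := by
    intro j v hv
    have h1 := (hsm _ (hgj j) v (hL4 v hv)).2
    have h2 : ‖v‖ ≤ 2 := by simpa using hc2 hv.1
    rw [dist_eq_norm] at h1
    calc ‖τ j v‖ = ‖(τ j v - v) + v‖ := by congr 1; abel
      _ ≤ ‖τ j v - v‖ + ‖v‖ := norm_add_le _ _
      _ ≤ 9 / 4 := by
        have h3 : ‖τ j v - v‖ ≤ 1 / 4 := h1
        linarith
  have hτ4 : ∀ j, ∀ v ∈ L, τ j v ∈ closedBall (0 : E n) 4 := fun j v hv => by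
    have := hτn j v hv
    simp only [mem_closedBall, dist_zero_right]
    linarith
  have hστ : ∀ j, ∀ v ∈ L, σ j (τ j v) = v := by
    intro j v hv
    show φ ((g ^ j)⁻¹ • φ.symm (τ j v)) = v
    rw [hτsymm j v (hL4 v hv), inv_smul_smul]
    exact φ.right_inv (ht (hL4 v hv))
  -- uniqueness
  have huniq : ∀ j < d, ∀ j' < d, ∀ u ∈ L, ∀ u' ∈ L, τ j u = τ j' u' → u = u' := by
    have key : ∀ j j' : ℕ, j ≤ j' → j' < d → ∀ u ∈ L, ∀ u' ∈ L, τ j u = τ j' u' → u = u' := by
      intro j j' hjj hj' u hu u' hu' he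
      have h1 := congrArg φ.symm he
      rw [hτsymm j u (hL4 u hu), hτsymm j' u' (hL4 u' hu')] at h1
      have h2 : φ.symm u = g ^ (j' - j) • φ.symm u' := by
        have h3 : g ^ j' = g ^ j * g ^ (j' - j) := by
          rw [← pow_add]
          congr 1
          omega
        rw [h3, mul_smul] at h1
        exact MulAction.injective (g ^ j) h1
      have h4 : u = φ (g ^ (j' - j) • φ.symm u') := by
        rw [← h2, φ.right_inv (ht (hL4 u hu))]
      rcases Nat.eq_zero_or_pos (j' - j) with h0 | h0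
      · rw [h0, pow_zero, one_smul, φ.right_inv (ht (hL4 u' hu'))] at h4
        exact h4
      · exfalso
        apply hcj (j' - j) h0 (by omega) u' hu'.1
        rw [← h4]
        exact hu.1
    intro j hj j' hj' u hu u' hu' he
    rcases le_total j j' with h | h
    · exact key j j' h hj' u hu u' hu' he
    · exact (key j' j h hj u' hu' u hu he.symm).symm
  -- disjointness from `W`
  have hW : ∀ j, ∀ u ∈ L, τ j u ∉ Wset n φ g := by
    intro j u hu hw
    rcases hw with hw | ⟨-, hw⟩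
    · have h1 := hτn j u hu
      have h2 : 5 / 2 ≤ ‖τ j u‖ := hw
      linarith
    · rw [mem_preimage, hτsymm j u (hL4 u hu)] at hw
      refine Set.disjoint_left.1 hcW hu.1 (Or.inr ⟨hL4 u hu, ?_⟩)
      rcases hw with hw | hw
      · left
        have h1 := clI_zpow (g := g) (-(j : ℤ)) hw
        rw [zpow_neg, zpow_natCast, inv_smul_smul] at h1
        exact h1
      · right
        have h1 : g • g ^ j • φ.symm u = g ^ j • φ.symm u := hw
        show g • φ.symm u = φ.symm u
        apply MulAction.injective (g ^ j)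
        show g ^ j • g • φ.symm u = g ^ j • φ.symm u
        rw [smul_smul, ← pow_succ, pow_succ', mul_smul]
        exact h1
  -- the function on the translates
  let P : E n → Prop := fun w => ∃ u, u ∈ L ∧ ∃ j, j < d ∧ τ j u = w
  let η' : E n → E n := fun w => if h : P w then η h.choose else 0
  have hη'1 : ∀ j < d, ∀ u ∈ L, η' (τ j u) = η u := by
    intro j hj u hu
    have hP : P (τ j u) := ⟨u, hu, j, hj, rfl⟩
    have h1 : η' (τ j u) = η hP.choose := dif_pos hP
    rw [h1]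
    obtain ⟨h2, j', hj', h3⟩ := hP.choose_spec
    rw [huniq j' hj' j hj _ h2 u hu h3]
  have hη'0 : ∀ w ∈ Wset n φ g, η' w = 0 := by
    intro w hw
    refine dif_neg ?_
    rintro ⟨u, hu, j, hj, rfl⟩
    exact hW j u hu hw
  set D : Set (E n) := ⋃ j : Fin d, τ j '' L with hD
  have hDc : ∀ j : Fin d, IsCompact (τ j '' L) := fun j =>
    hLc.image_of_continuousOn ((hτc j).mono hL4)
  have hDcl : IsClosed D := isClosed_iUnion_of_finite fun j => (hDc j).isClosed
  have hη'D : ContinuousOn η' D := by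
    refine LocallyFinite.continuousOn_iUnion (locallyFinite_of_finite _)
      (fun j => (hDc j).isClosed) fun j => ?_
    have h1 : ContinuousOn (fun w => η (σ j w)) (τ j '' L) := by
      refine hηc.comp ((hσc j).mono ?_) ?_
      · rintro _ ⟨u, hu, rfl⟩
        exact hτ4 j u hu
      · rintro _ ⟨u, hu, rfl⟩
        rw [hστ j u hu]
        exact hu
    refine h1.congr ?_
    rintro _ ⟨u, hu, rfl⟩
    simp only
    rw [hη'1 j j.2 u hu, hστ j u hu]
  have hη'W : ContinuousOn η' (Wset n φ g) :=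
    (continuousOn_const (c := (0 : E n))).congr hη'0
  have hWcl : IsClosed (Wset n φ g) := isClosed_Wset ht
  have hη'C : ContinuousOn η' (Wset n φ g ∪ D) := hη'W.union_of_isClosed hη'D hWcl hDcl
  have hbd : ∀ w ∈ Wset n φ g ∪ D, ‖η' w‖ ≤ ε := by
    rintro w (hw | hw)
    · rw [hη'0 w hw, norm_zero]
      exact hε.le
    · obtain ⟨j, u, hu, rfl⟩ := mem_iUnion.1 hw
      rw [hη'1 j j.2 u hu]
      exact hηε u hu
  let f : (Wset n φ g ∪ D : Set (E n)) →ᵇ E n :=
    BoundedContinuousFunction.ofNormedAddCommGroup (fun w => η' w)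
      (continuousOn_iff_continuous_domRestrict.1 hη'C) ε (fun w => hbd w w.2)
  obtain ⟨δ, hδn, hδf⟩ := BoundedContinuousFunction.exists_norm_eq_domRestrict_eq
    (hWcl.union hDcl) ℝ f
  have hfn : ‖f‖ ≤ ε := BoundedContinuousFunction.norm_ofNormedAddCommGroup_le _ hε.le _
  have hδv : ∀ w ∈ Wset n φ g ∪ D, δ w = η' w := by
    intro w hw
    have := DFunLike.congr_fun hδf ⟨w, hw⟩
    exact this
  refine ⟨δ0 + δ, ?_, ?_, ?_⟩
  · intro w hw
    rw [BoundedContinuousFunction.add_apply, hδ0 w hw, hδv w (Or.inl hw), hη'0 w hw, add_zero]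
  · rw [add_sub_cancel_left, hδn]
    exact hfn
  · intro x hx1 hx2 hx3
    have hxL : x ∈ L := ⟨hx1, hx2, hx3⟩
    have h1 : ((δ0 + δ : E n →ᵇ E n) : C(E n, E n)) = (δ0 : C(E n, E n)) + (δ : C(E n, E n)) := by
      ext1 w
      rfl
    rw [h1, hA3 _ _ x (hL4 x hxL)]
    have h2 : A (δ : C(E n, E n)) x = η x := by
      apply hA5 _ _ x (hL4 x hxL)
      intro k hk
      obtain ⟨j, hj, hkj⟩ := orb hd hx2 hk
      rw [hkj]
      have h3 : τ j x ∈ D := mem_iUnion.2 ⟨⟨j, hj⟩, x, hxL, rfl⟩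
      have h4 := hδv (τ j x) (Or.inr h3)
      rw [hη'1 j hj x hxL] at h4
      exact h4
    rw [h2, ← add_assoc]
    exact hηy x hxL

/-- Perturbations of an invariant map which agree with it on the closure of the set of the points of
infinite orbit and at the fixed points, and which avoid countably many values on the pieces of the
strata. -/
theorem exists_pert [T2Space X] [T2Space H]
    (hcomp : IsCompact ((Subgroup.zpowers g).topologicalClosure : Set H))
    (hs : Small φ ((Subgroup.zpowers g).topologicalClosure : Set H))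
    {F0 : E n → E n} (hF0 : ContinuousOn F0 (closedBall 0 4))
    (hF1 : ∀ v ∈ closedBall (0 : E n) 4, dist (F0 v) v < 1 / 4)
    (hF2 : ∀ v ∈ closedBall (0 : E n) 3, F0 (φ (g • φ.symm v)) = F0 v) (Y : ℕ → E n) :
      ∃ F : E n → E n, ContinuousOn F (closedBall 0 4) ∧
        (∀ v ∈ closedBall (0 : E n) 4, dist (F v) v ≤ 1 / 4) ∧
        (∀ v ∈ closedBall (0 : E n) 3, F (φ (g • φ.symm v)) = F v) ∧
        (∀ v ∈ closedBall (0 : E n) 3, g • φ.symm v = φ.symm v → F v = F0 v) ∧
        (∀ v ∈ closedBall (0 : E n) 3, φ.symm v ∈ closure {x : X | InfOrbit g x} →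
          F v = F0 v) ∧
        ∀ (a c : ℕ) (r : ℚ) (d : ℕ) (i : Fin n) (t : ℚ),
          Adm n φ g (denseSeq (E n) c) (r : ℝ) d →
            ∀ x ∈ closedBall (denseSeq (E n) c) (r : ℝ), g ^ d • φ.symm x = φ.symm x →
              x i = (t : ℝ) → F x ≠ Y a := by
  classical
  obtain ⟨A, hA1, hA2, hA3, hA4, hA5, hA6, hA7⟩ := exists_avgop2 hcomp hs
  have ht := hs.1
  have hsm := hs.2
  have h34 : closedBall (0 : E n) 3 ⊆ closedBall 0 4 := closedBall_subset_closedBall (by norm_num)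
  -- the Baire space of perturbations
  let 𝒟 : Set (E n →ᵇ E n) := {δ | ∀ w ∈ Wset n φ g, δ w = 0}
  have h𝒟c : IsClosed 𝒟 := by
    have h1 : 𝒟 = ⋂ w ∈ Wset n φ g, {δ : E n →ᵇ E n | δ w = 0} := by
      ext δ
      simp [𝒟]
    rw [h1]
    refine isClosed_biInter fun w _ => ?_
    have hc : Continuous (fun δ : E n →ᵇ E n => δ w) :=
      (BoundedContinuousFunction.evalCLM ℝ w).continuous
    exact isClosed_eq hc continuous_const
  have hcs : CompleteSpace 𝒟 := h𝒟c.completeSpace_coe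
  let ι : Type := ℕ × (ℕ × ℚ × ℕ) × (Fin n × ℚ)
  let G : ι → Set 𝒟 := fun q => {δ | Adm n φ g (denseSeq (E n) q.2.1.1) (q.2.1.2.1 : ℝ) q.2.1.2.2 →
    ∀ x ∈ closedBall (denseSeq (E n) q.2.1.1) (q.2.1.2.1 : ℝ),
      g ^ q.2.1.2.2 • φ.symm x = φ.symm x → x q.2.2.1 = (q.2.2.2 : ℝ) →
        F0 x + A ((δ : E n →ᵇ E n) : C(E n, E n)) x ≠ Y q.1}
  have hdiff : ∀ δ δ' : E n →ᵇ E n, ∀ x ∈ closedBall (0 : E n) 4,
      dist (A (δ : C(E n, E n)) x) (A (δ' : C(E n, E n)) x) ≤ dist δ δ' := by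
    intro δ δ' x hx
    have h1 : (δ : C(E n, E n)) = (δ' : C(E n, E n)) + ((δ - δ' : E n →ᵇ E n) : C(E n, E n)) := by
      ext1 w
      show δ w = δ' w + (δ w - δ' w)
      abel
    rw [h1, hA3 _ _ x hx, dist_eq_norm, add_sub_cancel_left, dist_eq_norm]
    exact hA4 _ _ x hx fun k _ => (δ - δ').norm_coe_le_norm _
  have hGo : ∀ q, IsOpen (G q) := by
    rintro ⟨a, ⟨c, r, d⟩, i, t⟩
    by_cases hadm : Adm n φ g (denseSeq (E n) c) (r : ℝ) d
    swap
    · have : G (a, (c, r, d), i, t) = univ := by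
        ext δ
        simp only [G, mem_ofPred_eq, mem_univ, iff_true]
        exact fun h => absurd h hadm
      rw [this]
      exact isOpen_univ
    rw [Metric.isOpen_iff]
    intro δ hδ
    have hδ' := hδ hadm
    obtain ⟨hd, hc2, hcW, hcj⟩ := hadm
    have h24 : closedBall (0 : E n) 2 ⊆ closedBall 0 4 :=
      closedBall_subset_closedBall (by norm_num)
    set L : Set (E n) := {x | x ∈ closedBall (denseSeq (E n) c) (r : ℝ) ∧
      g ^ d • φ.symm x = φ.symm x ∧ x i = t} with hL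
    have hLc : IsCompact L := by
      have h1 : L = (closedBall (denseSeq (E n) c) (r : ℝ) ∩ φ.symm ⁻¹' {z : X | g ^ d • z = z}) ∩
          {x : E n | x i = t} := by
        ext x
        simp only [hL, mem_ofPred_eq, mem_inter_iff, mem_preimage]
        tauto
      rw [h1]
      refine IsCompact.of_isClosed_subset (isCompact_closedBall _ _) ?_
        (inter_subset_left.trans inter_subset_left)
      refine IsClosed.inter ?_ (isClosed_eq (by fun_prop) continuous_const)
      refine (φ.continuousOn_symm.mono (hc2.trans (h24.trans ht))).preimage_isClosed_of_isClosed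
        isClosed_closedBall ?_
      exact isClosed_eq (continuous_const_smul _) continuous_id
    have hL4 : ∀ x ∈ L, x ∈ closedBall (0 : E n) 4 := fun x hx => h24 (hc2 hx.1)
    rcases L.eq_empty_or_nonempty with he | hne
    · refine ⟨1, one_pos, fun δ1 _ _ x h1 h2 h3 => ?_⟩
      have : x ∈ L := ⟨h1, h2, h3⟩
      rw [he] at this
      exact this.elim
    · have hfc : ContinuousOn (fun x => dist (F0 x +
          A ((δ : E n →ᵇ E n) : C(E n, E n)) x) (Y a)) L :=
        continuous_dist.comp_continuousOn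
          (((hF0.mono hL4).add ((hA1 _).mono hL4)).prodMk continuousOn_const)
      obtain ⟨x0, hx0, hmin⟩ := hLc.exists_isMinOn hne hfc
      have hpos : 0 < dist (F0 x0 +
          A ((δ : E n →ᵇ E n) : C(E n, E n)) x0) (Y a) :=
        dist_pos.2 (hδ' x0 hx0.1 hx0.2.1 hx0.2.2)
      refine ⟨_, hpos, fun δ1 hδ1 _ x h1 h2 h3 he => ?_⟩
      have hxL : x ∈ L := ⟨h1, h2, h3⟩
      have h4 : dist (F0 x0 +
          A ((δ : E n →ᵇ E n) : C(E n, E n)) x0) (Y a) ≤ dist (F0 x +
          A ((δ : E n →ᵇ E n) : C(E n, E n)) x) (Y a) := hmin hxL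
      have h5 := hdiff (δ1 : E n →ᵇ E n) δ x (hL4 x hxL)
      rw [mem_ball] at hδ1
      have h6 : dist (δ1 : E n →ᵇ E n) δ = dist δ1 δ := rfl
      rw [h6] at h5
      have h7 : dist (F0 x +
          A ((δ : E n →ᵇ E n) : C(E n, E n)) x) (Y a) =
          dist (A ((δ1 : E n →ᵇ E n) : C(E n, E n)) x) (A ((δ : E n →ᵇ E n) : C(E n, E n)) x) := by
        rw [← he, dist_add_left, dist_comm]
      linarith
  have hGd : ∀ q, Dense (G q) := by
    rintro ⟨a, ⟨c, r, d⟩, i, t⟩
    by_cases hadm : Adm n φ g (denseSeq (E n) c) (r : ℝ) d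
    swap
    · have : G (a, (c, r, d), i, t) = univ := by
        ext δ
        simp only [G, mem_ofPred_eq, mem_univ, iff_true]
        exact fun h => absurd h hadm
      rw [this]
      exact dense_univ
    rw [Metric.dense_iff]
    intro δ ε hε
    obtain ⟨δ1, h1, h2, h3⟩ := step1 hs hA1 hF0 hA3 hA5 hadm i t (Y a) (δ : E n →ᵇ E n) δ.2
      (half_pos hε)
    refine ⟨⟨δ1, h1⟩, ?_, fun _ => h3⟩
    rw [mem_ball]
    show dist δ1 (δ : E n →ᵇ E n) < ε
    rw [dist_eq_norm]
    linarith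
  have hdense : Dense (⋂ q, G q) := dense_iInter_of_isOpen hGo hGd
  -- the margin
  obtain ⟨ε0, hε0, hmargin⟩ : ∃ ε0 : ℝ, 0 < ε0 ∧ ∀ v ∈ closedBall (0 : E n) 4,
      dist (F0 v) v ≤ 1 / 4 - ε0 := by
    have hc : ContinuousOn (fun v => dist (F0 v) v) (closedBall (0 : E n) 4) :=
      continuous_dist.comp_continuousOn (hF0.prodMk continuousOn_id)
    obtain ⟨v0, hv0, hmax⟩ := (isCompact_closedBall (0 : E n) 4).exists_isMaxOn
      ⟨0, mem_closedBall_self (by norm_num)⟩ hc
    refine ⟨1 / 4 - dist (F0 v0) v0, sub_pos.2 (hF1 v0 hv0), fun v hv => ?_⟩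
    have h1 : dist (F0 v) v ≤ dist (F0 v0) v0 := hmax hv
    linarith
  obtain ⟨δ, hδ1, hδ2⟩ := hdense.inter_open_nonempty (ball (⟨0, fun _ _ => rfl⟩ : 𝒟) ε0)
    isOpen_ball ⟨_, mem_ball_self hε0⟩
  have hδn : ‖(δ : E n →ᵇ E n)‖ < ε0 := by
    rw [mem_ball] at hδ1
    have h1 : dist (δ : E n →ᵇ E n) 0 < ε0 := hδ1
    rwa [dist_zero_right] at h1
  have hδG : ∀ q, δ ∈ G q := fun q => mem_iInter.1 hδ2 q
  have hAδ : ∀ v ∈ closedBall (0 : E n) 4, ‖A ((δ : E n →ᵇ E n) : C(E n, E n)) v‖ ≤ ε0 :=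
    fun v hv => hA4 _ _ v hv fun k _ => ((δ : E n →ᵇ E n).norm_coe_le_norm _).trans hδn.le
  set F : E n → E n := fun v => F0 v +
    A ((δ : E n →ᵇ E n) : C(E n, E n)) v with hF
  have hFd : ∀ v ∈ closedBall (0 : E n) 4, dist (F v) v ≤ 1 / 4 := by
    intro v hv
    have h1 := hmargin v hv
    have h2 := hAδ v hv
    rw [dist_eq_norm] at h1 ⊢
    calc ‖F v - v‖ = ‖(F0 v - v) +
          A ((δ : E n →ᵇ E n) : C(E n, E n)) v‖ := by
            have h5 : F v = F0 v + A ((δ : E n →ᵇ E n) : C(E n, E n)) v := rfl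
            rw [h5]
            congr 1
            exact add_sub_right_comm _ _ _
      _ ≤ _ := norm_add_le _ _
      _ ≤ 1 / 4 := by linarith
  -- fixed points of the closure
  have hfixall : ∀ v ∈ closedBall (0 : E n) 4, g • φ.symm v = φ.symm v →
      ∀ k ∈ (Subgroup.zpowers g).topologicalClosure, k • φ.symm v = φ.symm v := by
    intro v hv hgv k hk
    exact fix_closure hk hgv
  refine ⟨F, hF0.add (hA1 _), hFd, ?_, ?_, ?_, ?_⟩
  · intro v hv
    show F0 _ + A _ _ = F0 _ + A _ _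
    rw [hF2 v hv, hA2 _ v hv]
  · intro v hv hgv
    have hk := hfixall v (h34 hv) hgv
    show F0 v + A _ v = F0 v
    rw [hA5 ((δ : E n →ᵇ E n) : C(E n, E n)) 0 v (h34 hv) fun k hk' => by
        rw [hk k hk', φ.right_inv (ht (h34 hv))]
        exact δ.2 v (Or.inr ⟨h34 hv, Or.inr hgv⟩), add_zero]
  · intro v hv hvZ
    have hv4 := h34 hv
    have h3 : A ((δ : E n →ᵇ E n) : C(E n, E n)) (v : E n) = 0 := by
      refine hA5 _ _ _ hv4 fun k hk => ?_
      refine δ.2 _ (Or.inr ⟨?_, Or.inl ?_⟩)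
      · have h4 := (hsm k hk v hv4).2
        have h5 : ‖(v : E n)‖ ≤ 3 := by simpa using hv
        rw [dist_eq_norm] at h4
        simp only [mem_closedBall, dist_zero_right]
        calc ‖φ (k • φ.symm (v : E n))‖ =
              ‖(φ (k • φ.symm (v : E n)) - v) + v‖ := by congr 1; abel
          _ ≤ _ := norm_add_le _ _
          _ ≤ 4 := by linarith
      · show φ.symm (φ (k • φ.symm (v : E n))) ∈ closure {x : X | InfOrbit g x}
        rw [φ.left_inv (hsm k hk v hv4).1]
        exact clI_closure hk hvZ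
    show F0 v + A _ v = F0 v
    rw [h3, add_zero]
  · intro a c r d i t hadm x hx hgx hxi
    exact hδG (a, (c, r, d), i, t) hadm x hx hgx hxi

end

end Pool.Agent.N512.CC
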