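import Pool.Agent.N512.CC.E1

/-!
# Eigenfunctions on the fibres of invariant maps
-/

set_option autoImplicit false
set_option linter.unusedSectionVars false

open MeasureTheory Set Metric Filter Topology TopologicalSpace
open scoped ENNReal NNReal BoundedContinuousFunction

namespace Pool.Agent.N512.CC

open Pool.Agent.Y485.HS Pool.Agent.Y489.SP Pool.Agent.Y475.HS Pool.Agent.R775.HS
  Pool.Agent.R775.HC Pool.Agent.N512.HS

section
variable {X : Type} [TopologicalSpace X] {H : Type} [Group H] [TopologicalSpace H]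
  [IsTopologicalGroup H] [MulAction H X] [ContinuousSMul H X]
variable {n : ℕ} {φ : OpenPartialHomeomorph X (E n)} {g : H}

/-- If the fibre over `y` of an invariant map close to the identity contains no fixed point, there
is no eigenfunction on the part of the fibre in the closure of the set of the points of infinite
orbit. -/
theorem fibre_circle (hCIRC : S_CIRC) (hn : 1 ≤ n) [T2Space X] [T2Space H] {p : ℕ} (hp : p.Prime)
    (hg : Tendsto (fun j : ℕ => g ^ p ^ j) atTop (𝓝 1))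
    (hcomp : IsCompact ((Subgroup.zpowers g).topologicalClosure : Set H))
    (hs : Small φ ((Subgroup.zpowers g).topologicalClosure : Set H))
    {F0 : E n → E n} (hF0 : ContinuousOn F0 (closedBall 0 4))
    (hF1 : ∀ v ∈ closedBall (0 : E n) 4, dist (F0 v) v < 1 / 4)
    (hF2 : ∀ v ∈ closedBall (0 : E n) 3, F0 (φ (g • φ.symm v)) = F0 v) {y : E n}
    (hy : y ∈ ball (0 : E n) 1)
    (hfix : ∀ v ∈ closedBall (0 : E n) 3, F0 v = y → g • φ.symm v ≠ φ.symm v) {Ψ : E n → ℂ}
    (hΨc : ContinuousOn Ψ {v | v ∈ closedBall (0 : E n) 3 ∧ F0 v = y ∧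
      φ.symm v ∈ closure {x : X | InfOrbit g x}})
    (hΨ0 : ∀ v ∈ {v | v ∈ closedBall (0 : E n) 3 ∧ F0 v = y ∧
      φ.symm v ∈ closure {x : X | InfOrbit g x}}, Ψ v ≠ 0)
    (hΨe : ∀ v ∈ {v | v ∈ closedBall (0 : E n) 3 ∧ F0 v = y ∧
      φ.symm v ∈ closure {x : X | InfOrbit g x}},
      Ψ (φ (g • φ.symm v)) = Complex.exp (2 * Real.pi * Complex.I / p) * Ψ v) : False := by
  classical
  set K : Set (E n) := {v | v ∈ closedBall (0 : E n) 3 ∧ F0 v = y ∧
      φ.symm v ∈ closure {x : X | InfOrbit g x}} with hK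
  set ζ : ℂ := Complex.exp (2 * Real.pi * Complex.I / p) with hζ
  have hζp : ζ ^ p = 1 := by
    rw [hζ, ← Complex.exp_nat_mul]
    have h1 : (p : ℂ) * (2 * Real.pi * Complex.I / p) = 2 * Real.pi * Complex.I := by
      have : (p : ℂ) ≠ 0 := by exact_mod_cast hp.pos.ne'
      field_simp
    rw [h1, Complex.exp_two_pi_mul_I]
  have hyn : ‖y‖ < 1 := by simpa using hy
  have hs0 := hs
  obtain ⟨ht, hsm⟩ := hs
  set D : Subgroup H := (Subgroup.zpowers g).topologicalClosure with hD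
  have hDc : IsClosed (D : Set H) := Subgroup.isClosed_topologicalClosure _
  have hgD : g ∈ D := Subgroup.le_topologicalClosure _ (Subgroup.mem_zpowers g)
  have h34 : closedBall (0 : E n) 3 ⊆ closedBall 0 4 := closedBall_subset_closedBall (by norm_num)
  have h24 : closedBall (0 : E n) 2 ⊆ closedBall 0 4 := closedBall_subset_closedBall (by norm_num)
  have h23 : closedBall (0 : E n) 2 ⊆ closedBall 0 3 := closedBall_subset_closedBall (by norm_num)
  have hn3 : ∀ v : E n, ‖v‖ ≤ 3 → v ∈ closedBall (0 : E n) 3 := fun v hv => by simpa using hv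
  have hn4 : ∀ v : E n, ‖v‖ ≤ 3 → v ∈ closedBall (0 : E n) 4 := fun v hv => h34 (hn3 v hv)
  -- the maps
  have hTn : ∀ k ∈ D, ∀ v : E n, ‖v‖ ≤ 3 → ‖φ (k • φ.symm v)‖ ≤ ‖v‖ + 1 / 4 := by
    intro k hk v hv
    have h1 := (hsm k hk v (hn4 v hv)).2
    rw [dist_eq_norm] at h1
    calc ‖φ (k • φ.symm v)‖ = ‖(φ (k • φ.symm v) - v) + v‖ := by congr 1; abel
      _ ≤ ‖φ (k • φ.symm v) - v‖ + ‖v‖ := norm_add_le _ _
      _ ≤ ‖v‖ + 1 / 4 := by linarith
  have hTs : ∀ k ∈ D, ∀ v : E n, ‖v‖ ≤ 3 → φ.symm (φ (k • φ.symm v)) = k • φ.symm v :=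
    fun k hk v hv => φ.left_inv (hsm k hk v (hn4 v hv)).1
  have hTc : ∀ v : E n, ‖v‖ ≤ 3 → ContinuousOn (fun k : H => φ (k • φ.symm v)) D := by
    intro v hv
    refine φ.continuousOn.comp ?_ fun k hk => (hsm k hk v (hn4 v hv)).1
    have hc : Continuous (fun k : H => k • φ.symm v) := by fun_prop
    exact hc.continuousOn
  -- invariance
  have hFnat : ∀ (m : ℕ) (v : E n), ‖v‖ ≤ 2 → F0 (φ (g ^ m • φ.symm v)) = F0 v := by
    intro m v hv
    induction m with
    | zero => rw [pow_zero, one_smul, φ.right_inv (ht (hn4 v (by linarith)))]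
    | succ m ih =>
      have h1 := hTn (g ^ m) (D.pow_mem hgD m) v (by linarith)
      rw [← ih, pow_succ', mul_smul, ← hTs (g ^ m) (D.pow_mem hgD m) v (by linarith)]
      rw [hF2 _ (hn3 _ (by linarith)), hTs (g ^ m) (D.pow_mem hgD m) v (by linarith)]
  have hFint : ∀ (m : ℤ) (v : E n), ‖v‖ ≤ 3 / 2 → F0 (φ (g ^ m • φ.symm v)) = F0 v := by
    intro m v hv
    obtain ⟨l, hl | hl⟩ := m.eq_nat_or_neg
    · rw [hl, zpow_natCast]
      exact hFnat l v (by linarith)
    · have hmem : g ^ m ∈ D := D.zpow_mem hgD m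
      have h1 := hTn (g ^ m) hmem v (by linarith)
      have h2 := hFnat l (φ (g ^ m • φ.symm v)) (by linarith)
      rw [hTs (g ^ m) hmem v (by linarith), smul_smul, ← zpow_natCast, ← zpow_add, hl,
        add_neg_cancel, zpow_zero, one_smul, φ.right_inv (ht (hn4 v (by linarith)))] at h2
      rw [hl]
      exact h2.symm
  have hKn : ∀ v ∈ K, ‖v‖ < 5 / 4 := by
    rintro v ⟨h1, h2, -⟩
    have h3 := hF1 v (h34 h1)
    rw [h2, dist_eq_norm] at h3
    calc ‖v‖ = ‖y - (y - v)‖ := by congr 1; abel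
      _ ≤ ‖y‖ + ‖y - v‖ := norm_sub_le _ _
      _ < 5 / 4 := by linarith
  have hKc : IsCompact K := by
    have h1 : K = (closedBall (0 : E n) 3 ∩ φ.symm ⁻¹' closure {x : X | InfOrbit g x}) ∩
        (closedBall (0 : E n) 3 ∩ F0 ⁻¹' {y}) := by
      ext v
      simp only [hK, mem_ofPred_eq, mem_inter_iff, mem_preimage, mem_singleton_iff]
      tauto
    rw [h1]
    refine IsCompact.of_isClosed_subset (isCompact_closedBall _ _) ?_
      (inter_subset_left.trans inter_subset_left)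
    refine IsClosed.inter ?_ ?_
    · exact (φ.continuousOn_symm.mono (h34.trans ht)).preimage_isClosed_of_isClosed
        isClosed_closedBall isClosed_closure
    · exact (hF0.mono h34).preimage_isClosed_of_isClosed isClosed_closedBall
        isClosed_singleton
  have hKD : ∀ k ∈ D, ∀ v ∈ K, φ (k • φ.symm v) ∈ K := by
    intro k hk v hv
    have h0 := hKn v hv
    have h1 := hTn k hk v (by linarith)
    refine ⟨hn3 _ (by linarith), ?_, ?_⟩
    · have hcl : IsClosed ((D : Set H) ∩ (fun k : H => F0 (φ (k • φ.symm v))) ⁻¹' {y}) := by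
        refine ContinuousOn.preimage_isClosed_of_isClosed ?_ hDc isClosed_singleton
        refine (hF0.mono h34).comp (hTc v (by linarith)) fun k hk => ?_
        have := hTn k hk v (by linarith)
        exact hn3 _ (by linarith)
      have hsub : (Subgroup.zpowers g : Set H) ⊆
          (D : Set H) ∩ (fun k : H => F0 (φ (k • φ.symm v))) ⁻¹' {y} := by
        rintro _ ⟨m, rfl⟩
        refine ⟨D.zpow_mem hgD m, ?_⟩
        show F0 (φ (g ^ m • φ.symm v)) = y
        rw [hFint m v (by linarith)]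
        exact hv.2.1
      have hk' : k ∈ closure (Subgroup.zpowers g : Set H) := by
        rw [← Subgroup.topologicalClosure_coe]
        exact hk
      exact (closure_minimal hsub hcl hk').2
    · rw [hTs k hk v (by linarith)]
      exact clI_closure hk hv.2.2
  -- the values of the eigenfunction
  have hΨnat : ∀ (m : ℕ), ∀ v ∈ K, Ψ (φ (g ^ m • φ.symm v)) = ζ ^ m * Ψ v := by
    intro m v hv
    have h0 := hKn v hv
    induction m with
    | zero =>
      rw [pow_zero, one_smul, φ.right_inv (ht (hn4 v (by linarith))), pow_zero, one_mul]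
    | succ m ih =>
      rw [pow_succ', mul_smul, ← hTs (g ^ m) (D.pow_mem hgD m) v (by linarith),
        hΨe _ (hKD (g ^ m) (D.pow_mem hgD m) v hv), ih, pow_succ']
      ring
  have hgp : g ^ p ∈ D := D.pow_mem hgD p
  have hD'D : (Subgroup.zpowers (g ^ p)).topologicalClosure ≤ D :=
    Subgroup.topologicalClosure_minimal _ ((Subgroup.zpowers_le).2 hgp) hDc
  have hΨq : ∀ q ∈ (Subgroup.zpowers (g ^ p)).topologicalClosure, ∀ v ∈ K,
      Ψ (φ (q • φ.symm v)) = Ψ v := by
    intro q hq v hv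
    have h0 := hKn v hv
    have hcl : IsClosed ((D : Set H) ∩ (fun k : H => Ψ (φ (k • φ.symm v))) ⁻¹' {Ψ v}) := by
      refine ContinuousOn.preimage_isClosed_of_isClosed ?_ hDc isClosed_singleton
      exact hΨc.comp (hTc v (by linarith)) fun k hk => hKD k hk v hv
    have hsub : (Subgroup.zpowers (g ^ p) : Set H) ⊆
        (D : Set H) ∩ (fun k : H => Ψ (φ (k • φ.symm v))) ⁻¹' {Ψ v} := by
      rintro _ ⟨m, rfl⟩
      refine ⟨D.zpow_mem hgp m, ?_⟩
      show Ψ (φ ((g ^ p) ^ m • φ.symm v)) = Ψ v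
      obtain ⟨l, hl | hl⟩ := m.eq_nat_or_neg
      · rw [hl, zpow_natCast, ← pow_mul, hΨnat _ v hv, pow_mul, hζp, one_pow, one_mul]
      · have hmem : (g ^ p) ^ m ∈ D := D.zpow_mem hgp m
        have h2 := hΨnat (p * l) (φ ((g ^ p) ^ m • φ.symm v)) (hKD _ hmem v hv)
        rw [hTs _ hmem v (by linarith), smul_smul, pow_mul, ← zpow_natCast (g ^ p) l,
          ← zpow_add, hl, add_neg_cancel, zpow_zero, one_smul,
          φ.right_inv (ht (hn4 v (by linarith))), pow_mul, hζp, one_pow, one_mul] at h2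
        rw [hl]
        exact h2.symm
    have hq' : q ∈ closure (Subgroup.zpowers (g ^ p) : Set H) := by
      rw [← Subgroup.topologicalClosure_coe]
      exact hq
    exact (closure_minimal hsub hcl hq').2
  -- the extension
  obtain ⟨Ψ1, hΨ1⟩ := ContinuousMap.exists_restrict_eq (Y := ℂ) hKc.isClosed
    ⟨K.domRestrict Ψ, continuousOn_iff_continuous_domRestrict.1 hΨc⟩
  have hΨ1' : ∀ v ∈ K, Ψ1 v = Ψ v := by
    intro v hv
    have := DFunLike.congr_fun hΨ1 ⟨v, hv⟩
    exact this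
  obtain ⟨B, hB1, hB2, hB3, hB4, hB5, -, -⟩ := exists_twop hp.pos hcomp hs0
  have hBK : ∀ v ∈ K, B Ψ1 v = Ψ v := by
    intro v hv
    have h0 := hKn v hv
    refine hB5 Ψ1 (Ψ v) v (h34 hv.1) fun i hi q hq => ?_
    have hqD := hD'D hq
    have hgi : g ^ i ∈ D := D.pow_mem hgD i
    have h1 : φ ((g ^ i * q) • φ.symm v) = φ (g ^ i • φ.symm (φ (q • φ.symm v))) := by
      rw [hTs q hqD v (by linarith), mul_smul]
    rw [hΨ1' _ (hKD _ (D.mul_mem hgi hqD) v hv), h1, hΨnat i _ (hKD q hqD v hv), hΨq q hq v hv]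
  obtain ⟨F, k1, k2, k3, k4, k5, k6⟩ := exists_pert hcomp hs0 hF0 hF1 hF2 (fun _ => y)
  obtain ⟨Ψ2, q1, q2, q3⟩ := exists_equiv hp hg hcomp hs0 k1 (Y := y)
    (fun c r d i t h1 x h2 h3 h4 => k6 0 c r d i t h1 x h2 h3 h4)
    (fun v hv hFv hgv => by
      have h1 := k4 v (h23 hv) hgv
      rw [hFv] at h1
      exact hfix v (h23 hv) h1.symm hgv)
    (Ψ0 := B Ψ1) ((hB1 _).mono h24)
    (fun v hv => hB2 _ v (closedBall_subset_closedBall (by norm_num) hv))
    (fun v hv hvZ hFv => by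
      have h1 : F0 v = y := by rw [← k5 v (h23 hv) hvZ]; exact hFv
      have hvK : v ∈ K := ⟨h23 hv, h1, hvZ⟩
      rw [hBK v hvK]
      exact hΨ0 v hvK)
  have hT := locAct_of_small (Subgroup.zpowers g).topologicalClosure hs0
  have hg' : Tendsto (fun j : ℕ => (⟨g, hgD⟩ : (Subgroup.zpowers g).topologicalClosure) ^ p ^ j)
      atTop (𝓝 1) := by
    rw [tendsto_subtype_rng]
    simpa using hg
  obtain ⟨x, hx, hFx, hΨx⟩ := hCIRC p hp n hn _ _ hT ⟨g, hgD⟩ hg' F k1 k2 k3 y hy Ψ2 q1 q2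
  exact q3 x hx hFx hΨx

end

end Pool.Agent.N512.CC
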