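import Pool.Agent.N512.CC.D5
import Pool.Agent.N512.CC.E2

/-!
# Globalisation; the circle criterion for the Hilbert-Smith conjecture

Adaptation of `Pool/Agent/R775/HS/Glob.lean` and `Pool/Agent/R775/HS/Lie.lean` to the local condition
`CritK`.
-/

set_option autoImplicit false
set_option linter.unusedSectionVars false

open MeasureTheory Set Metric Filter Topology TopologicalSpace
open scoped ENNReal NNReal

namespace Pool.Agent.N512.CC

open Pool.Agent.Y485.HS Pool.Agent.Y489.SP Pool.Agent.Y475.HS Pool.Agent.R775.HS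
  Pool.Agent.R775.HC Pool.Agent.N512.HS
open Pool.Agent.W660.GY (NSS GY3)

section
variable {n : ℕ} {X : Type} [TopologicalSpace X] {A : Set (OpenPartialHomeomorph X (E n))}

/-- triviality of the elements in small charts -/
def CritK {X H : Type} [TopologicalSpace X] [Group H] [TopologicalSpace H]
    [IsTopologicalGroup H] [MulAction H X] (A : Set (OpenPartialHomeomorph X (E n))) (g : H) :
    Prop :=
  ∀ p : ℕ, p.Prime → Tendsto (fun j : ℕ => g ^ p ^ j) atTop (𝓝 1) →
    IsCompact ((Subgroup.zpowers g).topologicalClosure : Set H) → ∀ φ ∈ A, Small φ ((Subgroup.zpowers g).topologicalClosure : Set H) →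
      ∀ v ∈ ball (0 : E n) 1, g • φ.symm v = φ.symm v

theorem locTriv3 [T2Space X] (hA : Stable n A)
    {H : Type} [Group H] [TopologicalSpace H] [IsTopologicalGroup H] [CompactSpace H] [T2Space H]
    [TotallyDisconnectedSpace H] [MulAction H X] [ContinuousSMul H X]
    (hcrit : ∀ h : H, CritK A h) {x0 : X} (hx0 : x0 ∈ RegA A) :
    ∃ K : Subgroup H, IsOpen (K : Set H) ∧ ∀ᶠ x in 𝓝 x0, ∀ k ∈ K, k • x = x := by
  obtain ⟨φ, hφ, hxφ, hφ0, K, hKo, hKs⟩ := start' hA (H := H) hx0
  have hKc : IsClosed (K : Set H) := Subgroup.isClosed_of_isOpen K hKo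
  have : CompactSpace K := isCompact_iff_compactSpace.1 hKc.isCompact
  have hDc : IsClosed (trivSub K (φ.symm '' ball (0 : E n) 1) : Set K) :=
    isClosed_triv (Subtype.val : K → H) continuous_subtype_val _
  have hD : trivSub K (φ.symm '' ball (0 : E n) 1) = ⊤ := by
    refine Pool.Agent.Y215.HS.syl K _ hDc ?_
    intro p hp P hPc hPp k hk
    have : CompactSpace P := isCompact_iff_compactSpace.1 hPc.isCompact
    have h1 : Tendsto (fun j : ℕ => (⟨k, hk⟩ : P) ^ p ^ j) atTop (𝓝 1) :=
      Pool.Agent.Y340.SP.t_POW p hp P hPp ⟨k, hk⟩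
    have hc : Continuous (fun q : P => ((q : K) : H)) :=
      continuous_subtype_val.comp continuous_subtype_val
    have h2 : Tendsto (fun j : ℕ => (k : H) ^ p ^ j) atTop (𝓝 1) := by
      have h3 := (hc.tendsto 1).comp h1
      simpa [Function.comp_def] using h3
    rintro _ ⟨v, hv, rfl⟩
    have hle : (Subgroup.zpowers (k : H)).topologicalClosure ≤ K :=
      Subgroup.topologicalClosure_minimal _ ((Subgroup.zpowers_le).2 k.2) hKc
    exact hcrit (k : H) p hp h2 (Subgroup.isClosed_topologicalClosure _).isCompact φ hφ ⟨hKs.1, fun h hh => hKs.2 h (hle hh)⟩ v hv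
  refine ⟨K, hKo, ?_⟩
  have hopen : IsOpen (φ.source ∩ φ ⁻¹' ball 0 1) :=
    φ.isOpen_inter_preimage isOpen_ball
  have hmem : x0 ∈ φ.source ∩ φ ⁻¹' ball 0 1 := ⟨hxφ, by simp [hφ0]⟩
  filter_upwards [hopen.mem_nhds hmem] with x hx k hk
  have h1 : (⟨k, hk⟩ : K) ∈ trivSub K (φ.symm '' ball (0 : E n) 1) := by
    rw [hD]; exact Subgroup.mem_top _
  exact h1 x ⟨φ x, hx.2, φ.left_inv hx.1⟩

/-- Newman's theorem -/
theorem news2 (hn : 1 ≤ n) [T2Space X] (hA : Stable n A)
    {P : Type} [Group P] [TopologicalSpace P] [IsTopologicalGroup P] [CompactSpace P] [T2Space P]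
    [TotallyDisconnectedSpace P] [MulAction P X] [ContinuousSMul P X] {p : ℕ} (hp : p.Prime)
    (hPp : ProP p P) (hcrit : ∀ h : P, CritK A h) {x0 : X} (hx0 : x0 ∈ RegA A)
    (hcl : ∀ V ∈ 𝓝 x0, ∃ a ∈ V, ∀ᶠ x in 𝓝 a, ∀ k : P, k • x = x) :
    ∀ᶠ x in 𝓝 x0, ∀ k : P, k • x = x := by
  by_contra hcon
  obtain ⟨φ, hφA, hxU⟩ := hx0
  -- `x0` is fixed
  have hfix0 : ∀ k : P, k • x0 = x0 := by
    have h1 : IsClosed {x : X | ∀ k : P, k • x = x} := by
      have : {x : X | ∀ k : P, k • x = x} = ⋂ k : P, {x | k • x = x} := by ext; simp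
      rw [this]
      exact isClosed_iInter fun k => isClosed_eq (continuous_const_smul k) continuous_id
    have h2 : x0 ∈ closure {x : X | ∀ k : P, k • x = x} := by
      rw [mem_closure_iff_nhds]
      intro V hV
      obtain ⟨a, haV, ha⟩ := hcl V hV
      exact ⟨a, haV, ha.self_of_nhds⟩
    rw [h1.closure_eq] at h2
    exact h2
  -- a neighbourhood which stays in the chart
  have hstay : ∀ᶠ x in 𝓝 x0, ∀ k : P, k • x ∈ φ.source := by
    have h1 : ∀ k ∈ (univ : Set P), ∀ᶠ q : X × P in 𝓝 (x0, k), q.2 • q.1 ∈ φ.source := by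
      intro k _
      have hc : Continuous (fun q : X × P => q.2 • q.1) := by fun_prop
      have hc' : ContinuousAt (fun q : X × P => q.2 • q.1) (x0, k) := hc.continuousAt
      refine hc'.eventually_mem ?_
      show φ.source ∈ 𝓝 (k • x0)
      rw [hfix0 k]
      exact φ.open_source.mem_nhds hxU
    have h2 := isCompact_univ.eventually_forall_of_forall_eventually
      (P := fun (x : X) (k : P) => k • x ∈ φ.source) h1
    filter_upwards [h2] with x hx k using hx k (mem_univ k)
  set z : E n := φ x0 with hz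
  have hzU : z ∈ φ.target := φ.map_source hxU
  have hG : ∀ᶠ y in 𝓝 z, y ∈ φ.target ∧ (∀ k : P, k • φ.symm y ∈ φ.source) := by
    have h1 : Tendsto φ.symm (𝓝 z) (𝓝 x0) := by
      have := φ.continuousAt_symm hzU
      rw [ContinuousAt, hz, φ.left_inv hxU] at this
      exact this
    filter_upwards [φ.open_target.mem_nhds hzU, h1.eventually hstay] with y h2 h3
    exact ⟨h2, h3⟩
  obtain ⟨ρ, hρ, hρG⟩ := (nhds_basis_closedBall.mem_iff).1 hG
  have hρU : closedBall z ρ ⊆ φ.target := fun y hy => (hρG hy).1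
  let T0 : P → E n → E n := fun k y => φ (k • φ.symm y)
  have hT0c : ContinuousOn (fun q : P × E n => T0 q.1 q.2) (univ ×ˢ closedBall z ρ) := by
    have h1 : ContinuousOn (fun q : P × E n => φ.symm q.2) (univ ×ˢ closedBall z ρ) :=
      φ.continuousOn_symm.comp continuousOn_snd (fun q hq => hρU hq.2)
    have h2 : ContinuousOn (fun q : P × E n => q.1 • φ.symm q.2) (univ ×ˢ closedBall z ρ) :=
      continuousOn_fst.smul h1
    exact φ.continuousOn.comp h2 (fun q hq => (hρG hq.2).2 q.1)
  have hT01 : ∀ x ∈ closedBall z ρ, T0 1 x = x := fun y hy => by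
    show φ ((1 : P) • φ.symm y) = y
    rw [one_smul, φ.right_inv (hρU hy)]
  have hT0m : ∀ h k, ∀ x ∈ closedBall z ρ, T0 k x ∈ closedBall z ρ →
      T0 (h * k) x = T0 h (T0 k x) := by
    intro h k y hy _
    show φ ((h * k) • φ.symm y) = φ (h • φ.symm (φ (k • φ.symm y)))
    rw [φ.left_inv ((hρG hy).2 k), mul_smul]
  have hV : φ.source ∩ φ ⁻¹' ball z ρ ∈ 𝓝 x0 :=
    (φ.isOpen_inter_preimage isOpen_ball).mem_nhds ⟨hxU, mem_ball_self hρ⟩
  obtain ⟨a, haV, ha⟩ := hcl _ hV
  obtain ⟨x1, hx1V, hx1⟩ : ∃ x1 ∈ φ.source ∩ φ ⁻¹' ball z ρ, ¬ ∀ k : P, k • x1 = x1 := by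
    by_contra h
    push Not at h
    exact hcon (mem_of_superset hV fun x hx => h x hx)
  push Not at hx1
  obtain ⟨k1, hk1⟩ := hx1
  have ha' : ∀ᶠ y in 𝓝 (φ a), ∀ k, T0 k y = y := by
    have hmem : φ.target ∈ 𝓝 (φ a) := φ.open_target.mem_nhds (φ.map_source haV.1)
    have h1 : Tendsto φ.symm (𝓝 (φ a)) (𝓝 a) := by
      have := φ.continuousAt_symm (φ.map_source haV.1)
      rw [ContinuousAt, φ.left_inv haV.1] at this
      exact this
    filter_upwards [hmem, h1.eventually ha] with y hy h2 k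
    show φ (k • φ.symm y) = y
    rw [h2 k, φ.right_inv hy]
  have hx1' : ∃ k, T0 k (φ x1) ≠ φ x1 := by
    refine ⟨k1, ?_⟩
    show φ (k1 • φ.symm (φ x1)) ≠ φ x1
    rw [φ.left_inv hx1V.1]
    intro h
    have h2 := (hρG (ball_subset_closedBall hx1V.2)).2 k1
    rw [φ.left_inv hx1V.1] at h2
    exact hk1 (φ.injOn h2 hx1V.1 h)
  obtain ⟨w, O, Φ, L', ⟨kw, hkw⟩, hwO, hOρ, hOo, hΦO, hΦL, hΦw, hΦB, hΦs⟩ :=
    Pool.Agent.Y665.HS.coord n hn P T0 z ρ hρ hT0c hT01 hT0m (φ a) haV.2 (φ x1) hx1V.2 ha' hx1'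
  have hOU : O ⊆ φ.target := fun y hy => hρU (ball_subset_closedBall (hOρ hy))
  obtain ⟨e, he1, he2, he3⟩ := exists_oph hOo hΦO hΦL
  have hφ1 : φ.trans e ∈ A := by
    refine hA φ hφA e ⟨L', fun a ha b hb => ?_⟩
    rw [he1] at ha hb
    rw [he3 a ha, he3 b hb]
    exact hΦL a ha b hb
  -- the new chart
  have hes : ∀ v ∈ closedBall (0 : E n) 4, e.symm v ∈ O ∧ Φ (e.symm v) = v := by
    intro v hv
    have h1 : v ∈ e.target := by rw [he2]; exact hΦB hv
    have h2 : e.symm v ∈ O := by rw [← he1]; exact e.map_target h1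
    exact ⟨h2, by rw [← he3 _ h2]; exact e.right_inv h1⟩
  have hsmall1 : Small (φ.trans e) (univ : Set P) := by
    refine ⟨?_, ?_⟩
    · intro v hv
      rw [OpenPartialHomeomorph.trans_target, he2]
      exact ⟨hΦB hv, hOU (hes v hv).1⟩
    · intro h _ v hv
      obtain ⟨hu, huv⟩ := hes v hv
      have h1 := hΦs (e.symm v) hu (by rw [huv]; exact hv) h
      have h2 : T0 h (e.symm v) = φ (h • φ.symm (e.symm v)) := rfl
      rw [h2, huv] at h1
      have h3 : h • φ.symm (e.symm v) ∈ φ.source :=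
        (hρG (ball_subset_closedBall (hOρ hu))).2 h
      rw [OpenPartialHomeomorph.trans_source, he1]
      simp only [OpenPartialHomeomorph.coe_trans, OpenPartialHomeomorph.coe_trans_symm,
        Function.comp_apply]
      refine ⟨⟨h3, h1.1⟩, ?_⟩
      rw [he3 _ h1.1]
      exact h1.2
  have hfin := hcrit kw p hp (Pool.Agent.Y340.SP.t_POW p hp P hPp kw)
    (Subgroup.isClosed_topologicalClosure _).isCompact (φ.trans e) hφ1
    ⟨hsmall1.1, fun h _ => hsmall1.2 h (mem_univ h)⟩ 0 (by simp)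
  have hw0 : e.symm 0 = w := by
    have h1 : e w = 0 := by rw [he3 w hwO, hΦw]
    rw [← h1]
    exact e.left_inv (by rw [he1]; exact hwO)
  simp only [OpenPartialHomeomorph.coe_trans_symm, Function.comp_apply, hw0] at hfin
  apply hkw
  show φ (kw • φ.symm w) = w
  rw [hfin, φ.right_inv (hOU hwO)]

/-- A profinite group all of whose elements satisfy the local condition has an open subgroup which
acts trivially. -/
theorem profinite2 (hn : 1 ≤ n) [T2Space X] (hA : Stable n A)
    {H : Type} [Group H] [TopologicalSpace H] [IsTopologicalGroup H] [CompactSpace H] [T2Space H]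
    [TotallyDisconnectedSpace H] [MulAction H X] [ContinuousSMul H X]
    (hdense : Dense (RegA A)) (hconn : IsPreconnected (RegA A)) (hcrit : ∀ h : H, CritK A h)
    (hsub : ∀ (K : Subgroup H) (P : Subgroup K), CompactSpace P → ∀ (q : P),
      CritK A ((q : K) : H) → CritK A q) :
    ∃ K : Subgroup H, IsOpen (K : Set H) ∧ ∀ k ∈ K, ∀ x : X, k • x = x := by
  rcases isEmpty_or_nonempty X with hX | hX
  · exact ⟨⊤, isOpen_univ, fun k _ x => (hX.false x).elim⟩
  obtain ⟨x0, hx0⟩ := hdense.nonempty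
  obtain ⟨K, hKo, hKt⟩ := locTriv3 hA hcrit hx0
  refine ⟨K, hKo, ?_⟩
  have hKc : IsClosed (K : Set H) := Subgroup.isClosed_of_isOpen K hKo
  have : CompactSpace K := isCompact_iff_compactSpace.1 hKc.isCompact
  have hDc : IsClosed (trivSub K (univ : Set X) : Set K) :=
    isClosed_triv (Subtype.val : K → H) continuous_subtype_val _
  have hD : trivSub K (univ : Set X) = ⊤ := by
    refine Pool.Agent.Y215.HS.syl K _ hDc ?_
    intro p hp P hPc hPp k hk
    have : CompactSpace P := isCompact_iff_compactSpace.1 hPc.isCompact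
    -- the interior of the fixed set of `P`
    let Z : Set X := {x | ∀ᶠ y in 𝓝 x, ∀ q : P, q • y = y}
    have hZo : IsOpen Z := by
      rw [isOpen_iff_mem_nhds]
      intro x hx
      exact eventually_eventually_nhds.2 hx
    have hZx : x0 ∈ Z := by
      filter_upwards [hKt] with y hy q
      exact hy ((q : K) : H) (q : K).2
    have hsubZ : RegA A ⊆ Z := by
      refine hconn.subset_of_closure_inter_subset hZo ⟨x0, hx0, hZx⟩ ?_
      rintro x ⟨hxZ, hxR⟩
      refine news2 hn hA hp hPp (fun q => hsub K P inferInstance q (hcrit _)) hxR ?_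
      intro V hV
      obtain ⟨a, haV, haZ⟩ := mem_closure_iff_nhds.1 hxZ V hV
      exact ⟨a, haV, haZ⟩
    intro x _
    have hcl : IsClosed {x : X | (k : H) • x = x} :=
      isClosed_eq (continuous_const_smul (k : H)) continuous_id
    have h2 : RegA A ⊆ {x : X | (k : H) • x = x} := by
      intro y hy
      exact (hsubZ hy).self_of_nhds ⟨k, hk⟩
    have h3 := hcl.closure_subset_iff.2 h2
    rw [hdense.closure_eq] at h3
    exact h3 (mem_univ x)
  intro k hk x
  have h1 : (⟨k, hk⟩ : K) ∈ trivSub K (univ : Set X) := by rw [hD]; exact Subgroup.mem_top _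
  exact h1 x (mem_univ x)

theorem critK_of_hom {P H : Type} [Group P] [TopologicalSpace P] [IsTopologicalGroup P]
    [CompactSpace P] [Group H] [TopologicalSpace H] [IsTopologicalGroup H] [T2Space H]
    [MulAction P X] [MulAction H X] (i : P →* H) (hi : Continuous i)
    (hact : ∀ (q : P) (x : X), q • x = i q • x) (q : P) (h : CritK A (i q)) : CritK A q := by
  intro p hp hgp _ φ hφ hs
  have h1 : Tendsto (fun j : ℕ => (i q) ^ p ^ j) atTop (𝓝 1) := by
    have h2 := (hi.tendsto 1).comp hgp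
    simpa [Function.comp_def] using h2
  have hsub := closure_zpowers_le i hi q
  have hcomp : IsCompact ((Subgroup.zpowers (i q)).topologicalClosure : Set H) :=
    ((((Subgroup.isClosed_topologicalClosure _).isCompact).image hi)).of_isClosed_subset
      (Subgroup.isClosed_topologicalClosure _) hsub
  intro v hv
  rw [hact]
  refine h p hp h1 hcomp φ hφ ⟨hs.1, ?_⟩ v hv
  intro k hk v hv
  obtain ⟨k', hk', rfl⟩ := hsub hk
  rw [← hact]
  exact hs.2 k' hk' v hv

/-- The criterion for locally compact groups. -/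
theorem lie_critK (hn : 1 ≤ n) [T2Space X] (hA : Stable n A) (hdense : Dense (RegA A))
    (hconn : IsPreconnected (RegA A)) {G : Type} [Group G] [TopologicalSpace G]
    [IsTopologicalGroup G] [LocallyCompactSpace G] [MulAction G X] [ContinuousSMul G X]
    [FaithfulSMul G X] {V : Set G} (hV : V ∈ 𝓝 (1 : G))
    (hcrit : T2Space G → ∀ g : G, ((Subgroup.zpowers g).topologicalClosure : Set G) ⊆ V →
      CritK A g) : IsLie G := by
  have hT2 : T2Space G := by
    refine ⟨fun g h hgh => ?_⟩
    obtain ⟨x, hx⟩ : ∃ x : X, g • x ≠ h • x := by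
      by_contra hall
      push Not at hall
      exact hgh (eq_of_smul_eq_smul hall)
    obtain ⟨u, v, hu, hv, hgu, hhv, huv⟩ := t2_separation hx
    have hc : Continuous (fun g : G => g • x) := by fun_prop
    exact ⟨_, _, hu.preimage hc, hv.preimage hc, hgu, hhv, huv.preimage _⟩
  have hN : NSS G := by
    refine nss_of_Z V hV ?_
    intro S _ _ _ _ _ _ i hi hinj hiV
    let _ : MulAction S X := MulAction.compHom X i
    have _ : ContinuousSMul S X := ⟨by
      have h : Continuous (fun q : S × X => i q.1 • q.2) := by fun_prop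
      exact h⟩
    have hcr : ∀ s : S, CritK A s := fun s =>
      critK_of_hom i hi (fun _ _ => rfl) s (hcrit hT2 (i s) (by
        intro k hk
        obtain ⟨k', -, rfl⟩ := closure_zpowers_le i hi s hk
        exact hiV k'))
    obtain ⟨K, hKo, hKt⟩ := profinite2 hn hA hdense hconn hcr (fun K P _ q hq =>
      critK_of_hom (K.subtype.comp P.subtype)
        (continuous_subtype_val.comp continuous_subtype_val) (fun _ _ => rfl) q hq)
    have hbot : K = ⊥ := by
      rw [eq_bot_iff]
      intro k hk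
      rw [Subgroup.mem_bot]
      apply hinj
      refine eq_of_smul_eq_smul (α := X) fun x => ?_
      rw [map_one, one_smul]
      exact hKt k hk x
    rw [hbot] at hKo
    refine discreteTopology_of_isOpen_singleton_one ?_
    convert hKo using 1
    ext x
    simp
  obtain ⟨E, i1, i2, i3, ⟨C⟩⟩ := Pool.Agent.Y328.HS.lga G hN
  let _ := i1
  let _ := i2
  have _ := i3
  exact Pool.Agent.Y286.HS.lgb G E C


/-- there is an invariant map close to the identity, equal to the identity at the fixed points, such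
that for a dense set of values `y` either `y` is fixed or the part of the fibre over `y` in the
closure of the set of the points of infinite orbit carries an eigenfunction -/
def GoodCirc {X H : Type} [TopologicalSpace X] [Group H] [MulAction H X]
    (φ : OpenPartialHomeomorph X (E n)) (g : H) (p : ℕ) : Prop :=
  ∃ F : E n → E n, ContinuousOn F (closedBall 0 4) ∧
    (∀ v ∈ closedBall (0 : E n) 4, dist (F v) v < 1 / 4) ∧
    (∀ v ∈ closedBall (0 : E n) 3, F (φ (g • φ.symm v)) = F v) ∧
    (∀ v ∈ closedBall (0 : E n) 3, g • φ.symm v = φ.symm v → F v = v) ∧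
    ball (0 : E n) 1 ⊆ closure {y | y ∈ ball (0 : E n) 1 ∧ (g • φ.symm y = φ.symm y ∨
      ∃ Ψ : E n → ℂ, ContinuousOn Ψ {v | v ∈ closedBall (0 : E n) 3 ∧ F v = y ∧
          φ.symm v ∈ closure {x : X | InfOrbit g x}} ∧
        ∀ v ∈ {v | v ∈ closedBall (0 : E n) 3 ∧ F v = y ∧
          φ.symm v ∈ closure {x : X | InfOrbit g x}}, Ψ v ≠ 0 ∧
            Ψ (φ (g • φ.symm v)) = Complex.exp (2 * Real.pi * Complex.I / p) * Ψ v)}

theorem triv_of_good (hCIRC : S_CIRC) (hn : 1 ≤ n) [T2Space X] {H : Type} [Group H]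
    [TopologicalSpace H] [IsTopologicalGroup H] [T2Space H] [MulAction H X] [ContinuousSMul H X]
    {φ : OpenPartialHomeomorph X (E n)} {g : H} {p : ℕ} (hp : p.Prime)
    (hg : Tendsto (fun j : ℕ => g ^ p ^ j) atTop (𝓝 1))
    (hcomp : IsCompact ((Subgroup.zpowers g).topologicalClosure : Set H))
    (hs : Small φ ((Subgroup.zpowers g).topologicalClosure : Set H)) (hgood : GoodCirc φ g p) :
    ∀ v ∈ ball (0 : E n) 1, g • φ.symm v = φ.symm v := by
  obtain ⟨F, h1, h2, h3, h4, h5⟩ := hgood
  intro v0 hv0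
  by_contra hne
  have h14 : ball (0 : E n) 1 ⊆ closedBall 0 4 :=
    ball_subset_closedBall.trans (closedBall_subset_closedBall (by norm_num))
  have hopen : {v | g • φ.symm v ≠ φ.symm v} ∈ 𝓝 v0 := by
    have hc : ContinuousAt φ.symm v0 := φ.continuousAt_symm (hs.1 (h14 hv0))
    have hcl : IsClosed {x : X | g • x = x} := isClosed_eq (continuous_const_smul g) continuous_id
    have h1 : ∀ᶠ v in 𝓝 v0, φ.symm v ∈ {x : X | g • x = x}ᶜ :=
      hc.eventually_mem (hcl.isOpen_compl.mem_nhds hne)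
    exact h1
  obtain ⟨y, hy, hy1, hy2⟩ := mem_closure_iff_nhds.1 (h5 hv0) _ hopen
  obtain ⟨Ψ, p1, p2⟩ := hy2.resolve_left hy
  exact fibre_circle hCIRC hn hp hg hcomp hs h1 h2 h3 hy1 (fun v hv hFv hgv => by
    have h6 := h4 v hv hgv
    rw [hFv] at h6
    rw [← h6] at hgv
    exact hy hgv) p1 (fun v hv => (p2 v hv).1) (fun v hv => (p2 v hv).2)

end

end Pool.Agent.N512.CC
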