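import Pool.Agent.N512.CC.Stm
import Pool.Agent.N512.HS.A1

/-!
# Project CC (MP_afaf30_gt): perturbation of a map which misses a value on a nowhere dense compact
set (helper618)
-/

set_option autoImplicit false

open MeasureTheory Set Metric Filter Topology

namespace Pool.Agent.N512.CC.Miss

open Pool.Agent.Y485.HS

/-- the preimage of a regular value is countable -/
theorem countable_fibre {n : ℕ} {g : E n → E n} (hg : ContDiff ℝ 1 g) {y : E n}
    (hy : ∀ x, g x = y → (fderiv ℝ g x).det ≠ 0) : (g ⁻¹' {y}).Countable := by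
  have hd : DiscreteTopology (g ⁻¹' {y}) := by
    rw [discreteTopology_iff_isOpen_singleton]
    rintro ⟨x, hx⟩
    have hs : HasFDerivAt g (fderiv ℝ g x) x :=
      (hg.differentiable one_ne_zero x).hasFDerivAt
    have hanti : ∃ C, AntilipschitzWith C (fderiv ℝ g x) := by
      have h1 := ((fderiv ℝ g x).toContinuousLinearEquivOfDetNeZero (hy x hx)).antilipschitz
      have h2 : (⇑((fderiv ℝ g x).toContinuousLinearEquivOfDetNeZero (hy x hx)) : E n → E n)
          = fderiv ℝ g x := by
        funext v
        rfl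
      rw [h2] at h1
      exact ⟨_, h1⟩
    have h := hs.eventually_ne (c := y) hanti
    rw [eventually_nhdsWithin_iff, _root_.eventually_nhds_iff] at h
    obtain ⟨U, hU, hUo, hxU⟩ := h
    refine ⟨U, hUo, ?_⟩
    ext ⟨z, hz⟩
    simp only [mem_preimage, mem_singleton_iff, Subtype.mk.injEq]
    constructor
    · intro hzU
      by_contra hne
      exact hU z hzU hne hz
    · rintro rfl
      exact hxU
  exact countable_coe_iff.1 countable_of_Lindelof_of_discrete

theorem t_MISS : S_MISS := by
  intro n hn F hF y S hS hS0 ε hε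
  obtain ⟨hFc, R, hR⟩ := hF
  -- a smooth approximation
  obtain ⟨g, hg, hgF⟩ := Pool.Agent.N512.HS.smooth_approx hFc (show 0 < ε / 4 by positivity)
  -- a regular value near `y`
  obtain ⟨y0, hy0, hreg⟩ : ∃ y0, dist y0 y < ε / 8 ∧ ∀ x, g x = y0 → (fderiv ℝ g x).det ≠ 0 := by
    have hnull : volume (g '' {x | (fderiv ℝ g x).det = 0}) = 0 := by
      apply addHaar_image_eq_zero_of_det_fderivWithin_eq_zero volume
        (f' := fderiv ℝ g) (s := {x | (fderiv ℝ g x).det = 0})
      · intro x hx
        exact ((hg.differentiable one_ne_zero x).hasFDerivAt).hasFDerivWithinAt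
      · intro x hx
        exact hx
    by_contra hcon
    push Not at hcon
    have hsub : ball y (ε / 8) ⊆ g '' {x | (fderiv ℝ g x).det = 0} := by
      intro z hz
      obtain ⟨x, hx, hx0⟩ := hcon z hz
      exact ⟨x, hx0, hx⟩
    have h1 := measure_mono_null hsub hnull
    exact (measure_ball_pos volume y (show 0 < ε / 8 by positivity)).ne' h1
  have hcount := countable_fibre hg hreg
  -- the ball around `S`
  obtain ⟨R1, hR1⟩ := hS.isBounded.subset_closedBall (0 : E n)
  -- uniform continuity
  obtain ⟨δ, hδ, hFδ⟩ : ∃ δ > 0, ∀ x v : E n, ‖x‖ ≤ |R1| + 1 → ‖v‖ < δ → dist (F (x + v)) (F x) < ε / 4 := by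
    have hc : IsCompact (closedBall (0 : E n) (|R1| + 2)) := isCompact_closedBall _ _
    have hu := hc.uniformContinuousOn_of_continuous hFc.continuousOn
    rw [Metric.uniformContinuousOn_iff] at hu
    obtain ⟨δ, hδ, h⟩ := hu (ε / 4) (by positivity)
    refine ⟨min δ 1, lt_min hδ one_pos, fun x v hx hv => ?_⟩
    have hv1 : ‖v‖ < δ := hv.trans_le (min_le_left _ _)
    have hv2 : ‖v‖ < 1 := hv.trans_le (min_le_right _ _)
    refine h _ ?_ _ ?_ ?_
    · rw [mem_closedBall_zero_iff]
      have := norm_add_le x v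
      linarith
    · rw [mem_closedBall_zero_iff]
      linarith
    · rw [dist_eq_norm, add_sub_cancel_left]
      exact hv1
  -- a tiny translation
  obtain ⟨v, hv, hvS⟩ : ∃ v : E n, ‖v‖ < δ ∧ ∀ w, g w = y0 → w - v ∉ S := by
    have hdense : Dense (⋂ w ∈ g ⁻¹' {y0}, {v : E n | w - v ∉ S}) := by
      refine dense_biInter_of_isOpen (fun w _ => ?_) hcount (fun w _ => ?_)
      · exact hS.isClosed.isOpen_compl.preimage (continuous_const.sub continuous_id)
      · have h1 : Dense Sᶜ := interior_eq_empty_iff_dense_compl.1 hS0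
        exact h1.preimage (Homeomorph.subLeft w).isOpenMap
    obtain ⟨v, hv1, hv2⟩ := hdense.inter_open_nonempty (ball (0 : E n) δ) isOpen_ball
      ⟨0, mem_ball_self hδ⟩
    refine ⟨v, by simpa using hv1, fun w hw => ?_⟩
    have := mem_iInter₂.1 hv2 w hw
    exact this
  -- the cut-off
  set χ : E n → ℝ := fun x => max 0 (min 1 (|R1| + 1 - ‖x‖)) with hχ
  have hχc : Continuous χ := by fun_prop
  have hχ0 : ∀ x, 0 ≤ χ x := fun x => le_max_left _ _
  have hχ1 : ∀ x, χ x ≤ 1 := fun x => max_le zero_le_one (min_le_left _ _)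
  have hχS : ∀ x ∈ S, χ x = 1 := by
    intro x hx
    have h1 : ‖x‖ ≤ R1 := by simpa using hR1 hx
    have h2 : ‖x‖ ≤ |R1| := h1.trans (le_abs_self R1)
    simp only [hχ]
    rw [min_eq_left (by linarith), max_eq_right zero_le_one]
  have hχo : ∀ x, |R1| + 1 ≤ ‖x‖ → χ x = 0 := by
    intro x hx
    simp only [hχ]
    rw [max_eq_left]
    exact (min_le_right _ _).trans (by linarith)
  refine ⟨fun x => F x + χ x • (g (x + v) + (y - y0) - F x), ⟨?_, ?_⟩, ?_, ?_⟩
  · have hgc := hg.continuous
    fun_prop
  · refine ⟨max R (|R1| + 1), fun x hx => ?_⟩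
    have h1 := hR x ((le_max_left _ _).trans hx)
    have h2 := hχo x ((le_max_right _ _).trans hx)
    simp only [h2, zero_smul, add_zero, h1]
  · intro x
    rw [dist_eq_norm, add_sub_cancel_left, norm_smul, Real.norm_eq_abs, abs_of_nonneg (hχ0 x)]
    by_cases hx : |R1| + 1 ≤ ‖x‖
    · rw [hχo x hx, zero_mul]
      exact hε
    · push Not at hx
      have h1 := hgF (x + v)
      have h2 := hFδ x v hx.le hv
      have h3 : ‖g (x + v) + (y - y0) - F x‖ ≤
          dist (g (x + v)) (F (x + v)) + dist (F (x + v)) (F x) + dist y0 y := by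
        have : g (x + v) + (y - y0) - F x
            = (g (x + v) - F (x + v)) + (F (x + v) - F x) + (y - y0) := by abel
        rw [this, dist_eq_norm, dist_eq_norm, dist_comm, dist_eq_norm]
        exact norm_add₃_le
      calc χ x * ‖g (x + v) + (y - y0) - F x‖ ≤ 1 * ‖g (x + v) + (y - y0) - F x‖ :=
            mul_le_mul_of_nonneg_right (hχ1 x) (norm_nonneg _)
        _ < ε := by
            rw [one_mul]
            linarith
  · intro x hx hxy
    have hxy' : F x + χ x • (g (x + v) + (y - y0) - F x) = y := hxy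
    rw [hχS x hx, one_smul] at hxy'
    have h1 : g (x + v) = y0 := by
      have h3 : g (x + v) - y0 = F x + (g (x + v) + (y - y0) - F x) - y := by abel
      rw [hxy', sub_self] at h3
      exact sub_eq_zero.1 h3
    apply hvS _ h1
    rw [add_sub_cancel_right]
    exact hx

end Pool.Agent.N512.CC.Miss
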