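import Pool.Agent.N512.CC.Stm

/-!
# Project CC (helper512), file NV (helper247): null sets for Hölder maps into `ℝⁿ × ℂ`
-/

set_option autoImplicit false

open MeasureTheory Set Metric Filter Topology
open scoped ENNReal NNReal

namespace Pool.Agent.N512.CC.Nv

open Pool.Agent.Y485.HS

theorem holder {X Y : Type} [MetricSpace X] [MetricSpace Y] {s : Set X} {g : X → Y} {C : ℝ}
    {r : ℝ≥0} (hC : 0 ≤ C)
    (h : ∀ x ∈ s, ∀ x' ∈ s, dist (g x) (g x') ≤ C * dist x x' ^ (r : ℝ)) :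
    HolderOnWith C.toNNReal r g s := by
  intro x hx y hy
  rw [edist_dist, edist_dist]
  calc ENNReal.ofReal (dist (g x) (g y)) ≤ ENNReal.ofReal (C * dist x y ^ (r : ℝ)) :=
        ENNReal.ofReal_le_ofReal (h x hx y hy)
    _ = ENNReal.ofReal C * ENNReal.ofReal (dist x y ^ (r : ℝ)) := ENNReal.ofReal_mul hC
    _ = _ := by rw [← ENNReal.ofReal_rpow_of_nonneg dist_nonneg r.coe_nonneg]; rfl

theorem null (n : ℕ) (r : ℝ≥0) (hr : (n : ℝ) < r * (n + 2)) (hr0 : 0 < r) {s : Set (E n)}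
    {g : E n → E n × ℂ} {C : ℝ≥0} (h : HolderOnWith C r g s) :
    (volume : Measure (E n × ℂ)) (g '' s) = 0 := by
  have hfr : Module.finrank ℝ (E n × ℂ) = n + 2 := by
    rw [Module.finrank_prod, Complex.finrank_real_complex, finrank_euclideanSpace_fin]
  have hH : (Measure.hausdorffMeasure (Module.finrank ℝ (E n × ℂ) : ℝ) :
      Measure (E n × ℂ)).IsAddHaarMeasure := isAddHaarMeasure_hausdorffMeasure
  have h1 := h.hausdorffMeasure_image_le hr0 (d := (Module.finrank ℝ (E n × ℂ) : ℝ))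
    (Nat.cast_nonneg _)
  have h2 : (Measure.hausdorffMeasure ((r : ℝ) * (Module.finrank ℝ (E n × ℂ) : ℝ)) :
      Measure (E n)) s = 0 := by
    have e : ((r : ℝ) * (Module.finrank ℝ (E n × ℂ) : ℝ)) = ((r * (n + 2 : ℝ≥0) : ℝ≥0) : ℝ) := by
      rw [hfr]
      push_cast
      rfl
    rw [e]
    apply hausdorffMeasure_of_dimH_lt
    refine lt_of_le_of_lt (dimH_mono (subset_univ s)) ?_
    rw [Real.dimH_univ_eq_finrank, finrank_euclideanSpace_fin]
    have h3 : (n : ℝ≥0) < r * (n + 2 : ℝ≥0) := by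
      rw [← NNReal.coe_lt_coe]
      push_cast
      exact hr
    exact_mod_cast h3
  rw [h2, mul_zero] at h1
  have hV : (volume : Measure (E n × ℂ)).IsAddHaarMeasure :=
    Measure.prod.instIsAddHaarMeasure (volume : Measure (E n)) (volume : Measure ℂ)
  exact Measure.absolutelyContinuous_isAddHaarMeasure volume
    (Measure.hausdorffMeasure (Module.finrank ℝ (E n × ℂ) : ℝ) : Measure (E n × ℂ))
    (le_antisymm h1 zero_le)

/-- the bad set -/
def B {n m : ℕ} (Q : Set (E n)) (f : E n → E n) (Ψ : Fin m → E n → ℂ) (i : Fin m) (l : ℕ) :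
    Set (E n × (Fin m → ℂ)) :=
  {p | ∃ x ∈ Q, (1 / ((l : ℝ) + 1) ≤ ‖Ψ i x‖) ∧ f x = p.1 ∧ ∑ j, p.2 j * Ψ j x = 0}

theorem closedB {n m : ℕ} {Q : Set (E n)} {f : E n → E n} {Ψ : Fin m → E n → ℂ} (hQ : IsCompact Q)
    (hf : ContinuousOn f Q) (hΨ : ∀ i, ContinuousOn (Ψ i) Q) (i : Fin m) (l : ℕ) :
    IsClosed (B Q f Ψ i l) := by
  -- the compact set of the values
  have hG : ContinuousOn (fun x => (f x, fun j => Ψ j x)) Q :=
    hf.prodMk (continuousOn_pi.2 hΨ)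
  set H : Set (E n × (Fin m → ℂ)) := (fun x => (f x, fun j => Ψ j x)) '' Q with hH
  have hHc : IsCompact H := hQ.image_of_continuousOn hG
  have : CompactSpace H := isCompact_iff_compactSpace.1 hHc
  set T : Set ((E n × (Fin m → ℂ)) × H) :=
    {p | 1 / ((l : ℝ) + 1) ≤ ‖(p.2 : E n × (Fin m → ℂ)).2 i‖ ∧
      (p.2 : E n × (Fin m → ℂ)).1 = p.1.1 ∧
      ∑ j, p.1.2 j * (p.2 : E n × (Fin m → ℂ)).2 j = 0} with hT
  have c2 : Continuous fun p : (E n × (Fin m → ℂ)) × H => (p.2 : E n × (Fin m → ℂ)) :=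
    continuous_subtype_val.comp continuous_snd
  have hTc : IsClosed T := by
    refine IsClosed.inter ?_ (IsClosed.inter ?_ ?_)
    · exact isClosed_le continuous_const ((continuous_apply i).comp (continuous_snd.comp c2)).norm
    · exact isClosed_eq (continuous_fst.comp c2) (continuous_fst.comp continuous_fst)
    · refine isClosed_eq ?_ continuous_const
      refine continuous_finsetSum _ fun j _ => ?_
      exact ((continuous_apply j).comp (continuous_snd.comp continuous_fst)).mul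
        ((continuous_apply j).comp (continuous_snd.comp c2))
  have hB : B Q f Ψ i l = Prod.fst '' T := by
    ext p
    constructor
    · rintro ⟨x, hx, h1, h2, h3⟩
      exact ⟨(p, ⟨(f x, fun j => Ψ j x), ⟨x, hx, rfl⟩⟩), ⟨h1, h2, h3⟩, rfl⟩
    · rintro ⟨⟨p', ⟨_, ⟨x, hx, rfl⟩⟩⟩, ⟨h1, h2, h3⟩, rfl⟩
      exact ⟨x, hx, h1, h2, h3⟩
  rw [hB]
  exact isClosedMap_fst_of_compactSpace _ hTc

theorem bdd {n : ℕ} {Q : Set (E n)} (hQ : IsCompact Q) {g : E n → ℂ} (hg : ContinuousOn g Q) :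
    ∃ M : ℝ, 0 ≤ M ∧ ∀ x ∈ Q, ‖g x‖ ≤ M := by
  obtain ⟨M, hM⟩ := hQ.exists_bound_of_continuousOn hg
  exact ⟨max M 0, le_max_right _ _, fun x hx => (hM x hx).trans (le_max_left _ _)⟩

/-- a quotient of Hölder functions -/
theorem quot {n : ℕ} {s : Set (E n)} {N D : E n → ℂ} {C₁ C₂ M₁ M₂ δ α : ℝ} (hδ : 0 < δ)
    (hM₁ : ∀ x ∈ s, ‖N x‖ ≤ M₁) (hM₂ : ∀ x ∈ s, ‖D x‖ ≤ M₂) (hD : ∀ x ∈ s, δ ≤ ‖D x‖)
    (h1 : ∀ x ∈ s, ∀ x' ∈ s, ‖N x - N x'‖ ≤ C₁ * dist x x' ^ α)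
    (h2 : ∀ x ∈ s, ∀ x' ∈ s, ‖D x - D x'‖ ≤ C₂ * dist x x' ^ α) (x : E n) (hx : x ∈ s) (x' : E n)
    (hx' : x' ∈ s) : dist (-(N x) / D x) (-(N x') / D x') ≤
      ((C₁ * M₂ + M₁ * C₂) / δ ^ 2) * dist x x' ^ α := by
  have d1 : D x ≠ 0 := by
    intro h
    have := hD x hx
    rw [h, norm_zero] at this
    linarith
  have d2 : D x' ≠ 0 := by
    intro h
    have := hD x' hx'
    rw [h, norm_zero] at this
    linarith
  have e : -(N x) / D x - -(N x') / D x' =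
      -((N x - N x') * D x' - N x' * (D x - D x')) / (D x * D x') := by
    field_simp
    ring
  rw [dist_eq_norm, e, norm_div, norm_neg, norm_mul, div_mul_eq_mul_div]
  have hN : ‖(N x - N x') * D x' - N x' * (D x - D x')‖ ≤
      (C₁ * M₂ + M₁ * C₂) * dist x x' ^ α := by
    refine (norm_sub_le _ _).trans ?_
    rw [norm_mul, norm_mul]
    have a1 : ‖N x - N x'‖ * ‖D x'‖ ≤ (C₁ * dist x x' ^ α) * M₂ :=
      mul_le_mul (h1 x hx x' hx') (hM₂ x' hx') (norm_nonneg _)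
        ((norm_nonneg _).trans (h1 x hx x' hx'))
    have a2 : ‖N x'‖ * ‖D x - D x'‖ ≤ M₁ * (C₂ * dist x x' ^ α) :=
      mul_le_mul (hM₁ x' hx') (h2 x hx x' hx') (norm_nonneg _)
        ((norm_nonneg _).trans (hM₁ x' hx'))
    nlinarith
  have hDD : δ ^ 2 ≤ ‖D x‖ * ‖D x'‖ := by
    rw [pow_two]
    exact mul_le_mul (hD x hx) (hD x' hx') hδ.le (norm_nonneg _)
  exact div_le_div₀ ((norm_nonneg _).trans hN) hN (by positivity) hDD

/-- the linear map `(y, z) ↦ (y, z e_i)` -/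
noncomputable def Lm (n m : ℕ) (i : Fin m) : (E n × ℂ) →ₗ[ℝ] (E n × (Fin m → ℂ)) :=
  LinearMap.prodMap LinearMap.id (LinearMap.single ℝ (fun _ : Fin m => ℂ) i)

theorem Lm_apply (n m : ℕ) (i : Fin m) (q : E n × ℂ) :
    Lm n m i q = (q.1, Pi.single i q.2) := rfl

theorem ae_of {n m : ℕ} (i : Fin m) {s : Set (E n × (Fin m → ℂ))} (hs : MeasurableSet s)
    (h : ∀ p, ∀ᵐ q : E n × ℂ, p + Lm n m i q ∈ s) :
    ∀ᵐ p : E n × (Fin m → ℂ) ∂(volume.prod volume), p ∈ s := by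
  have hV : (volume : Measure (E n × ℂ)).IsAddHaarMeasure :=
    Measure.prod.instIsAddHaarMeasure (volume : Measure (E n)) (volume : Measure ℂ)
  have hV2 : ((volume : Measure (E n)).prod (volume : Measure (Fin m → ℂ))).IsAddHaarMeasure :=
    Measure.prod.instIsAddHaarMeasure _ _
  exact ae_mem_of_ae_add_linearMap_mem (Lm n m i) _ _ hs h

theorem nullB {n m : ℕ} (r : ℝ≥0) (hr : (n : ℝ) < r * (n + 2)) (hr0 : 0 < r) {C : ℝ} (hC : 0 ≤ C)
    {Q : Set (E n)} {f : E n → E n} {Ψ : Fin m → E n → ℂ} (hQ : IsCompact Q)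
    (hf : ∀ x ∈ Q, ∀ x' ∈ Q, dist (f x) (f x') ≤ C * dist x x' ^ (r : ℝ))
    (hΨ : ∀ i, ∀ x ∈ Q, ∀ x' ∈ Q, dist (Ψ i x) (Ψ i x') ≤ C * dist x x' ^ (r : ℝ))
    (i : Fin m) (l : ℕ) :
    ∀ᵐ p : E n × (Fin m → ℂ) ∂(volume.prod volume), p ∉ B Q f Ψ i l := by
  have hfc : ContinuousOn f Q := (holder hC hf).continuousOn hr0
  have hΨc : ∀ i, ContinuousOn (Ψ i) Q := fun i => (holder hC (hΨ i)).continuousOn hr0
  have hcl := closedB hQ hfc hΨc i l
  have hL : ∀ p : E n × (Fin m → ℂ), ∀ᵐ q : E n × ℂ,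
      p + Lm n m i q ∈ (B Q f Ψ i l)ᶜ := by
    intro p
    -- the slice is contained in the image of a Hölder map
    set s : Set (E n) := {x | x ∈ Q ∧ 1 / ((l : ℝ) + 1) ≤ ‖Ψ i x‖} with hs
    set N : E n → ℂ := fun x => ∑ j, p.2 j * Ψ j x with hN
    set g : E n → E n × ℂ := fun x => (f x - p.1, -(N x) / Ψ i x) with hg
    have hδ : (0 : ℝ) < 1 / ((l : ℝ) + 1) := by positivity
    obtain ⟨M₂, hM₂0, hM₂⟩ := bdd hQ (hΨc i)
    have hNc : ContinuousOn N Q := continuousOn_finsetSum _ fun j _ =>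
      continuousOn_const.mul (hΨc j)
    obtain ⟨M₁, hM₁0, hM₁⟩ := bdd hQ hNc
    have hN1 : ∀ x ∈ s, ∀ x' ∈ s, ‖N x - N x'‖ ≤ ((∑ j, ‖p.2 j‖) * C) * dist x x' ^ (r : ℝ) := by
      intro x hx x' hx'
      have e : N x - N x' = ∑ j, p.2 j * (Ψ j x - Ψ j x') := by
        simp only [hN, mul_sub, Finset.sum_sub_distrib]
      rw [e, mul_assoc, Finset.sum_mul]
      refine (norm_sum_le _ _).trans (Finset.sum_le_sum fun j _ => ?_)
      rw [norm_mul]
      have := hΨ j x hx.1 x' hx'.1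
      rw [dist_eq_norm] at this
      exact mul_le_mul_of_nonneg_left this (norm_nonneg _)
    have hq := quot (s := s) (N := N) (D := Ψ i) (C₁ := (∑ j, ‖p.2 j‖) * C) (C₂ := C) (M₁ := M₁)
      (M₂ := M₂) (α := (r : ℝ)) hδ (fun x hx => hM₁ x hx.1) (fun x hx => hM₂ x hx.1)
      (fun x hx => hx.2) hN1 (fun x hx x' hx' => by
        have := hΨ i x hx.1 x' hx'.1
        rwa [dist_eq_norm] at this)
    set C' : ℝ := (((∑ j, ‖p.2 j‖) * C) * M₂ + M₁ * C) / (1 / ((l : ℝ) + 1)) ^ 2 with hC'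
    have hgH : HolderOnWith (max C C').toNNReal r g s := by
      apply holder (le_max_of_le_left hC)
      intro x hx x' hx'
      have hd : 0 ≤ dist x x' ^ (r : ℝ) := Real.rpow_nonneg dist_nonneg _
      rw [Prod.dist_eq]
      refine max_le ?_ ?_
      · show dist (f x - p.1) (f x' - p.1) ≤ _
        rw [dist_sub_right]
        exact (hf x hx.1 x' hx'.1).trans (mul_le_mul_of_nonneg_right (le_max_left _ _) hd)
      · exact (hq x hx x' hx').trans (mul_le_mul_of_nonneg_right (le_max_right _ _) hd)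
    have hnull := null n r hr hr0 hgH
    refine measure_mono_null ?_ hnull
    intro q hqB
    have hqB' : p + Lm n m i q ∈ B Q f Ψ i l := by
      by_contra hcon
      exact hqB hcon
    obtain ⟨x, hx, h1, h2, h3⟩ := hqB'
    refine ⟨x, ⟨hx, h1⟩, ?_⟩
    rw [Lm_apply] at h2 h3
    have h2' : f x = p.1 + q.1 := h2
    have h3' : ∑ j, (p.2 j + (Pi.single i q.2 : Fin m → ℂ) j) * Ψ j x = 0 := h3
    have h4 : N x + q.2 * Ψ i x = 0 := by
      have e : ∑ j, (p.2 j + (Pi.single i q.2 : Fin m → ℂ) j) * Ψ j x = N x + q.2 * Ψ i x := by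
        simp only [add_mul, Finset.sum_add_distrib]
        congr 1
        rw [Finset.sum_eq_single i]
        · rw [Pi.single_eq_same]
        · intro j _ hj
          rw [Pi.single_eq_of_ne hj, zero_mul]
        · intro h
          exact absurd (Finset.mem_univ i) h
      rw [← e]
      exact h3'
    have hΨ0 : Ψ i x ≠ 0 := by
      intro h
      rw [h, norm_zero] at h1
      linarith
    refine Prod.ext ?_ ?_
    · show f x - p.1 = q.1
      rw [h2', add_sub_cancel_left]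
    · show -(N x) / Ψ i x = q.2
      rw [div_eq_iff hΨ0]
      linear_combination -h4
  exact ae_of i hcl.isOpen_compl.measurableSet hL

end Pool.Agent.N512.CC.Nv

namespace Pool.Agent.N512.CC

open Pool.Agent.Y485.HS Nv

theorem t_NV : S_NV := by
  intro n hn m α C hα hC Q f Ψ hQ hf hΨ
  have hn0 : (0 : ℝ) < n := by exact_mod_cast hn
  have hα0 : 0 < α := lt_trans (by positivity) hα
  obtain ⟨r, rfl⟩ : ∃ r : ℝ≥0, (r : ℝ) = α := ⟨⟨α, hα0.le⟩, rfl⟩
  have hr0 : 0 < r := by exact_mod_cast hα0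
  have hr : (n : ℝ) < r * (n + 2) := by
    rwa [div_lt_iff₀ (by positivity)] at hα
  have h1 : ∀ᵐ p : E n × (Fin m → ℂ) ∂(volume.prod volume), ∀ (i : Fin m) (l : ℕ),
      p ∉ B Q f Ψ i l := by
    rw [ae_all_iff]
    intro i
    rw [ae_all_iff]
    intro l
    exact nullB r hr hr0 hC hQ hf hΨ i l
  have h2 := Measure.ae_ae_of_ae_prod h1
  filter_upwards [h2] with y hy
  filter_upwards [hy] with t ht
  rintro x hx hxy ⟨i, hi⟩ h0
  obtain ⟨l, hl⟩ := exists_nat_one_div_lt (norm_pos_iff.2 hi)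
  exact ht i l ⟨x, hx, hl.le, hxy, h0⟩

end Pool.Agent.N512.CC
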